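import Pool.Agent.Lib.TGT.FinDefs

/-!
# (T6): generic sections give a separable extension

`K / k` finitely generated of transcendence degree `n`, `k` algebraically closed, `P` a birational
model with basis `e`. The `1`-jets `(e s, d e s)` span `K × Ω[K⁄k]`, which has dimension at most
`n + 1`; hence `n + 1` generic elements `f i` of `P` have jets which span, and then `K` is separable
over `k (f i / f i₀)`.
-/

set_option autoImplicit false

namespace Pool.Agent.TGT

open Module
open Pool.Agent.TG (Bir)

universe u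

section Coeff

variable {k K : Type*} [Field k] [Field K] [Algebra k K]

/-- A nonzero polynomial over `K` does not vanish where a suitable nonzero polynomial over `k` does
not vanish. -/
theorem exists_poly_base {τ : Type*} (W : MvPolynomial τ K) (hW : W ≠ 0) :
    ∃ Δ : MvPolynomial τ k, Δ ≠ 0 ∧ ∀ a : τ → k, MvPolynomial.eval a Δ ≠ 0 →
      MvPolynomial.eval (fun i => algebraMap k K (a i)) W ≠ 0 := by
  classical
  obtain ⟨m, hm⟩ := MvPolynomial.ne_zero_iff.mp hW
  obtain ⟨φ, hφ⟩ : ∃ φ : Module.Dual k K, φ (MvPolynomial.coeff m W) ≠ 0 :=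
    Module.Projective.exists_dual_ne_zero k hm
  let Δ : MvPolynomial τ k := ∑ d ∈ W.support, MvPolynomial.monomial d (φ (W.coeff d))
  have hΔ : MvPolynomial.coeff m Δ = φ (W.coeff m) := by
    rw [MvPolynomial.coeff_sum, Finset.sum_eq_single m]
    · rw [MvPolynomial.coeff_monomial, if_pos rfl]
    · intro d _ hd
      rw [MvPolynomial.coeff_monomial, if_neg hd]
    · intro h
      rw [MvPolynomial.notMem_support_iff] at h
      rw [h, map_zero, MvPolynomial.monomial_zero, MvPolynomial.coeff_zero]
  refine ⟨Δ, fun h => hφ (by rw [← hΔ, h, MvPolynomial.coeff_zero]), fun a ha hWa => ha ?_⟩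
  have h1 : MvPolynomial.eval a Δ =
      φ (MvPolynomial.eval (fun i => algebraMap k K (a i)) W) := by
    rw [MvPolynomial.eval_eq (fun i => algebraMap k K (a i)) W, map_sum, map_sum]
    refine Finset.sum_congr rfl fun d _ => ?_
    rw [MvPolynomial.eval_monomial, Finsupp.prod]
    have h2 : (∏ i ∈ d.support, algebraMap k K (a i) ^ d i) =
        algebraMap k K (∏ i ∈ d.support, a i ^ d i) := by
      rw [map_prod]
      exact Finset.prod_congr rfl fun i _ => (map_pow _ _ _).symm
    rw [h2, mul_comm (W.coeff d), ← Algebra.smul_def, map_smul, smul_eq_mul, mul_comm]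
  rw [h1, hWa, map_zero]

/-- Generic elements of a spanning family span. -/
theorem exists_poly_span {M : Type*} [AddCommGroup M] [Module K M] [Module.Finite K M]
    {n : ℕ} (hn : finrank K M ≤ n) {ι : Type*} [Fintype ι] (v : ι → M)
    (hv : Submodule.span K (Set.range v) = ⊤) :
    ∃ Δ : MvPolynomial (Fin n × ι) k, Δ ≠ 0 ∧ ∀ a : Fin n × ι → k, MvPolynomial.eval a Δ ≠ 0 →
      Submodule.span K (Set.range fun i : Fin n => ∑ s, algebraMap k K (a (i, s)) • v s) = ⊤ := by
  classical
  set m := finrank K (Submodule.span K (Set.range v)) with hm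
  obtain ⟨g, hg1, hg2, hg3⟩ := Submodule.exists_fun_fin_finrank_span_eq K (Set.range v)
  have hmn : m ≤ n := by
    rw [hm, hv, finrank_top]
    exact hn
  choose τ hτ using hg1
  let b : Basis (Fin m) K M := Basis.mk hg3 (by rw [hg2, hv])
  have hb : ∀ i, b i = v (τ i) := fun i => by rw [Basis.mk_apply, hτ]
  let A : Matrix (Fin m) (Fin m) (MvPolynomial (Fin n × ι) K) := fun i j =>
    ∑ s, MvPolynomial.C (b.repr (v s) j) * MvPolynomial.X (Fin.castLE hmn i, s)
  have hA : ∀ a : Fin n × ι → K, MvPolynomial.eval a A.det =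
      Matrix.det (Matrix.of fun i j => b.repr (∑ s, a (Fin.castLE hmn i, s) • v s) j) := by
    intro a
    rw [RingHom.map_det]
    congr 1
    ext i j
    rw [RingHom.mapMatrix_apply, Matrix.map_apply]
    rw [Matrix.of_apply]
    change MvPolynomial.eval a (∑ s, _) = _
    rw [map_sum, map_sum, Finsupp.finsetSum_apply]
    refine Finset.sum_congr rfl fun s _ => ?_
    rw [map_mul, MvPolynomial.eval_C, MvPolynomial.eval_X, map_smul, Finsupp.smul_apply,
      smul_eq_mul, mul_comm]
  have hW : A.det ≠ 0 := by
    intro h0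
    have h1 := hA (fun x => if ∃ i : Fin m, Fin.castLE hmn i = x.1 ∧ τ i = x.2 then 1 else 0)
    rw [h0, map_zero] at h1
    have h2 : (Matrix.of fun i j => b.repr (∑ s, (if ∃ i' : Fin m, Fin.castLE hmn i' =
        Fin.castLE hmn i ∧ τ i' = s then (1 : K) else 0) • v s) j) =
        (1 : Matrix (Fin m) (Fin m) K) := by
      ext i j
      rw [Matrix.of_apply]
      rw [Finset.sum_eq_single (τ i)]
      · rw [if_pos ⟨i, rfl, rfl⟩, one_smul, ← hb, Basis.repr_self, Matrix.one_apply,
          Finsupp.single_apply]
      · intro s _ hs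
        rw [if_neg, zero_smul]
        rintro ⟨i', h3, h4⟩
        have h5 : i' = i := Fin.castLE_injective hmn h3
        exact hs (by rw [← h4, h5])
      · intro h
        exact absurd (Finset.mem_univ _) h
    have h3 : (0 : K) = Matrix.det (Matrix.of fun i j => b.repr (∑ s, (if ∃ i' : Fin m,
        Fin.castLE hmn i' = Fin.castLE hmn i ∧ τ i' = s then (1 : K) else 0) • v s) j) := h1
    rw [h2, Matrix.det_one] at h3
    exact zero_ne_one h3
  obtain ⟨Δ, hΔ0, hΔ⟩ := exists_poly_base (k := k) A.det hW
  refine ⟨Δ, hΔ0, fun a ha => ?_⟩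
  have h1 := hΔ a ha
  rw [hA] at h1
  have h2 : IsUnit (b.toMatrix fun i : Fin m =>
      ∑ s, algebraMap k K (a (Fin.castLE hmn i, s)) • v s) := by
    rw [Matrix.isUnit_iff_isUnit_det, isUnit_iff_ne_zero, ← Matrix.det_transpose]
    exact h1
  have h3 : Submodule.span K (Set.range fun i : Fin m =>
      ∑ s, algebraMap k K (a (Fin.castLE hmn i, s)) • v s) = ⊤ := by
    have h4 := (Basis.is_basis_iff_det b (v := fun i : Fin m =>
      ∑ s, algebraMap k K (a (Fin.castLE hmn i, s)) • v s)).mpr (by
        rw [Basis.det_apply]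
        exact (Matrix.isUnit_iff_isUnit_det _).mp h2)
    exact h4.2
  rw [eq_top_iff, ← h3]
  apply Submodule.span_mono
  rintro _ ⟨i, rfl⟩
  exact ⟨Fin.castLE hmn i, rfl⟩

end Coeff

section Span

variable {k K : Type u} [Field k] [Field K] [Algebra k K]

/-- If the differentials of `T` span then `K` is separable over `k (T)`. -/
theorem sep_of_span [Algebra.EssFiniteType k K] (T : Set K)
    (h : Submodule.span K ((KaehlerDifferential.D k K) '' T) = ⊤) :
    Algebra.IsSeparable (IntermediateField.adjoin k T) K := by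
  have h1 : Algebra.EssFiniteType (IntermediateField.adjoin k T) K :=
    Algebra.EssFiniteType.of_comp k _ K
  rw [← Algebra.FormallyUnramified.iff_isSeparable]
  constructor
  have h2 := KaehlerDifferential.map_surjective k (IntermediateField.adjoin k T) K
  have h3 : ∀ x : Ω[K⁄k], KaehlerDifferential.map k (IntermediateField.adjoin k T) K K x = 0 := by
    intro x
    have hx : x ∈ Submodule.span K ((KaehlerDifferential.D k K) '' T) := by
      rw [h]; trivial
    induction hx using Submodule.span_induction with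
    | mem y hy =>
      obtain ⟨t, ht, rfl⟩ := hy
      rw [KaehlerDifferential.map_D]
      exact Derivation.map_algebraMap _
        (⟨t, IntermediateField.subset_adjoin k T ht⟩ : IntermediateField.adjoin k T)
    | zero => rw [map_zero]
    | add y z _ _ hy hz => rw [map_add, hy, hz, add_zero]
    | smul c y _ hy => rw [map_smul, hy, smul_zero]
  refine ⟨fun x y => ?_⟩
  obtain ⟨x', rfl⟩ := h2 x
  obtain ⟨y', rfl⟩ := h2 y
  rw [h3, h3]

/-- If `K` is separable over `k (T)` then the differentials of `T` span. -/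
theorem span_of_sep [Algebra.EssFiniteType k K] (T : Set K)
    (h : Algebra.IsSeparable (IntermediateField.adjoin k T) K) :
    Submodule.span K ((KaehlerDifferential.D k K) '' T) = ⊤ := by
  have h1 : Algebra.EssFiniteType (IntermediateField.adjoin k T) K :=
    Algebra.EssFiniteType.of_comp k _ K
  have h2 : Algebra.FormallyUnramified (IntermediateField.adjoin k T) K :=
    (Algebra.FormallyUnramified.iff_isSeparable _ _).mpr h
  by_contra hne
  obtain ⟨φ, hφ, hφ'⟩ := Submodule.exists_dual_map_eq_bot_of_lt_top (lt_top_iff_ne_top.mpr hne)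
    inferInstance
  let δ : Derivation k K K := φ.compDer (KaehlerDifferential.D k K)
  have hT : ∀ t ∈ T, δ t = 0 := by
    intro t ht
    have h3 : φ (KaehlerDifferential.D k K t) ∈
        (Submodule.span K ((KaehlerDifferential.D k K) '' T)).map φ :=
      ⟨_, Submodule.subset_span ⟨t, ht, rfl⟩, rfl⟩
    rw [hφ'] at h3
    exact h3
  have hF : ∀ x ∈ IntermediateField.adjoin k T, δ x = 0 := by
    intro x hx
    induction hx using IntermediateField.adjoin_induction with
    | mem x hx => exact hT x hx
    | algebraMap x => exact δ.map_algebraMap x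
    | add x y _ _ hx hy => rw [map_add, hx, hy, add_zero]
    | inv x _ hx =>
      by_cases h0 : x = 0
      · rw [h0, inv_zero, map_zero]
      have h4 : δ (x * x⁻¹) = 0 := by rw [mul_inv_cancel₀ h0, Derivation.map_one_eq_zero]
      rw [Derivation.leibniz, hx, smul_zero, add_zero, smul_eq_mul] at h4
      exact (mul_eq_zero.mp h4).resolve_left h0
    | mul x y _ _ hx hy => rw [Derivation.leibniz, hx, hy, smul_zero, smul_zero, add_zero]
  let δ' : Derivation (IntermediateField.adjoin k T) K K :=
    { toFun := δ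
      map_add' := map_add δ
      map_smul' := fun c x => by
        rw [Algebra.smul_def]
        change δ ((c : K) * x) = c • δ x
        rw [Derivation.leibniz, hF _ c.2, smul_zero, add_zero]
        rfl
      map_one_eq_zero' := δ.map_one_eq_zero
      leibniz' := δ.leibniz }
  have h5 : δ' = 0 := by
    have h6 := (KaehlerDifferential.linearMapEquivDerivation (IntermediateField.adjoin k T) K
      (M := K)).symm.injective.subsingleton
    exact Subsingleton.elim _ _
  apply hφ
  have h7 : ∀ x, φ (KaehlerDifferential.D k K x) = 0 := fun x => by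
    change δ' x = 0
    rw [h5]; rfl
  ext x
  exact h7 x

/-- The differential of a quotient. -/
theorem D_div (f g : K) (hf : f ≠ 0) : KaehlerDifferential.D k K (g / f) =
    f⁻¹ • KaehlerDifferential.D k K g - (f⁻¹ * f⁻¹ * g) • KaehlerDifferential.D k K f := by
  have h1 : KaehlerDifferential.D k K g = KaehlerDifferential.D k K (g / f * f) := by
    rw [div_mul_cancel₀ g hf]
  have h2 : KaehlerDifferential.D k K (g / f * f) =
      (g / f) • KaehlerDifferential.D k K f + f • KaehlerDifferential.D k K (g / f) :=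
    Derivation.leibniz _ _ _
  have h3 : f⁻¹ * (g / f) = f⁻¹ * f⁻¹ * g := by
    rw [div_eq_mul_inv]; ring
  rw [h1, h2, smul_add, smul_smul, smul_smul, inv_mul_cancel₀ hf, one_smul, h3,
    add_sub_cancel_left]

/-- The jets of a birational model span. -/
theorem jets_span [Algebra.EssFiniteType k K] (P : Submodule k K) {ι : Type*} [Fintype ι]
    (e : Basis ι k P) (hP : Bir P) (s₀ : ι) :
    Submodule.span K (Set.range fun s : ι =>
      (((e s : P) : K), KaehlerDifferential.D k K ((e s : P) : K))) = ⊤ := by
  set Wd := Submodule.span K (Set.range fun s : ι =>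
      (((e s : P) : K), KaehlerDifferential.D k K ((e s : P) : K))) with hW
  have h1 : ∀ f ∈ P, (f, KaehlerDifferential.D k K f) ∈ Wd := by
    intro f hf
    have h2 := e.sum_repr ⟨f, hf⟩
    have h3 : f = ∑ s, e.repr ⟨f, hf⟩ s • ((e s : P) : K) := by
      have h4 := congrArg (Subtype.val) h2
      rw [AddSubmonoidClass.coe_finsetSum] at h4
      exact h4.symm
    have h5 : (f, KaehlerDifferential.D k K f) = ∑ s, algebraMap k K (e.repr ⟨f, hf⟩ s) •
        (((e s : P) : K), KaehlerDifferential.D k K ((e s : P) : K)) := by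
      apply Prod.ext
      · rw [Prod.fst_sum]
        exact h3.trans (Finset.sum_congr rfl fun s _ => by
          rw [Algebra.smul_def]; rfl)
      · rw [Prod.snd_sum]
        conv_lhs => rw [h3]
        rw [map_sum]
        exact Finset.sum_congr rfl fun s _ => by
          rw [Derivation.map_smul, ← algebraMap_smul K]; rfl
    rw [h5]
    exact Submodule.sum_mem _ fun s _ => Submodule.smul_mem _ _ (Submodule.subset_span ⟨s, rfl⟩)
  have h2 : ∀ w : Ω[K⁄k], ((0 : K), w) ∈ Wd := by
    intro w
    have h3 : Algebra.IsSeparable (IntermediateField.adjoin k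
        {x : K | ∃ f ∈ P, ∃ g ∈ P, x = g / f}) K := by
      rw [show IntermediateField.adjoin k {x : K | ∃ f ∈ P, ∃ g ∈ P, x = g / f} = ⊤ from hP]
      exact ⟨fun x => isSeparable_algebraMap (F := (⊤ : IntermediateField k K)) ⟨x, trivial⟩⟩
    have h4 := span_of_sep _ h3
    have hw : w ∈ Submodule.span K (KaehlerDifferential.D k K ''
        {x : K | ∃ f ∈ P, ∃ g ∈ P, x = g / f}) := by rw [h4]; trivial
    induction hw using Submodule.span_induction with
    | mem y hy =>
      obtain ⟨_, ⟨f, hf, g, hg, rfl⟩, rfl⟩ := hy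
      by_cases hf0 : f = 0
      · rw [hf0, div_zero, map_zero]
        exact Wd.zero_mem
      have h5 : ((0 : K), KaehlerDifferential.D k K (g / f)) =
          f⁻¹ • (g, KaehlerDifferential.D k K g) -
            (f⁻¹ * f⁻¹ * g) • (f, KaehlerDifferential.D k K f) := by
        apply Prod.ext
        · change (0 : K) = f⁻¹ * g - (f⁻¹ * f⁻¹ * g) * f
          field_simp
          ring
        · exact D_div f g hf0
      rw [h5]
      exact Wd.sub_mem (Wd.smul_mem _ (h1 g hg)) (Wd.smul_mem _ (h1 f hf))
    | zero => exact Wd.zero_mem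
    | add y z _ _ hy hz =>
      have := Wd.add_mem hy hz
      rwa [Prod.mk_add_mk, add_zero] at this
    | smul c y _ hy =>
      have := Wd.smul_mem c hy
      rwa [Prod.smul_mk, smul_zero] at this
  have he0 : ((e s₀ : P) : K) ≠ 0 := fun h => e.ne_zero s₀ (Subtype.ext h)
  rw [eq_top_iff]
  rintro ⟨x, w⟩ -
  have h3 : (x, w) = (x * ((e s₀ : P) : K)⁻¹) • (((e s₀ : P) : K),
      KaehlerDifferential.D k K ((e s₀ : P) : K)) + ((0 : K), w - (x * ((e s₀ : P) : K)⁻¹) •
      KaehlerDifferential.D k K ((e s₀ : P) : K)) := by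
    apply Prod.ext
    · change x = (x * ((e s₀ : P) : K)⁻¹) * ((e s₀ : P) : K) + 0
      rw [inv_mul_cancel_right₀ he0, add_zero]
    · change w = _ • _ + (w - _ • _)
      rw [add_sub_cancel]
  rw [h3]
  exact Wd.add_mem (Wd.smul_mem _ (h1 _ (e s₀).2)) (h2 _)

end Span

section Main

variable {k K : Type u} [Field k] [Field K] [Algebra k K]

/-- The module of differentials of a finitely generated field of transcendence degree `n` over a
perfect field has dimension at most `n`. -/
theorem finrank_omega_le [PerfectField k] [Algebra.EssFiniteType k K] {n : ℕ}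
    (hn : Algebra.trdeg k K = n) : Module.Finite K Ω[K⁄k] ∧ finrank K Ω[K⁄k] ≤ n := by
  classical
  obtain ⟨s, hs1, hs2⟩ :=
    exists_isTranscendenceBasis_and_isSeparable_of_perfectField k K
  have h1 := span_of_sep _ hs2
  have hcard : s.card = n := by
    have h2 := hs1.cardinalMk_eq_trdeg
    rw [hn, Cardinal.mk_coe_finset] at h2
    exact_mod_cast h2
  have h3 : Submodule.span K (Set.range fun x : s => KaehlerDifferential.D k K (x : K)) = ⊤ := by
    rw [← h1]
    congr 1
    ext y
    constructor
    · rintro ⟨x, rfl⟩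
      exact ⟨x, x.2, rfl⟩
    · rintro ⟨x, hx, rfl⟩
      exact ⟨⟨x, hx⟩, rfl⟩
  refine ⟨⟨?_⟩, ?_⟩
  · rw [← h3]
    exact Submodule.fg_span (Set.finite_range _)
  · have h4 := finrank_le_of_span_eq_top h3
    rwa [Fintype.card_coe, hcard] at h4

/-- Jets which span give a separable extension. -/
theorem sep_of_jets [Algebra.EssFiniteType k K] {m : ℕ} (f : Fin m → K)
    (h : Submodule.span K (Set.range fun i => (f i, KaehlerDifferential.D k K (f i))) = ⊤)
    (i₀ : Fin m) (h0 : f i₀ ≠ 0) :
    Algebra.IsSeparable (IntermediateField.adjoin k (Set.range fun i => f i / f i₀)) K := by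
  apply sep_of_span
  rw [eq_top_iff]
  intro w _
  have hw : ((0 : K), w) ∈ Submodule.span K
      (Set.range fun i => (f i, KaehlerDifferential.D k K (f i))) := by rw [h]; trivial
  obtain ⟨c, hc⟩ := (Submodule.mem_span_range_iff_exists_fun K).mp hw
  have h1 : ∑ i, c i * f i = 0 := by
    have := congrArg Prod.fst hc
    rw [Prod.fst_sum] at this
    exact this
  have h2 : ∑ i, c i • KaehlerDifferential.D k K (f i) = w := by
    have := congrArg Prod.snd hc
    rw [Prod.snd_sum] at this
    exact this
  have h3 : ∀ i, KaehlerDifferential.D k K (f i) =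
      (f i * (f i₀)⁻¹) • KaehlerDifferential.D k K (f i₀) +
        f i₀ • KaehlerDifferential.D k K (f i / f i₀) := by
    intro i
    have h4 : f i = f i / f i₀ * f i₀ := by rw [div_mul_cancel₀ _ h0]
    conv_lhs => rw [h4]
    rw [Derivation.leibniz, ← div_eq_mul_inv]
  have h5 : w = ∑ i, (c i * f i₀) • KaehlerDifferential.D k K (f i / f i₀) := by
    have h6 : ∑ i, c i • KaehlerDifferential.D k K (f i) =
        (∑ i, c i * (f i * (f i₀)⁻¹)) • KaehlerDifferential.D k K (f i₀) +
          ∑ i, (c i * f i₀) • KaehlerDifferential.D k K (f i / f i₀) := by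
      rw [Finset.sum_smul, ← Finset.sum_add_distrib]
      exact Finset.sum_congr rfl fun i _ => by
        conv_lhs => rw [h3 i]
        rw [smul_add, smul_smul, smul_smul]
    have h7 : ∑ i, c i * (f i * (f i₀)⁻¹) = 0 := by
      have h8 : ∑ i, c i * (f i * (f i₀)⁻¹) = (∑ i, c i * f i) * (f i₀)⁻¹ := by
        rw [Finset.sum_mul]
        exact Finset.sum_congr rfl fun i _ => by rw [mul_assoc]
      rw [h8, h1, zero_mul]
    rw [← h2, h6, h7, zero_smul, zero_add]
  rw [h5]
  exact Submodule.sum_mem _ fun i _ => Submodule.smul_mem _ _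
    (Submodule.subset_span ⟨f i / f i₀, ⟨i, rfl⟩, rfl⟩)

/-- **(T6)** generic sections of a birational model give a separable extension. -/
theorem sep [IsAlgClosed k] (n : ℕ) : SepStmt k K n := by
  classical
  intro hFG hn P ι _ e hP
  have : Algebra.EssFiniteType k K := IntermediateField.fg_top_iff.mp hFG
  rcases isEmpty_or_nonempty ι with hι | ⟨⟨s₀⟩⟩
  · refine ⟨1, one_ne_zero, fun a _ f hf i₀ => ?_⟩
    have h1 : (⊤ : IntermediateField k K) ≤ ⊥ := by
      rw [← show IntermediateField.adjoin k {x : K | ∃ f ∈ P, ∃ g ∈ P, x = g / f} = ⊤ from hP,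
        IntermediateField.adjoin_le_iff]
      rintro _ ⟨f, hf, g, hg, rfl⟩
      have hf0 : f = 0 := by
        have h2 := e.sum_repr ⟨f, hf⟩
        rw [Finset.univ_eq_empty, Finset.sum_empty] at h2
        exact (congrArg Subtype.val h2).symm
      rw [hf0, div_zero]
      exact (⊥ : IntermediateField k K).zero_mem
    refine ⟨fun x => ?_⟩
    have hx : x ∈ (⊥ : IntermediateField k K) := h1 trivial
    obtain ⟨c, rfl⟩ := IntermediateField.mem_bot.mp hx
    exact isSeparable_algebraMap (F := IntermediateField.adjoin k (Set.range fun i => f i / f i₀))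
      (algebraMap k _ c)
  obtain ⟨hfin, hfr⟩ := finrank_omega_le (k := k) (K := K) hn
  have hfr' : finrank K (K × Ω[K⁄k]) ≤ n + 1 := by
    rw [finrank_prod, finrank_self]
    omega
  obtain ⟨Δ, hΔ0, hΔ⟩ := exists_poly_span (k := k) hfr' _ (jets_span P e hP s₀)
  refine ⟨Δ * ∏ i, MvPolynomial.X (i, s₀), mul_ne_zero hΔ0 (Finset.prod_ne_zero_iff.mpr fun i _ =>
    MvPolynomial.X_ne_zero _), fun a ha f hf i₀ => ?_⟩
  rw [map_mul, map_prod] at ha
  have h1 := hΔ a (left_ne_zero_of_mul ha)
  have h2 := Finset.prod_ne_zero_iff.mp (right_ne_zero_of_mul ha) i₀ (Finset.mem_univ _)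
  rw [MvPolynomial.eval_X] at h2
  apply sep_of_jets f
  · rw [← h1]
    congr 2
    ext1 i
    apply Prod.ext
    · rw [Prod.fst_sum]
      exact (hf i).trans (Finset.sum_congr rfl fun s _ => by rw [Algebra.smul_def]; rfl)
    · rw [Prod.snd_sum]
      conv_lhs => rw [hf i]
      rw [map_sum]
      exact Finset.sum_congr rfl fun s _ => by
        rw [Derivation.map_smul, ← algebraMap_smul K]; rfl
  · intro h3
    rw [hf i₀] at h3
    have h4 : (∑ s, a (i₀, s) • e s) = 0 := by
      apply Subtype.ext
      rw [AddSubmonoidClass.coe_finsetSum]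
      exact h3
    have h5 := (Fintype.linearIndependent_iff.mp e.linearIndependent) _ h4 s₀
    exact h2 h5

end Main

end Pool.Agent.TGT

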