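import Pool.Agent.Lib.TGT.FinDefs

/-!
# (T7) FIN: inertia groups of order prime to `p > (n + 1)!`
-/

set_option autoImplicit false

namespace Pool.Agent.TGT

open Module Polynomial
open Pool.Agent.TG (Ov ZDim exists_zdim_le isIntegral_valuationSubring)

universe u

/-! ### Normal closures -/

section Closure

variable {F K N : Type u} [Field F] [Field K] [Field N] [Algebra F K] [Algebra F N]

theorem nc_finite [FiniteDimensional F K] [hN : IsNormalClosure F K N] :
    FiniteDimensional F N := by
  have h : IntermediateField.normalClosure F K N = ⊤ :=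
    (Algebra.IsAlgebraic.isNormalClosure_iff.1 hN).2
  have h1 : FiniteDimensional F (IntermediateField.normalClosure F K N) :=
    normalClosure.is_finiteDimensional F K N
  rw [h] at h1
  exact Module.Finite.equiv (IntermediateField.topEquiv (F := F) (E := N)).toLinearEquiv

theorem nc_separable [Algebra.IsSeparable F K] [hN : IsNormalClosure F K N] :
    Algebra.IsSeparable F N := by
  rw [← separableClosure.eq_top_iff, eq_top_iff, ← hN.adjoin_rootSet]
  refine iSup_le fun x => IntermediateField.adjoin_le_iff.2 fun y hy => ?_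
  have h1 : Polynomial.aeval y (minpoly F x) = 0 := (mem_rootSet.1 hy).2
  have h2 : (minpoly F x).Separable := Algebra.IsSeparable.isSeparable F x
  exact mem_separableClosure_iff.2 (h2.of_dvd (minpoly.dvd F y h1))

theorem nc_galois [Algebra.IsSeparable F K] [hN : IsNormalClosure F K N] : IsGalois F N :=
  { to_isSeparable := nc_separable (K := K)
    to_normal := IsNormalClosure.normal (K := K) }

/-- An automorphism `≠ 1` moves a conjugate of an element of `K`. -/
theorem exists_moved [hN : IsNormalClosure F K N] (σ : N ≃ₐ[F] N) (hσ : σ ≠ 1) :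
    ∃ (x : K) (θ : N), θ ∈ (minpoly F x).rootSet N ∧ σ θ ≠ θ := by
  by_contra hcon
  push Not at hcon
  apply hσ
  have h1 : (⊤ : IntermediateField F N) ≤
      IntermediateField.fixedField (Subgroup.zpowers σ) := by
    rw [← hN.adjoin_rootSet]
    refine iSup_le fun x => IntermediateField.adjoin_le_iff.2 fun y hy => ?_
    change y ∈ IntermediateField.fixedField (Subgroup.zpowers σ)
    rw [IntermediateField.mem_fixedField_iff]
    intro τ hτ
    obtain ⟨m, rfl⟩ := Subgroup.mem_zpowers_iff.1 hτ
    have h2 : σ • y = y := hcon x y hy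
    have h3 : σ ^ m • y = y := by
      have h4 : σ ∈ MulAction.stabilizer (N ≃ₐ[F] N) y := h2
      exact Subgroup.zpow_mem _ h4 m
    exact h3
  ext y
  have h2 := h1 (IntermediateField.mem_top (x := y))
  rw [IntermediateField.mem_fixedField_iff] at h2
  exact h2 σ (Subgroup.mem_zpowers σ)

end Closure

/-! ### Valuation rings -/

section Val

variable {N : Type u} [Field N]

theorem vlt_iff (A : ValuationSubring N) (y : N) : A.valuation y < 1 ↔ y = 0 ∨ y⁻¹ ∉ A := by
  by_cases h0 : y = 0
  · simp [h0]
  · have h1 : A.valuation y ≠ 0 := (Valuation.ne_zero_iff _).2 h0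
    rw [← A.valuation_le_one_iff, map_inv₀, not_le]
    constructor
    · intro h
      exact Or.inr ((one_lt_inv₀ (zero_lt_iff.2 h1)).2 h)
    · rintro (h | h)
      · exact absurd h h0
      · exact (one_lt_inv₀ (zero_lt_iff.2 h1)).1 h

theorem vlt_of_le {A A' : ValuationSubring N} (hle : A' ≤ A) {y : N} (h : A.valuation y < 1) :
    A'.valuation y < 1 := by
  rw [vlt_iff] at h ⊢
  exact h.imp id fun h1 h2 => h1 (hle h2)

theorem vlt_comap (A : ValuationSubring N) (g : N →+* N) (y : N) :
    (A.comap g).valuation y < 1 ↔ A.valuation (g y) < 1 := by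
  rw [vlt_iff, vlt_iff, map_eq_zero, ← map_inv₀]
  rfl

end Val

/-! ### The inertia group -/

section Inertia

variable {F N : Type u} [Field F] [Field N] [Algebra F N]

theorem inertia_sub (A : ValuationSubring N) (τ : A.inertiaSubgroup F) {a : N} (ha : a ∈ A) :
    A.valuation (((τ : A.decompositionSubgroup F) : N ≃ₐ[F] N) a - a) < 1 := by
  have h1 : MulSemiringAction.toRingAut (A.decompositionSubgroup F)
      (IsLocalRing.ResidueField A) (τ : A.decompositionSubgroup F) = 1 :=
    (MonoidHom.mem_ker).1 τ.2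
  have h2 : (τ : A.decompositionSubgroup F) • IsLocalRing.residue A ⟨a, ha⟩ =
      IsLocalRing.residue A ⟨a, ha⟩ := by
    have h3 := congrArg (fun e : RingAut (IsLocalRing.ResidueField A) =>
      e (IsLocalRing.residue A ⟨a, ha⟩)) h1
    exact h3
  rw [← IsLocalRing.ResidueField.residue_smul] at h2
  have h3 : IsLocalRing.residue A ((τ : A.decompositionSubgroup F) • (⟨a, ha⟩ : A) - ⟨a, ha⟩) = 0 := by
    rw [map_sub, h2, sub_self]
  rw [IsLocalRing.residue_eq_zero_iff] at h3
  exact (A.valuation_lt_one_iff _).1 h3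

end Inertia

/-! ### The theorem -/

section Main

variable {k K : Type u} [Field k] [Field K] [Algebra k K] {n : ℕ}

theorem range_div (f : Fin (n + 1) → K) (h0 : f 0 ≠ 0) :
    IntermediateField.adjoin k (Set.range fun i : Fin n => f i.succ / f 0) =
      IntermediateField.adjoin k (Set.range fun i : Fin (n + 1) => f i / f 0) := by
  apply le_antisymm
  · rw [IntermediateField.adjoin_le_iff]
    rintro _ ⟨i, rfl⟩
    exact IntermediateField.subset_adjoin k _ ⟨i.succ, rfl⟩
  · rw [IntermediateField.adjoin_le_iff]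
    rintro _ ⟨i, rfl⟩
    refine Fin.cases ?_ (fun j => ?_) i
    · change f 0 / f 0 ∈ _
      rw [div_self h0]
      exact one_mem _
    · exact IntermediateField.subset_adjoin k _ ⟨j, rfl⟩

/-- The core: an element of order `p` of an inertia group gives `p` automorphisms which stabilise
a centre and are different on `K`. -/
theorem core_fin [IsAlgClosed k] {p : ℕ} [hp : Fact p.Prime] (F : IntermediateField k K)
    {N : Type u} [Field N] [Algebra K N] [Algebra k N] [IsScalarTower k K N]
    [FiniteDimensional F K] [Algebra.IsSeparable F K] [hN : IsNormalClosure F K N]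
    (A : ValuationSubring N) (hA : Ov k A)
    (hdvd : p ∣ Nat.card (A.inertiaSubgroup F)) {ι : Type} [Finite ι] [Nonempty ι]
    (f : ι → K) (hf0 : ∀ i, f i ≠ 0) (hF : ∀ i j, f i / f j ∈ F) :
    ∃ (A' : ValuationSubring N) (_ : ZDim k A') (i₀ : ι),
      (∀ i, algebraMap K N (f i / f i₀) ∈ A') ∧ ∃ σ : Fin p → (N ≃ₐ[F] N),
        (∀ s, Stab A' (Algebra.adjoin k (Set.range fun i => algebraMap K N (f i / f i₀)))
          (σ s : N ≃+* N)) ∧
        ∀ s s', s ≠ s' → ∃ x : K, σ s (algebraMap K N x) ≠ σ s' (algebraMap K N x) := by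
  classical
  have hfin : FiniteDimensional F N := nc_finite (K := K)
  have hgal : IsGalois F N := nc_galois (K := K)
  have hkF : ∀ c : k, algebraMap F N (algebraMap k F c) = algebraMap k N c := fun c => by
    rw [IsScalarTower.algebraMap_apply k K N]
    rfl
  have _ : Finite (A.inertiaSubgroup F) := inferInstance
  obtain ⟨τ, hτ⟩ := exists_prime_orderOf_dvd_card' p hdvd
  set σ : N ≃ₐ[F] N := ((τ : A.decompositionSubgroup F) : N ≃ₐ[F] N) with hσ
  have hσo : orderOf σ = p := by
    rw [hσ, Subgroup.orderOf_coe, Subgroup.orderOf_coe, hτ]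
  have hσ1 : σ ≠ 1 := fun h => hp.1.one_lt.ne' (by rw [← hσo, h, orderOf_one])
  -- the powers of `σ` act trivially modulo the maximal ideal of `A`
  have hpow : ∀ (j : ℕ) {a : N}, a ∈ A → A.valuation ((σ ^ j) a - a) < 1 := by
    intro j a ha
    have h1 := inertia_sub A (τ ^ j) ha
    have h2 : (((τ ^ j : A.inertiaSubgroup F) : A.decompositionSubgroup F) : N ≃ₐ[F] N) =
        σ ^ j := by
      rw [Subgroup.coe_pow, Subgroup.coe_pow]
    rwa [h2] at h1
  obtain ⟨B, hBA, hB⟩ := exists_zdim_le hA
  have hBs : ∀ (j : ℕ) {b : N}, b ∈ B →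
      (B.valuation b < 1 ↔ B.valuation ((σ ^ j) b) < 1) := by
    intro j b hb
    have h1 := vlt_of_le hBA (hpow j (hBA hb))
    constructor
    · intro h2
      have h3 := Valuation.map_add_lt _ h1 h2
      rwa [sub_add_cancel] at h3
    · intro h2
      have h3 := Valuation.map_sub_lt _ h2 h1
      rwa [sub_sub_cancel] at h3
  -- the chart
  obtain ⟨i₀, hi₀⟩ := Finite.exists_max fun i => B.valuation (algebraMap K N (f i))
  have hch : ∀ i, algebraMap K N (f i / f i₀) ∈ B := by
    intro i
    rw [← B.valuation_le_one_iff, map_div₀, map_div₀]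
    have h1 : B.valuation (algebraMap K N (f i₀)) ≠ 0 := by
      rw [Valuation.ne_zero_iff, _root_.map_ne_zero]
      exact hf0 i₀
    rw [div_le_one₀ (zero_lt_iff.2 h1)]
    exact hi₀ i
  -- the conjugate which is moved
  obtain ⟨x, θ, hθ, hσθ⟩ := exists_moved (K := K) σ hσ1
  have hg : ∃ g : N ≃ₐ[F] N, g (algebraMap K N x) = θ := by
    apply minpoly.exists_algEquiv_of_root'
    · exact Algebra.IsAlgebraic.isAlgebraic _
    · rw [minpoly.algebraMap_eq (algebraMap K N).injective]
      exact (mem_rootSet.1 hθ).2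
  obtain ⟨g, hg⟩ := hg
  have hgfix : ∀ i, g (algebraMap K N (f i / f i₀)) = algebraMap K N (f i / f i₀) := fun i =>
    g.commutes ⟨f i / f i₀, hF i i₀⟩
  have hgk : ∀ c : k, g (algebraMap k N c) = algebraMap k N c := fun c => by
    rw [← hkF]
    exact g.commutes _
  refine ⟨B.comap (g : N →+* N), ⟨fun c => ?_, fun y hy => ?_⟩, i₀, fun i => ?_,
    fun s => g.symm * σ ^ (s : ℕ) * g, fun s b hb => ?_, fun s s' hss => ⟨x, ?_⟩⟩
  · change g (algebraMap k N c) ∈ B
    rw [hgk]
    exact hB.ov c
  · obtain ⟨c, hc⟩ := hB.res (g y) hy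
    refine ⟨c, ?_⟩
    rw [vlt_comap]
    change B.valuation (g (y - algebraMap k N c)) < 1
    rwa [map_sub, hgk]
  · change g (algebraMap K N (f i / f i₀)) ∈ B
    rw [hgfix]
    exact hch i
  · rw [vlt_comap, vlt_comap]
    change B.valuation (g b) < 1 ↔ B.valuation (g (g.symm ((σ ^ (s : ℕ)) (g b)))) < 1
    rw [g.apply_symm_apply]
    -- `g b` is integral
    have hRB : ∀ a ∈ Algebra.adjoin k (Set.range fun i => algebraMap K N (f i / f i₀)), a ∈ B := by
      intro a ha
      have h1 : Algebra.adjoin k (Set.range fun i => algebraMap K N (f i / f i₀)) ≤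
          TG.valg hB.ov := by
        rw [Algebra.adjoin_le_iff]
        rintro _ ⟨i, rfl⟩
        exact hch i
      exact h1 ha
    have hRg : ∀ a ∈ Algebra.adjoin k (Set.range fun i => algebraMap K N (f i / f i₀)),
        g a = a := by
      intro a ha
      induction ha using Algebra.adjoin_induction with
      | mem x hx =>
        obtain ⟨i, rfl⟩ := hx
        exact hgfix i
      | algebraMap c => exact hgk c
      | add x y _ _ hx hy => rw [map_add, hx, hy]
      | mul x y _ _ hx hy => rw [map_mul, hx, hy]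
    have hint : IsIntegral (Algebra.adjoin k (Set.range fun i => algebraMap K N (f i / f i₀)))
        (g b) := by
      obtain ⟨P, hP, hPb⟩ := hb
      refine ⟨P, hP, ?_⟩
      have h1 := hom_eval₂ P (algebraMap (Algebra.adjoin k (Set.range fun i =>
        algebraMap K N (f i / f i₀))) N) (g : N →+* N) b
      have h2 : (g : N →+* N).comp (algebraMap (Algebra.adjoin k (Set.range fun i =>
          algebraMap K N (f i / f i₀))) N) = algebraMap (Algebra.adjoin k (Set.range fun i =>
          algebraMap K N (f i / f i₀))) N := RingHom.ext fun a => hRg a a.2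
      rw [hPb, map_zero, h2] at h1
      exact h1.symm
    exact hBs s (isIntegral_valuationSubring hRB hint)
  · change g.symm ((σ ^ (s : ℕ)) (g (algebraMap K N x))) ≠
      g.symm ((σ ^ (s' : ℕ)) (g (algebraMap K N x)))
    rw [hg]
    intro h1
    have h2 : (σ ^ (s : ℕ)) • θ = (σ ^ (s' : ℕ)) • θ := g.symm.injective h1
    have hper : MulAction.period σ θ = p := by
      have h3 : MulAction.period σ θ ∣ p := by
        rw [← hσo]
        exact MulAction.period_dvd_orderOf σ θ
      rcases (Nat.dvd_prime hp.1).1 h3 with h4 | h4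
      · exact absurd (MulAction.period_eq_one_iff.1 h4) hσθ
      · exact h4
    have key : ∀ a b : ℕ, a ≤ b → b < p → (σ ^ a) • θ = (σ ^ b) • θ → a = b := by
      intro a b hab hb h3
      have h4 : (σ ^ (b - a)) • θ = θ := by
        have h5 : σ ^ b = σ ^ a * σ ^ (b - a) := by
          rw [← pow_add, Nat.add_sub_cancel' hab]
        rw [h5, mul_smul] at h3
        exact (smul_left_cancel _ h3).symm
      rw [MulAction.pow_smul_eq_iff_period_dvd, hper] at h4
      have h5 := Nat.eq_zero_of_dvd_of_lt h4 (by omega)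
      omega
    apply hss
    rcases le_total (s : ℕ) (s' : ℕ) with h3 | h3
    · exact Fin.ext (key _ _ h3 s'.2 h2)
    · exact Fin.ext (key _ _ h3 s.2 h2.symm).symm

/-- **FIN.** -/
theorem fin [IsAlgClosed k] {p : ℕ} [hp : Fact p.Prime] (h : LocStmt k K n)
    (hn : (n + 1).factorial < p) : FinStmt k K n p := by
  obtain ⟨f, hf0, halg, hsep, hfd, hloc⟩ := h
  refine ⟨fun i => f i.succ / f 0, halg, ?_⟩
  rw [range_div f (hf0 0)]
  refine ⟨hsep, hfd, ?_⟩
  intro N _ _ _ _ hN A hA
  by_contra hcop
  have hdvd : p ∣ Nat.card (A.inertiaSubgroup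
      (IntermediateField.adjoin k (Set.range fun i => f i / f 0))) := by
    by_contra h1
    exact hcop ((Nat.Prime.coprime_iff_not_dvd hp.1).2 h1).symm
  obtain ⟨A', hA', i₀, h1, σ, h2, h3⟩ := core_fin (p := p) _ A hA hdvd f hf0 (by
    intro i j
    have h0 : ∀ i, f i / f 0 ∈
        IntermediateField.adjoin k (Set.range fun i => f i / f 0) := fun i =>
      IntermediateField.subset_adjoin k _ ⟨i, rfl⟩
    have h4 : f i / f j = (f i / f 0) / (f j / f 0) := by
      have := hf0 0
      have := hf0 j
      field_simp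
    rw [h4]
    exact div_mem (h0 i) (h0 j))
  exact absurd (hloc N (nc_finite (K := K)) (nc_galois (K := K)) A' hA' i₀ h1 p σ h2 h3)
    (not_le.2 hn)

end Main

end Pool.Agent.TGT
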