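import Pool.Agent.Lib.TGT.LocAll
import Pool.Agent.Lib.TGT.Fin

/-!
# (T) Everywhere tame normalisation: the final form

One separating transcendence basis `x` such that, for every valuation ring `A` over `k` of the Galois
closure `N` of `K / k(x)`, at most `(n + 1)!` elements of the inertia group of `A` are different on
`K`, and the order of the inertia group is prime to all primes `p > (n + 1)!`.
-/

set_option autoImplicit false

namespace Pool.Agent.TGT

open Module
open Pool.Agent.TG (Ov ZDim exists_zdim_le isIntegral_valuationSubring)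

universe u

variable {k K : Type u} [Field k] [Field K] [Algebra k K] {n : ℕ}

/-- Inertia elements of any valuation ring over `k` stabilise the centre of a zero-dimensional
refinement. -/
theorem inertia_stab [IsAlgClosed k] (F : IntermediateField k K)
    {N : Type u} [Field N] [Algebra K N] [Algebra k N] [IsScalarTower k K N]
    (A : ValuationSubring N) (hA : Ov k A) {ι : Type} [Finite ι] [Nonempty ι]
    (f : ι → K) (hf0 : ∀ i, f i ≠ 0) :
    ∃ (B : ValuationSubring N) (_ : ZDim k B) (i₀ : ι),
      (∀ i, algebraMap K N (f i / f i₀) ∈ B) ∧ ∀ τ : A.inertiaSubgroup F,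
        Stab B (Algebra.adjoin k (Set.range fun i => algebraMap K N (f i / f i₀)))
          (((τ : A.decompositionSubgroup F) : N ≃ₐ[F] N) : N ≃+* N) := by
  obtain ⟨B, hBA, hB⟩ := exists_zdim_le hA
  obtain ⟨i₀, hi₀⟩ := Finite.exists_max fun i => B.valuation (algebraMap K N (f i))
  have hch : ∀ i, algebraMap K N (f i / f i₀) ∈ B := by
    intro i
    rw [← B.valuation_le_one_iff, map_div₀, map_div₀]
    have h1 : B.valuation (algebraMap K N (f i₀)) ≠ 0 := by
      rw [Valuation.ne_zero_iff, _root_.map_ne_zero]
      exact hf0 i₀
    rw [div_le_one₀ (zero_lt_iff.2 h1)]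
    exact hi₀ i
  have hRB : ∀ a ∈ Algebra.adjoin k (Set.range fun i => algebraMap K N (f i / f i₀)), a ∈ B := by
    intro a ha
    have h1 : Algebra.adjoin k (Set.range fun i => algebraMap K N (f i / f i₀)) ≤
        TG.valg hB.ov := by
      rw [Algebra.adjoin_le_iff]
      rintro _ ⟨i, rfl⟩
      exact hch i
    exact h1 ha
  refine ⟨B, hB, i₀, hch, fun τ b hb => ?_⟩
  have hbB : b ∈ B := isIntegral_valuationSubring hRB hb
  have h1 := vlt_of_le hBA (inertia_sub A τ (hBA hbB))
  change B.valuation b < 1 ↔
    B.valuation (((τ : A.decompositionSubgroup F) : N ≃ₐ[F] N) b) < 1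
  constructor
  · intro h2
    have h3 := Valuation.map_add_lt _ h1 h2
    rwa [sub_add_cancel] at h3
  · intro h2
    have h3 := Valuation.map_sub_lt _ h2 h1
    rwa [sub_sub_cancel] at h3

/-- The two statements for one transcendence basis. -/
theorem both [IsAlgClosed k] (h : LocStmt k K n) :
    ∃ x : Fin n → K, AlgebraicIndependent k x ∧
      Algebra.IsSeparable (IntermediateField.adjoin k (Set.range x)) K ∧
      FiniteDimensional (IntermediateField.adjoin k (Set.range x)) K ∧
      ∀ (N : Type u) [Field N] [Algebra K N] [Algebra k N] [IsScalarTower k K N],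
        IsNormalClosure (IntermediateField.adjoin k (Set.range x)) K N →
        ∀ A : ValuationSubring N, (∀ c : k, algebraMap k N c ∈ A) →
          (∀ (q : ℕ) (σ : Fin q → A.inertiaSubgroup (IntermediateField.adjoin k (Set.range x))),
            (∀ s s', s ≠ s' → ∃ y : K,
              ((σ s : A.decompositionSubgroup (IntermediateField.adjoin k (Set.range x))) :
                N ≃ₐ[IntermediateField.adjoin k (Set.range x)] N) (algebraMap K N y) ≠
              ((σ s' : A.decompositionSubgroup (IntermediateField.adjoin k (Set.range x))) :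
                N ≃ₐ[IntermediateField.adjoin k (Set.range x)] N) (algebraMap K N y)) →
            q ≤ (n + 1).factorial) ∧
          ∀ p : ℕ, p.Prime → (n + 1).factorial < p →
            (Nat.card
              (A.inertiaSubgroup (IntermediateField.adjoin k (Set.range x)))).Coprime p := by
  obtain ⟨f, hf0, halg, hsep, hfd, hloc⟩ := h
  refine ⟨fun i => f i.succ / f 0, halg, ?_⟩
  rw [range_div f (hf0 0)]
  refine ⟨hsep, hfd, ?_⟩
  intro N _ _ _ _ hN A hA
  constructor
  · intro q σ hσ
    obtain ⟨B, hB, i₀, h1, h2⟩ := inertia_stab
      (IntermediateField.adjoin k (Set.range fun i => f i / f 0)) A hA f hf0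
    exact hloc N (nc_finite (K := K)) (nc_galois (K := K)) B hB i₀ h1 q
      (fun s => ((σ s : A.decompositionSubgroup
        (IntermediateField.adjoin k (Set.range fun i => f i / f 0))) :
        N ≃ₐ[IntermediateField.adjoin k (Set.range fun i => f i / f 0)] N))
      (fun s => h2 (σ s)) hσ
  · intro p hp hn
    have : Fact p.Prime := ⟨hp⟩
    by_contra hcop
    have hdvd : p ∣ Nat.card (A.inertiaSubgroup
        (IntermediateField.adjoin k (Set.range fun i => f i / f 0))) := by
      by_contra h1
      exact hcop ((Nat.Prime.coprime_iff_not_dvd hp).2 h1).symm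
    obtain ⟨A', hA', i₀, h1, σ, h2, h3⟩ := core_fin (p := p) _ A hA hdvd f hf0 (by
      intro i j
      have h0 : ∀ i, f i / f 0 ∈
          IntermediateField.adjoin k (Set.range fun i => f i / f 0) := fun i =>
        IntermediateField.subset_adjoin k _ ⟨i, rfl⟩
      have h4 : f i / f j = (f i / f 0) / (f j / f 0) := by
        have := hf0 0
        have := hf0 j
        field_simp
      rw [h4]
      exact div_mem (h0 i) (h0 j))
    exact absurd (hloc N (nc_finite (K := K)) (nc_galois (K := K)) A' hA' i₀ h1 p σ h2 h3)
      (not_le.2 hn)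

end Pool.Agent.TGT
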