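import Pool.Agent.Lib.TGT.Defs

/-!
# The hyperplane of the elements vanishing at the centre
-/

set_option autoImplicit false

namespace Pool.Agent.TGT

open Module
open Pool.Agent.TG (Ov ZDim IsMin IsModel Bir)
open Pool.Agent.ALL68 (mul_lt_one_of_le_of_lt')

universe u

variable {k K : Type u} [Field k] [Field K] [Algebra k K] {V : ValuationSubring K}
  {P : Submodule k K} {f x : K}

theorem low_le (hV : Ov k V) (P : Submodule k K) : low hV P ≤ P := fun _ hx => hx.1

theorem mem_low_iff (hV : Ov k V) (hf : IsMin V P f) :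
    x ∈ low hV P ↔ x ∈ P ∧ V.valuation (x / f) < 1 := by
  refine ⟨fun h => ⟨h.1, h.2 f hf⟩, fun h => ⟨h.1, fun g hg => ?_⟩⟩
  have h1 : x / g = x / f / (g / f) := by rw [div_div_div_cancel_right₀ hf.ne]
  rw [h1, map_div₀, TG.val_div_eq_one hf hg, div_one]
  exact h.2

theorem not_mem_low (hV : Ov k V) (hf : IsMin V P f) : f ∉ low hV P := by
  rw [mem_low_iff hV hf, div_self hf.ne, map_one]
  rintro ⟨-, h⟩
  exact lt_irrefl _ h

/-- An element of `P` outside the hyperplane is minimal. -/
theorem isMin_of_not_mem (hV : Ov k V) (hf : IsMin V P f) (hx : x ∈ P) (h : x ∉ low hV P) :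
    IsMin V P x := by
  refine hf.of_val hx ?_
  rw [mem_low_iff hV hf] at h
  push Not at h
  exact le_antisymm ((V.valuation_le_one_iff _).2 (hf.div x hx)) (h hx)

theorem low_bot (hV : Ov k V) : low hV (⊥ : Submodule k K) = ⊥ :=
  le_bot_iff.1 (low_le hV ⊥)

theorem exists_pivot (hV : Ov k V) {ι : Type*} [Finite ι] (b : ι → K)
    (hne : Submodule.span k (Set.range b) ≠ ⊥) :
    ∃ j₀, IsMin V (Submodule.span k (Set.range b)) (b j₀) := by
  classical
  have hfin : (Set.range b).Finite := Set.finite_range b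
  obtain ⟨S, hS⟩ := hfin.exists_finset_coe
  have h1 : ∃ x ∈ S, x ≠ 0 := by
    by_contra h
    push Not at h
    apply hne
    rw [Submodule.span_eq_bot]
    intro x hx
    exact h x (by rw [← Finset.mem_coe, hS]; exact hx)
  obtain ⟨f, hf, hmin⟩ := TG.exists_isMin_mem hV S h1
  rw [← Finset.mem_coe, hS] at hf
  obtain ⟨j₀, rfl⟩ := hf
  rw [hS] at hmin
  exact ⟨j₀, hmin⟩

/-- Every element is a multiple of a minimal one up to an element of the hyperplane. -/
theorem exists_res (hV : ZDim k V) (hf : IsMin V P f) (hx : x ∈ P) :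
    ∃ c : k, V.valuation (x / f - algebraMap k K c) < 1 ∧ x - c • f ∈ low hV.ov P := by
  obtain ⟨c, hc⟩ := hV.res _ (hf.div x hx)
  refine ⟨c, hc, (mem_low_iff hV.ov hf).2 ⟨P.sub_mem hx (P.smul_mem c hf.mem), ?_⟩⟩
  rw [sub_div, Algebra.smul_def, mul_div_assoc, div_self hf.ne, mul_one]
  exact hc

theorem low_span (hV : ZDim k V) {m : ℕ} (b : Fin (m + 1) → K) (j₀ : Fin (m + 1))
    (hj : IsMin V (Submodule.span k (Set.range b)) (b j₀)) :
    ∃ ξ : Fin m → k,
      (∀ t, V.valuation (b (j₀.succAbove t) / b j₀ - algebraMap k K (ξ t)) < 1) ∧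
      low hV.ov (Submodule.span k (Set.range b)) =
        Submodule.span k (Set.range fun t => b (j₀.succAbove t) - ξ t • b j₀) := by
  have hb : ∀ t, b t ∈ Submodule.span k (Set.range b) := fun t => Submodule.subset_span ⟨t, rfl⟩
  choose ξ hξ hξl using fun t : Fin m => exists_res hV hj (hb (j₀.succAbove t))
  refine ⟨ξ, hξ, le_antisymm ?_ ?_⟩
  · intro x hx
    have hx1 := hx.1
    rw [Submodule.mem_span_range_iff_exists_fun] at hx1
    obtain ⟨c, rfl⟩ := hx1
    have e : ∑ i, c i • b i = (c j₀ + ∑ t, c (j₀.succAbove t) * ξ t) • b j₀ +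
        ∑ t, c (j₀.succAbove t) • (b (j₀.succAbove t) - ξ t • b j₀) := by
      rw [Fin.sum_univ_succAbove _ j₀, add_smul, Finset.sum_smul, add_assoc,
        ← Finset.sum_add_distrib]
      congr 1
      refine Finset.sum_congr rfl fun t _ => ?_
      rw [smul_sub, smul_smul]
      abel
    have h1 : (∑ t, c (j₀.succAbove t) • (b (j₀.succAbove t) - ξ t • b j₀)) ∈
        low hV.ov (Submodule.span k (Set.range b)) :=
      Submodule.sum_mem _ fun t _ => Submodule.smul_mem _ _ (hξl t)
    have h2 : (c j₀ + ∑ t, c (j₀.succAbove t) * ξ t) • b j₀ ∈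
        low hV.ov (Submodule.span k (Set.range b)) := by
      have h3 := Submodule.sub_mem _ hx h1
      rw [e] at h3
      simpa using h3
    have h3 : (c j₀ + ∑ t, c (j₀.succAbove t) * ξ t) = 0 := by
      by_contra h4
      have h5 := Submodule.smul_mem _ (c j₀ + ∑ t, c (j₀.succAbove t) * ξ t)⁻¹ h2
      rw [smul_smul, inv_mul_cancel₀ h4, one_smul] at h5
      exact not_mem_low hV.ov hj h5
    rw [e, h3, zero_smul, zero_add]
    exact Submodule.sum_mem _ fun t _ => Submodule.smul_mem _ _ (Submodule.subset_span ⟨t, rfl⟩)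
  · rw [Submodule.span_le]
    rintro _ ⟨t, rfl⟩
    exact hξl t

/-- The dimension drops by exactly one. -/
theorem finrank_low (hV : ZDim k V) [FiniteDimensional k P] (hP : P ≠ ⊥) :
    finrank k (low hV.ov P) + 1 = finrank k P := by
  obtain ⟨f, hf⟩ := TG.exists_isMin hV.ov (P := P)
    ⟨(Submodule.fg_top P).1 (Module.Finite.fg_top), hP⟩
  have h1 : low hV.ov P ⊔ Submodule.span k {f} = P := by
    refine le_antisymm (sup_le (low_le _ _) ?_) ?_
    · rw [Submodule.span_le]
      rintro _ rfl
      exact hf.mem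
    · intro x hx
      obtain ⟨c, -, hc⟩ := exists_res hV hf hx
      have e : x = (x - c • f) + c • f := by abel
      rw [e]
      exact Submodule.add_mem_sup hc (Submodule.smul_mem _ _ (Submodule.mem_span_singleton_self f))
  have h2 : low hV.ov P ⊓ Submodule.span k {f} = ⊥ := by
    rw [Submodule.eq_bot_iff]
    rintro x ⟨hx1, hx2⟩
    obtain ⟨c, rfl⟩ := Submodule.mem_span_singleton.1 hx2
    by_cases hc : c = 0
    · rw [hc, zero_smul]
    · exfalso
      have h3 := Submodule.smul_mem _ c⁻¹ hx1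
      rw [smul_smul, inv_mul_cancel₀ hc, one_smul] at h3
      exact not_mem_low hV.ov hf h3
  have : FiniteDimensional k (low hV.ov P) :=
    Submodule.finiteDimensional_of_le (low_le hV.ov P)
  have h3 := Submodule.finrank_sup_add_finrank_inf_eq (low hV.ov P) (Submodule.span k {f})
  rw [h1, h2, finrank_bot, finrank_span_singleton hf.ne, add_zero] at h3
  exact h3.symm

theorem Reach.le {P Q : Submodule k K} {c : ℕ} (h : Reach P Q c) : Q ≤ P := by
  induction h with
  | refl => exact le_rfl
  | step _ V hV _ ih => exact (low_le hV.ov _).trans ih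

theorem Reach.trans {P Q R : Submodule k K} {c d : ℕ} (h : Reach P Q c) (h' : Reach Q R d) :
    Reach P R (c + d) := by
  induction h' with
  | refl => exact h
  | step _ V hV hQ ih => exact Reach.step ih V hV hQ

end Pool.Agent.TGT
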