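import Pool.Agent.Lib.TGT.Res
import Pool.Agent.Lib.TGT.Low

/-!
# (T3) the core: count of transcendence degrees along a chain of projections
-/

set_option autoImplicit false

namespace Pool.Agent.TGT

open Module
open Pool.Agent.TG (Ov ZDim IsMin IsModel Bir)

universe u

section

variable {k K κ L : Type u} [Field k] [Field K] [Algebra k K] [Field κ] [Field L] [Algebra k κ]
  [Algebra κ L] [Algebra k L] [IsScalarTower k κ L]

/-- The transcendence degree of the image of `K`. -/
theorem eRk_range {n : ℕ} (hn : Algebra.trdeg k K = n) (φ : K →ₐ[k] L) :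
    (Mt k L).eRk (Set.range φ) ≤ n := by
  rw [Matroid.eRk_le_iff]
  intro I hI hind
  choose g hg using fun i : I => hI i.2
  have h1 : AlgebraicIndependent k g := by
    have h2 : AlgebraicIndependent k (fun j : I => (j : L)) := hind
    have h3 : (fun j : I => (j : L)) = φ ∘ g := by
      funext j
      exact (hg j).symm
    rw [h3] at h2
    exact h2.of_comp φ
  have h2 := h1.cardinalMk_le_trdeg
  rw [hn] at h2
  have h3 : I.Finite := by
    rw [← Cardinal.lt_aleph0_iff_set_finite]
    exact h2.trans_lt Cardinal.natCast_lt_aleph0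
  have h4 : I.ncard ≤ n := by
    have h5 := h2
    rw [← Set.cast_ncard h3] at h5
    exact_mod_cast h5
  rw [← h3.cast_ncard_eq]
  exact_mod_cast h4

/-- The constants. -/
def Cst (κ : Type u) (L : Type u) [Field κ] [Field L] [Algebra κ L] : Set L :=
  Set.range (algebraMap κ L)

variable {ι : Type} [Fintype ι]

/-- `Q` is spanned by `m` vectors with coordinates algebraic over `k(X)`. -/
def DefOver (k : Type u) {κ L : Type u} [Field k] [Field κ] [Field L] [Algebra k κ] [Algebra κ L]
    [Algebra k L] {ι : Type} [Fintype ι] (e : ι → L) (X : Set L) (m : ℕ) (Q : Submodule κ L) :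
    Prop :=
  ∃ B : Fin m → ι → κ, (∀ t s, algebraMap κ L (B t s) ∈ clF k X) ∧
    Q = Submodule.span κ (Set.range fun t => ∑ s, B t s • e s)

omit [Algebra k κ] [IsScalarTower k κ L] in
theorem sum_mem_clF {X S : Set L} {e : ι → L} (he : ∀ s, e s ∈ clF k S) (hXS : X ⊆ clF k S)
    {B : ι → κ} (hB : ∀ s, algebraMap κ L (B s) ∈ clF k X) : ∑ s, B s • e s ∈ clF k S := by
  refine sum_mem fun s _ => ?_
  rw [Algebra.smul_def]
  exact mul_mem (clF_mono hXS (hB s)) (he s)

/-- One step of the chain. -/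
theorem defOver_low {V : ValuationSubring L} (hV : ZDim κ V) {e : ι → L} {Kc X : Set L}
    (he : ∀ s, e s ∈ Kc) (hX : X ⊆ Cst κ L) {m : ℕ} {Q : Submodule κ L}
    (hQ : DefOver k e X (m + 1) Q) (hQ0 : Q ≠ ⊥) :
    ∃ T ⊆ Cst κ L, DefOver k e (X ∪ T) m (low hV.ov Q) ∧
      (Mt k L).eRk (X ∪ T) ≤ (Mt k L).eRk (Kc ∪ X) ∧
      ∀ z ∈ clF k (Kc ∪ X), z ≠ 0 → V.valuation z < 1 →
        (Mt k L).eRk (X ∪ T) + 1 ≤ (Mt k L).eRk (Kc ∪ X) := by
  obtain ⟨B, hB, rfl⟩ := hQ
  set b : Fin (m + 1) → L := fun t => ∑ s, B t s • e s with hb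
  obtain ⟨j₀, hj₀⟩ := exists_pivot hV.ov b hQ0
  obtain ⟨ξ, hξ, hlow⟩ := low_span hV b j₀ hj₀
  have hXS : X ⊆ clF k (Kc ∪ X) := fun x hx => subset_clF _ (Or.inr hx)
  have heS : ∀ s, e s ∈ clF k (Kc ∪ X) := fun s => subset_clF _ (Or.inl (he s))
  have hbS : ∀ t, b t ∈ clF k (Kc ∪ X) := fun t => sum_mem_clF heS hXS (hB t)
  refine ⟨Set.range fun t => algebraMap κ L (ξ t), ?_, ?_, ?_⟩
  · rintro _ ⟨t, rfl⟩
    exact ⟨_, rfl⟩
  · refine ⟨fun t s => B (j₀.succAbove t) s - ξ t * B j₀ s, fun t s => ?_, ?_⟩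
    · rw [map_sub, map_mul]
      have h1 : clF k X ≤ clF k (X ∪ Set.range fun t => algebraMap κ L (ξ t)) :=
        clF_mono fun x hx => subset_clF _ (Or.inl hx)
      refine sub_mem (h1 (hB _ _)) (mul_mem (subset_clF _ (Or.inr ⟨t, rfl⟩)) (h1 (hB _ _)))
    · rw [hlow]
      congr 2
      funext t
      rw [hb]
      simp only
      rw [Finset.smul_sum, ← Finset.sum_sub_distrib]
      refine Finset.sum_congr rfl fun s _ => ?_
      rw [sub_smul, mul_smul]
  · have h := res (k := k) hV.ov (S := Kc ∪ X) (X := X)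
      (T := Set.range fun t => algebraMap κ L (ξ t)) hX (by
        rintro _ ⟨t, rfl⟩
        exact ⟨_, rfl⟩) hXS (by
        rintro _ ⟨t, rfl⟩
        exact ⟨b (j₀.succAbove t) / b j₀, div_mem (hbS _) (hbS _), hξ t⟩)
    exact h

omit [IsScalarTower k κ L] in
/-- The start of the chain. -/
theorem defOver_zero (e : ι → L) : DefOver (κ := κ) k e ∅ (Fintype.card ι)
    (Submodule.span κ (Set.range e)) := by
  classical
  let eq := Fintype.equivFin ι
  refine ⟨fun t s => if s = eq.symm t then 1 else 0, fun t s => ?_, ?_⟩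
  · by_cases h : s = eq.symm t
    · simp only [h, if_true, map_one]; exact one_mem _
    · simp only [h, if_false, map_zero]; exact zero_mem _
  · congr 1
    ext x
    constructor
    · rintro ⟨s, rfl⟩
      refine ⟨eq s, ?_⟩
      simp
    · rintro ⟨t, rfl⟩
      refine ⟨eq.symm t, ?_⟩
      simp

omit [Algebra k κ] [IsScalarTower k κ L] in
/-- The coordinates of a vector of `Q`. -/
theorem coord_mem {e : ι → L} (hli : LinearIndependent κ e) {X W : Set L} {m : ℕ}
    (B : Fin m → ι → κ) (hB : ∀ t s, algebraMap κ L (B t s) ∈ clF k X) (hXW : X ⊆ clF k W)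
    {a : ι → κ} {lam : Fin m → κ} (hlam : ∀ t, algebraMap κ L (lam t) ∈ clF k W)
    {y : ι → κ} (hy : ∀ s, algebraMap κ L (y s) ∈ clF k W)
    (h : ∑ s, (a s - y s) • e s = ∑ t, lam t • ∑ s, B t s • e s) (s : ι) :
    algebraMap κ L (a s) ∈ clF k W := by
  have h1 : ∑ t, lam t • ∑ s, B t s • e s = ∑ s, (∑ t, lam t * B t s) • e s := by
    simp_rw [Finset.smul_sum, Finset.sum_smul, smul_smul]
    exact Finset.sum_comm
  rw [h1] at h
  have h2 := (Fintype.linearIndependent_iff.1 hli) (fun s => (a s - y s) - ∑ t, lam t * B t s) (by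
    simp_rw [sub_smul (_ - _), Finset.sum_sub_distrib]
    rw [h, sub_self]) s
  have h3 : a s = y s + ∑ t, lam t * B t s := by
    linear_combination h2
  rw [h3, map_add, map_sum]
  refine add_mem (hy s) (sum_mem fun t _ => ?_)
  rw [map_mul]
  exact mul_mem (hlam t) (clF_mono hXW (hB t s))

/-- The rank of the coordinates. -/
theorem card_le_eRk {n : ℕ} {a : Fin (n + 1) × ι → κ} (ha : AlgebraicIndependent k a) {W : Set L}
    (h : ∀ i s, algebraMap κ L (a (i, s)) ∈ clF k W) :
    (((n + 1) * Fintype.card ι : ℕ) : ℕ∞) ≤ (Mt k L).eRk W := by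
  have h1 : AlgebraicIndependent k ((IsScalarTower.toAlgHom k κ L) ∘ a) := by
    refine ha.map' ?_
    exact (algebraMap κ L).injective
  have h2 : (Mt k L).Indep (Set.range ((IsScalarTower.toAlgHom k κ L) ∘ a)) := h1.coe_range
  have h3 : Set.range ((IsScalarTower.toAlgHom k κ L) ∘ a) ⊆ (Mt k L).closure W := by
    rintro _ ⟨⟨i, s⟩, rfl⟩
    exact h i s
  have h4 := h2.encard_le_eRk_of_subset h3
  rw [(Mt k L).eRk_closure_eq] at h4
  refine le_trans ?_ (h1.injective.encard_range.trans h4)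
  rw [ENat.card_eq_coe_fintype_card, Fintype.card_prod, Fintype.card_fin]

omit [Field L] in
theorem encard_range_le {α : Type*} [Fintype α] (g : α → L) :
    (Set.range g).encard ≤ (Fintype.card α : ℕ) := by
  classical
  rw [← Set.image_univ]
  refine (Set.encard_image_le _ _).trans ?_
  rw [Set.encard_univ, ENat.card_eq_coe_fintype_card]

theorem low_mono_chain {A : ℕ → ValuationSubring L} {hA : ∀ j, ZDim κ (A j)}
    {Q : ℕ → Submodule κ L} (hQ : ∀ j, Q (j + 1) = low (hA j).ov (Q j)) : Antitone Q :=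
  antitone_nat_of_succ_le fun j => by rw [hQ]; exact low_le _ _

/-- The fields of definition along the chain. -/
theorem chain_def {n' : ℕ} {e : ι → L} {Kc : Set L} (he : ∀ s, e s ∈ Kc)
    (hK : (Mt k L).eRk Kc ≤ (n' + 1 : ℕ)) {A : ℕ → ValuationSubring L} (hA : ∀ j, ZDim κ (A j))
    {Q : ℕ → Submodule κ L} (hQ0 : Q 0 = Submodule.span κ (Set.range e))
    (hQ : ∀ j, Q (j + 1) = low (hA j).ov (Q j)) (hne : Q (n' + 2) ≠ ⊥)
    (hcen : ∀ j, 1 ≤ j → ∀ x ∈ Q 1, ∀ y ∈ Q 0, y ∉ Q 1 →
      (A j).valuation x < (A j).valuation y) (j : ℕ) (hj : j ≤ n' + 2) :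
    ∃ X ⊆ Cst κ L, ∃ m, m + (j + 1) = Fintype.card ι ∧ DefOver k e X m (Q (j + 1)) ∧
      (Mt k L).eRk X ≤ ((n' + 1 + j * n' : ℕ) : ℕ∞) ∧
      ∃ z ∈ clF k (Kc ∪ X), z ≠ 0 ∧ ∀ i, 1 ≤ i → (A i).valuation z < 1 := by
  have hanti := low_mono_chain (hA := hA) hQ
  have hne' : ∀ i, i ≤ n' + 2 → Q i ≠ ⊥ := by
    intro i hi h
    apply hne
    rw [← le_bot_iff, ← h]
    exact hanti hi
  induction j with
  | zero =>
    have h0 : DefOver k e ∅ (Fintype.card ι) (Q 0) := by
      rw [hQ0]
      exact defOver_zero e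
    obtain ⟨m, hm⟩ : ∃ m, Fintype.card ι = m + 1 := by
      refine ⟨Fintype.card ι - 1, ?_⟩
      have : Fintype.card ι ≠ 0 := by
        intro h
        apply hne' 0 (by omega)
        rw [hQ0, Submodule.span_eq_bot]
        rintro _ ⟨s, rfl⟩
        exact ((Fintype.card_eq_zero_iff.1 h).false s).elim
      omega
    rw [hm] at h0
    obtain ⟨T, hT, hdef, hrk, -⟩ := defOver_low (hA 0) (Kc := Kc) he (Set.empty_subset _) h0
      (hne' 0 (by omega))
    rw [Set.empty_union] at hdef
    rw [Set.empty_union, Set.union_empty] at hrk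
    refine ⟨T, hT, m, by rw [hm], ?_, ?_, ?_⟩
    · rw [hQ]; exact hdef
    · rw [zero_mul, add_zero]
      exact hrk.trans hK
    · -- the element `z`
      have h1 : Q 1 = low (hA 0).ov (Q 0) := hQ 0
      obtain ⟨B, hB, hspan⟩ := hdef
      rw [← h1] at hspan
      have h2 : ∃ t, (∑ s, B t s • e s) ≠ 0 := by
        by_contra h
        push Not at h
        apply hne' 1 (by omega)
        rw [hspan, Submodule.span_eq_bot]
        rintro _ ⟨t, rfl⟩
        exact h t
      obtain ⟨t, ht⟩ := h2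
      have hxQ : (∑ s, B t s • e s) ∈ Q 1 := by
        rw [hspan]
        exact Submodule.subset_span ⟨t, rfl⟩
      have h3 : ∃ s, e s ∉ Q 1 := by
        by_contra h
        push Not at h
        have h4 : Q 0 ≤ Q 1 := by
          rw [hQ0, Submodule.span_le]
          rintro _ ⟨s, rfl⟩
          exact h s
        obtain ⟨s₀, hs₀⟩ := exists_pivot (hA 0).ov e (by rw [← hQ0]; exact hne' 0 (by omega))
        rw [← hQ0] at hs₀
        have h5 := not_mem_low (hA 0).ov hs₀
        rw [← h1] at h5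
        exact h5 (h s₀)
      obtain ⟨s, hs⟩ := h3
      have hs0 : e s ≠ 0 := by
        intro h
        apply hs
        rw [h]
        exact Submodule.zero_mem _
      have hTS : T ⊆ clF k (Kc ∪ T) := fun x hx => subset_clF _ (Or.inr hx)
      have heS : ∀ s, e s ∈ clF k (Kc ∪ T) := fun s => subset_clF _ (Or.inl (he s))
      refine ⟨(∑ s, B t s • e s) / e s, div_mem (sum_mem_clF heS hTS (hB t)) (heS s),
        div_ne_zero ht hs0, fun i hi => ?_⟩
      have h6 := hcen i hi _ hxQ (e s) (by rw [hQ0]; exact Submodule.subset_span ⟨s, rfl⟩) hs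
      rw [map_div₀]
      have h7 : (A i).valuation (e s) ≠ 0 := (Valuation.ne_zero_iff _).2 hs0
      exact (div_lt_one₀ (zero_lt_iff.2 h7)).2 h6
  | succ j ih =>
    obtain ⟨X, hX, m, hm, hdef, hrk, z, hz, hz0, hz1⟩ := ih (by omega)
    obtain ⟨m', rfl⟩ : ∃ m', m = m' + 1 := by
      refine ⟨m - 1, ?_⟩
      have : m ≠ 0 := by
        rintro rfl
        obtain ⟨B, -, hspan⟩ := hdef
        apply hne' (j + 1) (by omega)
        rw [hspan, Submodule.span_eq_bot]
        rintro _ ⟨t, -⟩
        exact t.elim0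
      omega
    obtain ⟨T, hT, hdef', -, hrk'⟩ := defOver_low (hA (j + 1)) (Kc := Kc) he hX hdef
      (hne' (j + 1) (by omega))
    refine ⟨X ∪ T, Set.union_subset hX hT, m', by omega, ?_, ?_, z, ?_, hz0, hz1⟩
    · rw [hQ (j + 1)]; exact hdef'
    · have h1 := hrk' z hz hz0 (hz1 (j + 1) (by omega))
      have h2 : (Mt k L).eRk (Kc ∪ X) ≤ (n' + 1 : ℕ) + ((n' + 1 + j * n' : ℕ) : ℕ∞) :=
        ((Mt k L).eRk_union_le_eRk_add_eRk _ _).trans (add_le_add hK hrk)
      have h3 := h1.trans h2
      have h4 : (((n' + 1 : ℕ) : ℕ∞) + ((n' + 1 + j * n' : ℕ) : ℕ∞)) =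
          ((n' + 1 + (j + 1) * n' : ℕ) : ℕ∞) + 1 := by
        norm_cast
        ring
      rw [h4] at h3
      exact (ENat.add_le_add_iff_right (by simp)).1 h3
    · refine clF_mono ?_ hz
      rintro x (hx | hx)
      · exact subset_clF _ (Or.inl hx)
      · exact subset_clF _ (Or.inr (Or.inl hx))

/-- **The core of general position.** -/
theorem core (k K : Type u) [Field k] [Field K] [Algebra k K] (n : ℕ) : CoreStmt k K n := by
  intro hn hn0 P ι _ e _ κ L _ _ _ _ _ _ φ hli a ha
  have hKc : (Mt k L).eRk (Set.range φ) ≤ (n : ℕ∞) := eRk_range hn φ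
  have he : ∀ s, φ (e s : K) ∈ Set.range φ := fun s => ⟨_, rfl⟩
  constructor
  · rintro i₀ ⟨A, hA, Q, hQ0, hQ, hne, hcen, -, hu⟩
    obtain ⟨n', rfl⟩ : ∃ n', n = n' + 1 := ⟨n - 1, by omega⟩
    obtain ⟨X, -, m, hm, ⟨B, hB, hspan⟩, hrk, -⟩ := chain_def (k := k) he hKc hA hQ0 hQ hne hcen
      (n' + 2) le_rfl
    choose c hc using hu
    have hlam : ∀ i, ∃ lam : Fin m → κ, ∑ s, (a (i, s) - c i * a (i₀, s)) • φ (e s : K) =
        ∑ t, lam t • ∑ s, B t s • φ (e s : K) := by
      intro i
      have h1 := hc i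
      rw [hspan, Submodule.mem_span_range_iff_exists_fun] at h1
      obtain ⟨lam, h2⟩ := h1
      refine ⟨lam, ?_⟩
      rw [h2]
      simp_rw [sub_smul, Finset.sum_sub_distrib, mul_smul, ← Finset.smul_sum]
    choose lam hlam using hlam
    set W : Set L := X ∪ (Set.range (fun s => algebraMap κ L (a (i₀, s))) ∪
      (Set.range (fun i : Fin (n' + 1) => algebraMap κ L (c (i₀.succAbove i))) ∪
        Set.range (fun it : Fin (n' + 1) × Fin m =>
          algebraMap κ L (lam (i₀.succAbove it.1) it.2)))) with hW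
    have hXW : X ⊆ clF k W := fun x hx => subset_clF _ (Or.inl hx)
    have ha0 : ∀ s, algebraMap κ L (a (i₀, s)) ∈ clF k W := fun s =>
      subset_clF _ (Or.inr (Or.inl ⟨s, rfl⟩))
    have hcoord : ∀ i s, algebraMap κ L (a (i, s)) ∈ clF k W := by
      intro i s
      by_cases hi : i = i₀
      · rw [hi]; exact ha0 s
      · obtain ⟨i', rfl⟩ := Fin.exists_succAbove_eq hi
        refine coord_mem hli B hB hXW (a := fun s => a (i₀.succAbove i', s))
          (lam := lam (i₀.succAbove i')) (fun t => ?_)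
          (y := fun s => c (i₀.succAbove i') * a (i₀, s)) (fun s => ?_) (hlam _) s
        · exact subset_clF _ (Or.inr (Or.inr (Or.inr ⟨(i', t), rfl⟩)))
        · rw [map_mul]
          exact mul_mem (subset_clF _ (Or.inr (Or.inr (Or.inl ⟨i', rfl⟩)))) (ha0 s)
    have h1 := card_le_eRk ha hcoord
    have h2 : (Mt k L).eRk W ≤ ((n' + 1 + (n' + 2) * n' : ℕ) : ℕ∞) +
        ((Fintype.card ι : ℕ) + ((n' + 1 : ℕ) + ((n' + 1) * m : ℕ))) := by
      refine ((Mt k L).eRk_union_le_eRk_add_eRk _ _).trans (add_le_add hrk ?_)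
      refine ((Mt k L).eRk_union_le_eRk_add_eRk _ _).trans (add_le_add ?_ ?_)
      · exact ((Mt k L).eRk_le_encard _).trans (encard_range_le _)
      refine ((Mt k L).eRk_union_le_eRk_add_eRk _ _).trans (add_le_add ?_ ?_)
      · refine ((Mt k L).eRk_le_encard _).trans ((encard_range_le _).trans ?_)
        rw [Fintype.card_fin]
      · refine ((Mt k L).eRk_le_encard _).trans ((encard_range_le _).trans ?_)
        rw [Fintype.card_prod, Fintype.card_fin, Fintype.card_fin]
    have h3 := h1.trans h2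
    norm_cast at h3
    rw [← hm] at h3
    nlinarith
  · rintro ⟨A, hA, hf⟩
    obtain ⟨m, hm⟩ : ∃ m, Fintype.card ι = m + 1 := by
      refine ⟨Fintype.card ι - 1, ?_⟩
      have : Fintype.card ι ≠ 0 := by
        intro h
        have h1 := Fintype.card_eq_zero_iff.1 h
        rename_i hP _ _ _ _ _ _
        exact hP (by
          have h2 : (⊤ : Submodule k P) = ⊥ := by
            rw [← e.span_eq, Submodule.span_eq_bot]
            rintro _ ⟨s, rfl⟩
            exact (h1.false s).elim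
          have h3 := (Submodule.subsingleton_iff_eq_bot (p := P)).1
          exact h3 ⟨fun x y => by
            have hx : x ∈ (⊤ : Submodule k P) := trivial
            have hy : y ∈ (⊤ : Submodule k P) := trivial
            rw [h2, Submodule.mem_bot] at hx hy
            rw [hx, hy]⟩)
      omega
    have h0 := defOver_zero (k := k) (κ := κ) (fun s => φ (e s : K))
    rw [hm] at h0
    by_cases hbot : Submodule.span κ (Set.range fun s => φ (e s : K)) = ⊥
    · -- impossible: independent vectors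
      have h1 : Nonempty ι := by
        rw [← Fintype.card_pos_iff, hm]
        exact Nat.succ_pos m
      obtain ⟨s⟩ := h1
      have h2 := hli.ne_zero s
      rw [Submodule.span_eq_bot] at hbot
      exact h2 (hbot _ ⟨s, rfl⟩)
    obtain ⟨T, -, ⟨B, hB, hspan⟩, hrk, -⟩ := defOver_low hA (Kc := Set.range φ) he
      (Set.empty_subset _) h0 hbot
    rw [Set.empty_union] at hB hrk
    rw [Set.union_empty] at hrk
    have hlam : ∀ i, ∃ lam : Fin m → κ, ∑ s, (a (i, s) - 0) • φ (e s : K) =
        ∑ t, lam t • ∑ s, B t s • φ (e s : K) := by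
      intro i
      have h1 := hf i
      rw [hspan, Submodule.mem_span_range_iff_exists_fun] at h1
      obtain ⟨lam, h2⟩ := h1
      refine ⟨lam, ?_⟩
      rw [h2]
      simp_rw [sub_zero]
    choose lam hlam using hlam
    set W : Set L := T ∪ Set.range (fun it : Fin (n + 1) × Fin m =>
          algebraMap κ L (lam it.1 it.2)) with hW
    have hcoord : ∀ i s, algebraMap κ L (a (i, s)) ∈ clF k W := by
      intro i s
      refine coord_mem hli B hB (fun x hx => subset_clF _ (Or.inl hx)) (a := fun s => a (i, s))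
          (lam := lam i) (fun t => ?_) (y := fun _ => 0) (fun s => ?_) (hlam _) s
      · exact subset_clF _ (Or.inr ⟨(i, t), rfl⟩)
      · rw [map_zero]; exact zero_mem _
    have h1 := card_le_eRk ha hcoord
    have h2 : (Mt k L).eRk W ≤ (n : ℕ∞) + ((n + 1) * m : ℕ) := by
      refine ((Mt k L).eRk_union_le_eRk_add_eRk _ _).trans (add_le_add (hrk.trans hKc) ?_)
      refine ((Mt k L).eRk_le_encard _).trans ((encard_range_le _).trans ?_)
      rw [Fintype.card_prod, Fintype.card_fin, Fintype.card_fin]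
    have h3 := h1.trans h2
    norm_cast at h3
    rw [hm] at h3
    nlinarith

end

end Pool.Agent.TGT
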