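import Pool.Agent.Lib.TGT.Count1

/-!
# (T4) the count: the order at the point, extended with the right centre (helper76)
-/

set_option autoImplicit false

namespace Pool.Agent.TGT

open Module Filter
open Pool.Agent.TG (Ov ZDim IsMin IsModel Bir ncl)
open Pool.Agent.TAO (OVal VPos toAdj coe_toAdj toAdj_injective wo wo_le exists_wo wo_X
  exists_weighted isFractionRing_toAdj)

universe u

section

variable {k K N : Type u} [Field k] [Field K] [Field N] [Algebra k K] [Algebra K N] [Algebra k N]
  [IsScalarTower k K N]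

/-- `A ⊇ k` with trivial value on `k`. -/
theorem val_const3 {A : ValuationSubring N} (hA : Ov k A) {c : k} (hc : c ≠ 0) :
    A.valuation (algebraMap k N c) = 1 := by
  have h1 := (A.valuation_le_one_iff _).2 (hA c)
  have h2 := (A.valuation_le_one_iff _).2 (hA c⁻¹)
  rw [map_inv₀, map_inv₀] at h2
  have h3 : A.valuation (algebraMap k N c) ≠ 0 := by simpa using hc
  refine le_antisymm h1 ?_
  rwa [inv_le_one₀ (zero_lt_iff.2 h3)] at h2

theorem val_aeval3 {A : ValuationSubring N} (hA : Ov k A) {n : ℕ} (y : Fin n → K)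
    (hy : ∀ j, A.valuation (algebraMap K N (y j)) < 1) (P : MvPolynomial (Fin n) k) :
    A.valuation (algebraMap K N (MvPolynomial.aeval y P)) ≤ 1 ∧
      A.valuation (algebraMap K N (MvPolynomial.aeval y P) -
        algebraMap k N (MvPolynomial.constantCoeff P)) < 1 := by
  have hc : ∀ c : k, A.valuation (algebraMap k N c) ≤ 1 := fun c =>
    (A.valuation_le_one_iff _).2 (hA c)
  induction P using MvPolynomial.induction_on with
  | C a =>
    rw [MvPolynomial.constantCoeff_C, MvPolynomial.algHom_C,
      ← IsScalarTower.algebraMap_apply k K N, sub_self, map_zero]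
    exact ⟨hc a, zero_lt_one⟩
  | add P Q hP hQ =>
    have e1 : algebraMap K N (MvPolynomial.aeval y (P + Q)) =
        algebraMap K N (MvPolynomial.aeval y P) + algebraMap K N (MvPolynomial.aeval y Q) := by
      rw [map_add, map_add]
    have e2 : algebraMap k N (MvPolynomial.constantCoeff (P + Q)) =
        algebraMap k N (MvPolynomial.constantCoeff P) +
          algebraMap k N (MvPolynomial.constantCoeff Q) := by
      rw [map_add, map_add]
    rw [e1, e2]
    refine ⟨?_, ?_⟩
    · exact Valuation.map_add_le _ hP.1 hQ.1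
    · rw [add_sub_add_comm]
      exact Valuation.map_add_lt _ hP.2 hQ.2
  | mul_X P i hP =>
    have e1 : algebraMap K N (MvPolynomial.aeval y (P * MvPolynomial.X i)) =
        algebraMap K N (MvPolynomial.aeval y P) * algebraMap K N (y i) := by
      rw [map_mul, map_mul, MvPolynomial.aeval_X]
    have e2 : algebraMap k N (MvPolynomial.constantCoeff (P * MvPolynomial.X i)) = 0 := by
      rw [map_mul, MvPolynomial.constantCoeff_X, mul_zero, map_zero]
    rw [e1, e2, sub_zero, map_mul]
    have h1 : A.valuation (algebraMap K N (MvPolynomial.aeval y P)) *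
        A.valuation (algebraMap K N (y i)) < 1 :=
      Pool.Agent.ALL68.mul_lt_one_of_le_of_lt' hP.1 (hy i)
    exact ⟨h1.le, h1⟩

/-- The order at the point `y = 0`, extended to `N` with the centre of `A`. -/
theorem exists_omegaV {n : ℕ} (y : Fin n → K) (hy : AlgebraicIndependent k y)
    (F : IntermediateField k K) (hF : F = IntermediateField.adjoin k (Set.range y))
    [FiniteDimensional F N] [IsGalois F N] (A : ValuationSubring N) (hA : Ov k A)
    (hyA : ∀ j, A.valuation (algebraMap K N (y j)) < 1) (R : Subalgebra k K)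
    (hR : R = Algebra.adjoin k (Set.range y)) :
    ∃ ω : OVal ℝ N, (∀ j, y j ≠ 0 ∧ ω (algebraMap K N (y j)) = 1) ∧
      (∀ h : MvPolynomial (Fin n) k, h ≠ 0 → MvPolynomial.aeval y h ≠ (0 : K) ∧
        ω (algebraMap K N (MvPolynomial.aeval y h)) ≤ h.totalDegree) ∧
      ∀ c : N, IsIntegral R c → ω.Ge 0 c ∧ (A.valuation c < 1 ↔ VPos ω c) := by
  classical
  have hyF : ∀ j, y j ∈ F := fun j => by
    rw [hF]
    exact IntermediateField.subset_adjoin _ _ ⟨j, rfl⟩
  obtain ⟨ω₀, hω₀⟩ := exists_weighted hy F hyF hF (fun _ : Fin n => 1)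
  let O := MvPolynomial (Fin n) k
  let algOF : Algebra O F := (toAdj (k := k) y F hyF).toRingHom.toAlgebra
  let algON : Algebra O N := ((algebraMap F N).comp (algebraMap O F)).toAlgebra
  have htow : IsScalarTower O F N := IsScalarTower.of_algebraMap_eq fun _ => rfl
  have hfr : IsFractionRing O F := isFractionRing_toAdj hy F hyF hF
  have hOF : ∀ P : O, ((algebraMap O F P : F) : K) = MvPolynomial.aeval y P := fun P =>
    coe_toAdj y F hyF P
  have hON : ∀ P : O, algebraMap O N P = algebraMap K N (MvPolynomial.aeval y P) := fun P => by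
    rw [← hOF]
    rfl
  have hne : ∀ P : O, P ≠ 0 → MvPolynomial.aeval y P ≠ (0 : K) := fun P hP h0 =>
    hP (hy (by rw [h0, map_zero]))
  have hwt0 : ∀ P : O, P ≠ 0 → (0 < wo (fun _ : Fin n => 1) P ↔
      MvPolynomial.constantCoeff P = 0) := by
    intro P hP
    constructor
    · intro h2
      by_contra h3
      have h4 : (0 : Fin n →₀ ℕ) ∈ P.support := by
        rw [MvPolynomial.mem_support_iff]
        exact h3
      have h5 := wo_le (fun _ : Fin n => 1) h4
      rw [map_zero] at h5
      omega
    · intro h2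
      obtain ⟨d, hd, hd'⟩ := exists_wo (fun _ : Fin n => 1) hP
      rw [← hd']
      have hd0 : d ≠ 0 := by
        rintro rfl
        rw [MvPolynomial.mem_support_iff] at hd
        exact hd h2
      obtain ⟨i, hi⟩ := Finsupp.ne_iff.1 hd0
      have h4 : d i * 1 ≤ Finsupp.weight (fun _ : Fin n => 1) d := by
        rw [Finsupp.weight_apply, Finsupp.sum_fintype]
        · exact Finset.single_le_sum (f := fun j => d j • 1) (fun _ _ => Nat.zero_le _)
            (Finset.mem_univ i)
        · simp
      have h5 : 0 < d i := Nat.pos_of_ne_zero hi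
      omega
  have hconst : ∀ P : O, P ≠ 0 → (A.valuation (algebraMap O N P) < 1 ↔
      MvPolynomial.constantCoeff P = 0) := by
    intro P hP
    rw [hON]
    have h1 := val_aeval3 hA y hyA P
    constructor
    · intro h2
      by_contra h3
      have h5 : A.valuation (algebraMap K N (MvPolynomial.aeval y P) -
          (algebraMap K N (MvPolynomial.aeval y P) -
          algebraMap k N (MvPolynomial.constantCoeff P))) < 1 :=
        Valuation.map_sub_lt _ h2 h1.2
      rw [sub_sub_cancel, val_const3 hA h3] at h5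
      exact lt_irrefl _ h5
    · intro h2
      have h3 := h1.2
      rwa [h2, map_zero, sub_zero] at h3
  obtain ⟨ω, hω1, hω2⟩ := exists_centreV F O A ω₀
    (fun P => by
      rw [hON, ← A.valuation_le_one_iff]
      exact (val_aeval3 hA y hyA P).1)
    (fun P hP => by
      change 0 ≤ ω₀ (toAdj y F hyF P)
      rw [hω₀ P hP]
      positivity)
    (fun P hP => by
      rw [hconst P hP]
      change _ ↔ 0 < ω₀ (toAdj y F hyF P)
      rw [hω₀ P hP, ← hwt0 P hP]
      exact Nat.cast_pos.symm)
  have hωP : ∀ P : O, P ≠ 0 → ω (algebraMap K N (MvPolynomial.aeval y P)) =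
      wo (fun _ : Fin n => 1) P := by
    intro P hP
    have h1 : toAdj y F hyF P ≠ 0 := by
      intro h0
      apply hne P hP
      rw [← coe_toAdj y F hyF, h0]
      rfl
    have h2 := hω1 (toAdj y F hyF P) h1
    rw [hω₀ P hP] at h2
    rw [← h2, ← coe_toAdj y F hyF P]
    rfl
  refine ⟨ω, ?_, ?_, ?_⟩
  · intro j
    have h1 := hωP (MvPolynomial.X j) (MvPolynomial.X_ne_zero j)
    rw [MvPolynomial.aeval_X, wo_X] at h1
    have h2 := hne (MvPolynomial.X j) (MvPolynomial.X_ne_zero j)
    rw [MvPolynomial.aeval_X] at h2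
    refine ⟨h2, ?_⟩
    rw [h1, Nat.cast_one]
  · intro h hh
    refine ⟨hne h hh, ?_⟩
    rw [hωP h hh]
    obtain ⟨d, hd, hd'⟩ := exists_wo (fun _ : Fin n => 1) hh
    have h1 : Finsupp.weight (fun _ : Fin n => 1) d = d.sum fun _ e => e := by
      rw [Finsupp.weight_apply]
      simp
    have h2 := MvPolynomial.le_totalDegree hd
    rw [← hd', h1]
    exact_mod_cast h2
  · intro c hc
    apply hω2
    -- `R` is the image of `O`
    have hRO : ∀ r : R, ∃ P : O, MvPolynomial.aeval y P = (r : K) := by
      intro r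
      have h1 : ∀ x ∈ R, ∃ P : O, MvPolynomial.aeval y P = x := by
        intro x hx
        rw [hR, Algebra.adjoin_range_eq_range_aeval] at hx
        exact hx
      exact h1 r r.2
    have hOR : ∀ P : O, MvPolynomial.aeval y P ∈ R := by
      intro P
      rw [hR, Algebra.adjoin_range_eq_range_aeval]
      exact ⟨P, rfl⟩
    let φ : O →+* R := ((MvPolynomial.aeval y : O →ₐ[k] K) : O →+* K).codRestrict R.toSubring hOR
    have hφ : ∀ P : O, ((φ P : R) : K) = MvPolynomial.aeval y P := fun P => rfl
    obtain ⟨p, hp, hpc⟩ := hc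
    have hlift : p ∈ Polynomial.lifts φ := by
      rw [Polynomial.lifts_iff_coeff_lifts]
      intro i
      obtain ⟨P, hP⟩ := hRO (p.coeff i)
      exact ⟨P, Subtype.ext (by rw [hφ, hP])⟩
    obtain ⟨p', hp', -, hp'm⟩ := Polynomial.lifts_and_degree_eq_and_monic hlift hp
    refine ⟨p', hp'm, ?_⟩
    rw [← hp', Polynomial.eval₂_map] at hpc
    rw [← hpc]
    congr 1
    apply RingHom.ext
    intro P
    rw [hON]
    rfl

end

end Pool.Agent.TGT
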