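import Pool.Agent.Lib.TGT.Count2
import Pool.Agent.Lib.TGT.Count3
import Pool.Agent.Lib.ALLO.J4e

/-!
# (T4) the count (helper76)
-/

set_option autoImplicit false

namespace Pool.Agent.TGT

open Module Filter MvPolynomial
open Pool.Agent.TG (Ov ZDim IsMin IsModel Bir ncl)
open Pool.Agent.TAO (OVal VPos rcomap rcomap_apply)

universe u

section

variable {k K N : Type u} [Field k] [Field K] [Field N] [Algebra k K] [Algebra K N] [Algebra k N]
  [IsScalarTower k K N]

omit [Algebra k N] [IsScalarTower k K N] [Algebra k K] in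
/-- The value of an element of `K`. -/
theorem comap_val_lt (A : ValuationSubring N) (x : K) :
    (A.comap (algebraMap K N)).valuation x < 1 ↔ A.valuation (algebraMap K N x) < 1 := by
  by_cases hx : x = 0
  · subst hx
    rw [map_zero, map_zero, map_zero]
    exact ⟨fun _ => zero_lt_one, fun _ => zero_lt_one⟩
  have key : ∀ {L : Type u} [Field L] (V : ValuationSubring L) {z : L}, z ≠ 0 →
      (V.valuation z < 1 ↔ z⁻¹ ∉ V) := by
    intro L _ V z hz
    rw [← V.valuation_le_one_iff, map_inv₀, not_le]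
    have h2 : V.valuation z ≠ 0 := by simpa using hz
    rw [one_lt_inv₀ (zero_lt_iff.mpr h2)]
  rw [key _ hx, key _ (by simpa using hx : algebraMap K N x ≠ 0), ValuationSubring.mem_comap,
    map_inv₀]

/-- `aeval (u / f) h * f ^ m ∈ P ^ m` for `h` of degree at most `m`. -/
theorem aeval_mul_pow_mem {P : Submodule k K} {f : K} (hf : f ∈ P) (hf0 : f ≠ 0) {n : ℕ}
    (u : Fin n → K) (hu : ∀ j, u j ∈ P) {m : ℕ} (h : MvPolynomial (Fin n) k)
    (hh : h.totalDegree ≤ m) : aeval (fun j => u j / f) h * f ^ m ∈ P ^ m := by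
  rw [aeval_def, eval₂_eq, Finset.sum_mul]
  refine Submodule.sum_mem _ fun d hd => ?_
  rw [mul_assoc, ← Algebra.smul_def]
  refine Submodule.smul_mem _ _ ?_
  have hdm : ∑ i, d i ≤ m := by
    have h1 := le_totalDegree hd
    rw [Finsupp.sum_fintype _ _ (fun _ => rfl)] at h1
    exact h1.trans hh
  have h1 : (∏ i ∈ d.support, (u i / f) ^ d i) = (∏ i, u i ^ d i) / f ^ (∑ i, d i) := by
    rw [← Finset.prod_pow_eq_pow_sum, ← Finset.prod_div_distrib]
    rw [Finset.prod_subset (Finset.subset_univ d.support)]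
    · exact Finset.prod_congr rfl fun i _ => div_pow _ _ _
    · intro i _ hi
      rw [Finsupp.notMem_support_iff.1 hi, pow_zero]
  have h2 : f ^ m = f ^ (∑ i, d i) * f ^ (m - ∑ i, d i) := by
    rw [← pow_add, Nat.add_sub_cancel' hdm]
  rw [h1, h2, ← mul_assoc, div_mul_cancel₀ _ (pow_ne_zero _ hf0)]
  have h3 : P ^ m = P ^ (∑ i, d i) * P ^ (m - ∑ i, d i) := by
    rw [← pow_add, Nat.add_sub_cancel' hdm]
  rw [h3]
  refine Submodule.mul_mem_mul ?_ (Submodule.pow_mem_pow _ hf _)
  have h4 : ∀ s : Finset (Fin n), ∏ i ∈ s, u i ^ d i ∈ P ^ (∑ i ∈ s, d i) := by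
    intro s
    induction s using Finset.induction_on with
    | empty =>
      rw [Finset.prod_empty, Finset.sum_empty, pow_zero]
      exact Submodule.mem_one.2 ⟨1, map_one _⟩
    | insert i s hi ih =>
      rw [Finset.prod_insert hi, Finset.sum_insert hi, pow_add]
      exact Submodule.mul_mem_mul (Submodule.pow_mem_pow _ (hu i) _) ih
  exact h4 _

omit [Algebra k N] [IsScalarTower k K N] in
/-- The count, with the valuation. -/
theorem count_aux {P P' : Submodule k K} [FiniteDimensional k P] (hP' : P' ≤ P) {f : K}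
    (hf : f ∈ P) (hf0 : f ≠ 0) {n : ℕ} (u : Fin n → K) (hu : ∀ j, u j ∈ P)
    (ω : OVal ℝ N) {q : ℕ} (τ : Fin q → (K →+* N)) (hk : ∀ s, ∀ c : k, ω.Ge 0 (τ s (algebraMap k K c)))
    (hτu : ∀ s, ∀ h : MvPolynomial (Fin n) k, τ s (aeval (fun j => u j / f) h) =
      algebraMap K N (aeval (fun j => u j / f) h))
    (hω : ∀ h : MvPolynomial (Fin n) k, h ≠ 0 → aeval (fun j => u j / f) h ≠ (0 : K) ∧
        ω (algebraMap K N (aeval (fun j => u j / f) h)) ≤ h.totalDegree)
    (hτP : ∀ s, ∀ g ∈ P', ω.Ge 1 (τ s (g / f)))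
    {c₀ : ℕ} {θ : Fin q → K} (hθ : ∀ j, θ j * f ^ c₀ ∈ P ^ c₀)
    (hM : IsUnit (Matrix.of fun s j => τ s (θ j))) :
    ∃ c : ℕ, ∀ t : ℕ, c < t →
          finrank k (P' ^ t : Submodule k K) + q * (t - c - 1 + n).choose n ≤
            finrank k (P ^ t : Submodule k K) := by
  classical
  have hPt : ∀ t : ℕ, FiniteDimensional k (P ^ t : Submodule k K) := fun t =>
    Module.Finite.iff_fg.2 (Submodule.FG.pow (Module.Finite.iff_fg.1 inferInstance) t)
  set M : Matrix (Fin q) (Fin q) N := Matrix.of fun s j => τ s (θ j) with hMdef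
  obtain ⟨B, hB⟩ : ∃ B : Matrix (Fin q) (Fin q) N, B * M = 1 := by
    obtain ⟨U, hU⟩ := hM
    exact ⟨(U⁻¹ : (Matrix (Fin q) (Fin q) N)ˣ), by rw [← hU]; exact Units.inv_mul U⟩
  obtain ⟨c₁, hc₁⟩ : ∃ c₁ : ℕ, ∀ j s, ω.Ge (-(c₁ : ℝ)) (B j s) := by
    obtain ⟨c₁, hc₁⟩ := exists_nat_ge (∑ j, ∑ s, |ω (B j s)|)
    refine ⟨c₁, fun j s _ => ?_⟩
    have h1 : |ω (B j s)| ≤ ∑ j, ∑ s, |ω (B j s)| := by
      have h2 : |ω (B j s)| ≤ ∑ s, |ω (B j s)| :=
        Finset.single_le_sum (f := fun s => |ω (B j s)|) (fun _ _ => abs_nonneg _)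
          (Finset.mem_univ s)
      exact h2.trans (Finset.single_le_sum (f := fun j => ∑ s, |ω (B j s)|)
        (fun _ _ => Finset.sum_nonneg fun _ _ => abs_nonneg _) (Finset.mem_univ j))
    have h3 := neg_abs_le (ω (B j s))
    linarith
  refine ⟨max c₀ c₁, fun t ht => ?_⟩
  set c := max c₀ c₁ with hc
  have hc0 : c₀ ≤ c := le_max_left _ _
  have hc1 : c₁ ≤ c := le_max_right _ _
  -- the powers of `P'`
  have hpow : ∀ t : ℕ, ∀ g ∈ P' ^ t, ∀ s, ω.Ge t (τ s (g / f ^ t)) := by
    intro t
    induction t with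
    | zero =>
      intro g hg s
      rw [pow_zero] at hg
      obtain ⟨a, rfl⟩ := Submodule.mem_one.1 hg
      rw [pow_zero, div_one, Nat.cast_zero]
      exact hk s a
    | succ t ih =>
      intro g hg s
      rw [pow_succ] at hg
      induction hg using Submodule.mul_induction_on' with
      | mem_mul_mem a ha b hb =>
        have h1 : a * b / f ^ (t + 1) = (a / f ^ t) * (b / f) := by
          rw [pow_succ, div_mul_div_comm]
        rw [h1, map_mul, Nat.cast_succ]
        exact OVal.Ge.mul (v := ω) (ih a ha s) (hτP s b hb)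
      | add a _ b _ ha hb =>
        rw [add_div, map_add]
        exact OVal.Ge.add (v := ω) ha hb
  -- the linear map
  let D := restrictTotalDegree (Fin n) k (t - c - 1)
  let Φ : (Fin q → D) →ₗ[k] K :=
    { toFun := fun h => ∑ j, θ j * aeval (fun j => u j / f) (h j : MvPolynomial (Fin n) k) * f ^ t
      map_add' := fun h h' => by
        rw [← Finset.sum_add_distrib]
        refine Finset.sum_congr rfl fun j _ => ?_
        rw [Pi.add_apply, Submodule.coe_add, map_add]
        ring
      map_smul' := fun a h => by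
        rw [RingHom.id_apply, Finset.smul_sum]
        refine Finset.sum_congr rfl fun j _ => ?_
        rw [Pi.smul_apply, Submodule.coe_smul, map_smul, Algebra.smul_def, Algebra.smul_def]
        ring }
  have hΦ : ∀ h, Φ h = ∑ j, θ j * aeval (fun j => u j / f) (h j : MvPolynomial (Fin n) k) * f ^ t :=
    fun _ => rfl
  have hD : ∀ h : D, (h : MvPolynomial (Fin n) k).totalDegree ≤ t - c - 1 := fun h => by
    have h1 := h.2
    rw [mem_restrictTotalDegree] at h1
    exact h1
  have hΦP : ∀ h, Φ h ∈ P ^ t := by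
    intro h
    rw [hΦ]
    refine Submodule.sum_mem _ fun j _ => ?_
    have h1 : f ^ t = f ^ c₀ * f ^ (t - c - 1) * f ^ (c + 1 - c₀) := by
      rw [← pow_add, ← pow_add]
      congr 1
      omega
    have h2 : P ^ t = P ^ c₀ * P ^ (t - c - 1) * P ^ (c + 1 - c₀) := by
      rw [← pow_add, ← pow_add]
      congr 1
      omega
    have h3 : θ j * aeval (fun j => u j / f) (h j : MvPolynomial (Fin n) k) * f ^ t =
        (θ j * f ^ c₀) * (aeval (fun j => u j / f) (h j : MvPolynomial (Fin n) k) *
          f ^ (t - c - 1)) * f ^ (c + 1 - c₀) := by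
      rw [h1]
      ring
    rw [h3, h2]
    exact Submodule.mul_mem_mul (Submodule.mul_mem_mul (hθ j)
      (aeval_mul_pow_mem hf hf0 u hu _ (hD (h j)))) (Submodule.pow_mem_pow _ hf _)
  have hker : ∀ h, Φ h ∈ P' ^ t → h = 0 := by
    intro h hh
    have hval : ∀ s, ω.Ge t (∑ j, M s j *
        algebraMap K N (aeval (fun j => u j / f) (h j : MvPolynomial (Fin n) k))) := by
      intro s
      have h1 := hpow t _ hh s
      have h2 : Φ h / f ^ t = ∑ j, θ j * aeval (fun j => u j / f) (h j : MvPolynomial (Fin n) k) := by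
        rw [hΦ, Finset.sum_div]
        refine Finset.sum_congr rfl fun j _ => ?_
        rw [mul_div_assoc, div_self (pow_ne_zero _ hf0), mul_one]
      rw [h2, map_sum] at h1
      have h3 : ∑ j, τ s (θ j * aeval (fun j => u j / f) (h j : MvPolynomial (Fin n) k)) =
          ∑ j, M s j * algebraMap K N (aeval (fun j => u j / f) (h j : MvPolynomial (Fin n) k)) := by
        refine Finset.sum_congr rfl fun j _ => ?_
        rw [map_mul, hτu]
        rfl
      rw [h3] at h1
      exact h1
    have hval2 : ∀ j, ω.Ge ((t : ℝ) - c₁)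
        (algebraMap K N (aeval (fun j => u j / f) (h j : MvPolynomial (Fin n) k))) := by
      intro j
      set x : Fin q → N := fun j =>
        algebraMap K N (aeval (fun j => u j / f) (h j : MvPolynomial (Fin n) k)) with hx
      have h1 : x = B.mulVec (M.mulVec x) := by
        rw [Matrix.mulVec_mulVec, hB, Matrix.one_mulVec]
      change ω.Ge ((t : ℝ) - c₁) (x j)
      rw [h1]
      change ω.Ge ((t : ℝ) - c₁) (∑ s, B j s * (M.mulVec x) s)
      refine OVal.Ge.sum (v := ω) _ _ fun s _ => ?_
      have h2 := OVal.Ge.mul (v := ω) (hc₁ j s) (hval s)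
      have h3 : -(c₁ : ℝ) + t = t - c₁ := by ring
      rw [h3] at h2
      exact h2
    funext j
    apply Subtype.ext
    by_contra hne
    have h1 := hω _ hne
    have h2 := hval2 j ((map_ne_zero _).2 h1.1)
    have h3 : ((h j : MvPolynomial (Fin n) k).totalDegree : ℝ) ≤ ((t - c - 1 : ℕ) : ℝ) := by
      exact_mod_cast hD (h j)
    have h4 : ((t - c - 1 : ℕ) : ℝ) = (t : ℝ) - c - 1 := by
      rw [Nat.cast_sub (by omega), Nat.cast_sub (by omega), Nat.cast_one]
    have h5 : (c₁ : ℝ) ≤ c := by exact_mod_cast hc1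
    have h6 := h1.2
    linarith
  have hinj : Function.Injective Φ := by
    rw [← LinearMap.ker_eq_bot, LinearMap.ker_eq_bot']
    intro h hh
    exact hker h (by rw [hh]; exact Submodule.zero_mem _)
  have hfd : FiniteDimensional k (P' ^ t : Submodule k K) :=
    Submodule.finiteDimensional_of_le (pow_le_pow_left' hP' t)
  have hdisj : P' ^ t ⊓ LinearMap.range Φ = ⊥ := by
    rw [eq_bot_iff]
    rintro _ ⟨hx1, ⟨h, rfl⟩⟩
    rw [hker h hx1, map_zero]
    exact Submodule.zero_mem _
  have hsup : P' ^ t ⊔ LinearMap.range Φ ≤ P ^ t := by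
    refine sup_le (pow_le_pow_left' hP' t) ?_
    rintro _ ⟨h, rfl⟩
    exact hΦP h
  have hfr : FiniteDimensional k (LinearMap.range Φ) :=
    Submodule.finiteDimensional_of_le (le_sup_right.trans hsup)
  have hDfd : FiniteDimensional k (Fin q → D) :=
    FiniteDimensional.of_injective (LinearMap.rangeRestrict Φ)
      (fun a b hab => hinj (congrArg Subtype.val hab))
  have h1 := Submodule.finrank_sup_add_finrank_inf_eq (P' ^ t) (LinearMap.range Φ)
  rw [hdisj, finrank_bot, add_zero, LinearMap.finrank_range_of_inj hinj] at h1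
  have h2 := Submodule.finrank_mono hsup
  rw [h1] at h2
  refine le_trans (Nat.add_le_add_left ?_ _) h2
  rcases Nat.eq_zero_or_pos q with hq | hq
  · subst hq
    simp
  have hD1 : FiniteDimensional k D := by
    have h3 : Function.Injective (LinearMap.single k (fun _ : Fin q => D) ⟨0, hq⟩) :=
      Pi.single_injective (M := fun _ : Fin q => D) ⟨0, hq⟩
    exact FiniteDimensional.of_injective _ h3
  rw [Module.finrank_pi_fintype, Finset.sum_const, Finset.card_univ, Fintype.card_fin, smul_eq_mul]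
  refine Nat.mul_le_mul_left _ ?_
  have h3 := Pool.Agent.ALLO.ND_le_finrank (k := k) n (t - c) (by omega)
  rw [Pool.Agent.ALLO.ND, if_neg (by omega)] at h3
  exact h3

end

/-- **(T4)** the count. -/
theorem count (k K N : Type u) [Field k] [Field K] [Field N] [Algebra k K] [Algebra K N]
    [Algebra k N] [IsScalarTower k K N] (n : ℕ) : CountStmt k K N n := by
  classical
  intro P P' hPfd hBir f u i₀ F hF hFN hGal htr A hA hV hmin hfP hbpf hP'low hu0 huP' huf hcen
    q σ hstab hdiff
  have hf0 : f i₀ ≠ 0 := hmin.ne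
  have hfi₀ : f i₀ ∈ P := hmin.mem
  have hP'P : P' ≤ P := fun x hx => (hP'low hx).1
  set R := Algebra.adjoin k (Set.range fun i => f i / f i₀) with hR
  let y : Fin n → K := fun j => u (i₀.succAbove j) / f i₀
  -- `u j / f i₀ = f j / f i₀ - c j`
  choose c hc using huf
  have huc : ∀ i, u i / f i₀ = f i / f i₀ - algebraMap k K (c i) := by
    intro i
    rw [hc i, sub_div, Algebra.smul_def, mul_div_assoc, div_self hf0, mul_one]
  have hrange1 : ∀ (S : Subalgebra k K), (∀ j, y j ∈ S) → ∀ i, f i / f i₀ ∈ S := by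
    intro S hS i
    rcases eq_or_ne i i₀ with h | h
    · rw [h, div_self hf0]
      exact S.one_mem
    · obtain ⟨j, rfl⟩ := Fin.exists_succAbove_eq h
      have h1 : f (i₀.succAbove j) / f i₀ = y j + algebraMap k K (c (i₀.succAbove j)) := by
        change _ = u (i₀.succAbove j) / f i₀ + _
        rw [huc, sub_add_cancel]
      rw [h1]
      exact S.add_mem (hS j) (S.algebraMap_mem _)
  have hrange2 : ∀ (S : Subalgebra k K), (∀ i, f i / f i₀ ∈ S) → ∀ j, y j ∈ S := by
    intro S hS j
    change u (i₀.succAbove j) / f i₀ ∈ S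
    rw [huc]
    exact S.sub_mem (hS _) (S.algebraMap_mem _)
  have hRy : R = Algebra.adjoin k (Set.range y) := by
    apply le_antisymm
    · rw [hR, Algebra.adjoin_le_iff]
      rintro _ ⟨i, rfl⟩
      exact hrange1 (Algebra.adjoin k (Set.range y)) (fun j => Algebra.subset_adjoin ⟨j, rfl⟩) i
    · rw [Algebra.adjoin_le_iff]
      rintro _ ⟨j, rfl⟩
      exact hrange2 R (fun i => Algebra.subset_adjoin ⟨i, rfl⟩) j
  have hFy : F = IntermediateField.adjoin k (Set.range y) := by
    rw [hF]
    apply le_antisymm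
    · rw [IntermediateField.adjoin_le_iff]
      rintro _ ⟨i, rfl⟩
      exact hrange1 (IntermediateField.adjoin k (Set.range y)).toSubalgebra
        (fun j => IntermediateField.subset_adjoin _ _ ⟨j, rfl⟩) i
    · rw [IntermediateField.adjoin_le_iff]
      rintro _ ⟨j, rfl⟩
      exact hrange2 (IntermediateField.adjoin k (Set.range fun i => f i / f i₀)).toSubalgebra
        (fun i => IntermediateField.subset_adjoin _ _ ⟨i, rfl⟩) j
  have hyF : ∀ j, y j ∈ F := fun j => by
    rw [hFy]
    exact IntermediateField.subset_adjoin _ _ ⟨j, rfl⟩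
  -- algebraic independence
  have hFK : FiniteDimensional F K := FiniteDimensional.left F K N
  have hind : AlgebraicIndependent k y := by
    have h1 : Algebra.IsAlgebraic (Algebra.adjoin k (Set.range y)) K := by
      constructor
      intro x
      rw [← IntermediateField.isAlgebraic_adjoin_iff, ← hFy]
      exact Algebra.IsAlgebraic.isAlgebraic x
    refine (Algebra.IsAlgebraic.isTranscendenceBasis_of_lift_le_trdeg_of_finite k y ?_).1
    rw [htr]
    simp
  -- the values of `y`
  have hyA : ∀ j, A.valuation (algebraMap K N (y j)) < 1 := fun j => by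
    rw [← comap_val_lt]
    exact (hP'low (huP' _)).2 _ hmin
  obtain ⟨ω, hω1, hω2, hω3⟩ := exists_omegaV y hind F hFy A hA.ov hyA R hRy
  -- integrality of `g / f i₀`
  have hint : ∀ g ∈ P, IsIntegral R (algebraMap K N (g / f i₀)) := by
    intro g hg
    have h1 : g / f i₀ ∈ ncl R := by
      refine Pool.Agent.TGE58.mem_ncl_of_forall R fun W hW => ?_
      obtain ⟨i, hi⟩ := hbpf W fun a => hW _ (R.algebraMap_mem a)
      have h2 : g / f i₀ = (g / f i) * (f i / f i₀) := by
        rw [div_mul_div_cancel₀ hi.ne]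
      rw [h2]
      exact W.mul_mem _ _ (hi.div g hg) (hW _ (by rw [hR]; exact Algebra.subset_adjoin ⟨i, rfl⟩))
    have h2 : IsIntegral R (g / f i₀) := h1
    exact h2.algebraMap
  let τ : Fin q → (K →+* N) := fun s => ((σ s : N ≃ₐ[F] N) : N →+* N).comp (algebraMap K N)
  have hτ : ∀ s x, τ s x = σ s (algebraMap K N x) := fun _ _ => rfl
  have hτF : ∀ s, ∀ x ∈ F, τ s x = algebraMap K N x := by
    intro s x hx
    have h1 : algebraMap K N x = algebraMap F N ⟨x, hx⟩ := rfl
    rw [hτ, h1, AlgEquiv.commutes]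
  have hτinj : Function.Injective τ := by
    intro s s' hss
    by_contra hne
    obtain ⟨x, hx⟩ := hdiff s s' hne
    exact hx (by rw [← hτ, ← hτ, hss])
  have hkF : ∀ a : k, algebraMap k K a ∈ F := fun a => F.algebraMap_mem a
  have hσint : ∀ s, ∀ b : N, IsIntegral R b → IsIntegral R (σ s b) := by
    intro s b hb
    obtain ⟨p, hp, hpb⟩ := hb
    refine ⟨p, hp, ?_⟩
    have hRF : ∀ r ∈ R, r ∈ F := by
      intro r hr
      have h1 : R ≤ F.toSubalgebra := by
        rw [hRy, Algebra.adjoin_le_iff]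
        rintro _ ⟨j, rfl⟩
        exact hyF j
      exact h1 hr
    have h1 : ((σ s : N ≃ₐ[F] N) : N →+* N) (Polynomial.eval₂ (algebraMap R N) b p) = 0 := by
      rw [hpb, map_zero]
    rw [ Polynomial.hom_eval₂ p (algebraMap R N) ((σ s : N ≃ₐ[F] N) : N →+* N) b] at h1
    have h2 : (((σ s : N ≃ₐ[F] N) : N →+* N).comp (algebraMap R N)) = algebraMap R N := by
      apply RingHom.ext
      intro r
      exact hτF s r (hRF r r.2)
    rw [h2] at h1
    exact h1
  -- the value of `P'`
  have hτP : ∀ s, ∀ g ∈ P', ω.Ge 1 (τ s (g / f i₀)) := by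
    intro s g hg hne
    let v : OVal ℝ K := rcomap (τ s) ω
    have hv : ∀ x, v x = ω (τ s x) := fun _ => rfl
    have hg0 : g ≠ 0 := by
      rintro rfl
      rw [zero_div, map_zero] at hne
      exact hne rfl
    have hcenW : Cen hV.ov P (f i₀) (ringOf v) := by
      refine ⟨?_, ?_⟩
      · intro a
        rw [mem_ringOf]
        intro ha
        rw [hv, hτF s _ (hkF a)]
        have h1 : IsIntegral R (algebraMap K N (algebraMap k K a)) := by
          have h2 : algebraMap K N (algebraMap k K a) = algebraMap R N (algebraMap k R a) := rfl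
          rw [h2]
          exact isIntegral_algebraMap
        exact (hω3 _ h1).1 (by simpa using ha)
      · intro x hx
        rw [ringOf_val_lt]
        intro hx0
        rw [hv]
        have h1 := hint x hx.1
        have h2 : A.valuation (algebraMap K N (x / f i₀)) < 1 := by
          rw [← comap_val_lt]
          exact hx.2 _ hmin
        have h3 := (hstab s _ h1).1 h2
        have h4 := (hω3 _ (hσint s _ h1)).2.1 h3
        exact h4 (by simpa using hx0)
    obtain ⟨i, hi⟩ := hcen _ hcenW g hg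
    obtain ⟨hui, hle⟩ := ringOf_val_le hg0 hi
    have hii : i ≠ i₀ := by
      rintro rfl
      exact hui hu0
    obtain ⟨j, rfl⟩ := Fin.exists_succAbove_eq hii
    have h1 : ω (τ s (y j)) = 1 := by
      rw [hτF s _ (hyF j)]
      exact (hω1 j).2
    have h2 : v (u (i₀.succAbove j) / f i₀) = 1 := h1
    rw [v.map_div hui hf0] at h2
    rw [← hv, v.map_div hg0 hf0]
    linarith
  obtain ⟨θ, c₀, hθ, hM⟩ := exists_theta hfi₀ hf0 hBir τ hτinj
  refine count_aux hP'P hfi₀ hf0 (fun j => u (i₀.succAbove j)) (fun j => hP'P (huP' _)) ω τ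
    ?_ ?_ ?_ hτP hθ hM
  · intro s a ha
    rw [hτF s _ (hkF a)] at ha ⊢
    have h1 : IsIntegral R (algebraMap K N (algebraMap k K a)) := by
      have h2 : algebraMap K N (algebraMap k K a) = algebraMap R N (algebraMap k R a) := rfl
      rw [h2]
      exact isIntegral_algebraMap
    exact (hω3 _ h1).1 ha
  · intro s h
    refine hτF s _ ?_
    have h1 : aeval y h ∈ Algebra.adjoin k (Set.range y) := by
      rw [Algebra.adjoin_range_eq_range_aeval]
      exact ⟨h, rfl⟩
    have h2 : Algebra.adjoin k (Set.range y) ≤ F.toSubalgebra := by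
      rw [Algebra.adjoin_le_iff]
      rintro _ ⟨j, rfl⟩
      exact hyF j
    exact h2 h1
  · intro h hh
    exact hω2 h hh

end Pool.Agent.TGT
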