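import Pool.Agent.Lib.TGT.Defs
import Pool.Agent.Lib.TAO.Centre
import Pool.Agent.Lib.TGE_h58.Gauss

/-!
# (T4) the count: valuations (helper76)
-/

set_option autoImplicit false

namespace Pool.Agent.TGT

open Module Filter
open Pool.Agent.TG (Ov ZDim IsMin IsModel Bir ncl)
open Pool.Agent.TAO (OVal VPos toAdj coe_toAdj toAdj_injective wo exists_weighted cen cen_isPrime
  ge_of_isIntegral exists_extVal isFractionRing_toAdj rcomap rcomap_apply)

universe u

section RingOf

variable {K : Type*} [Field K]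

/-- The valuation ring of a real valuation. -/
def ringOf (v : OVal ℝ K) : ValuationSubring K where
  carrier := {x | v.Ge 0 x}
  mul_mem' := fun {a b} ha hb => by
    have h := OVal.Ge.mul (v := v) ha hb
    rwa [add_zero] at h
  one_mem' := fun _ => by rw [v.map_one]
  add_mem' := fun {a b} ha hb => OVal.Ge.add (v := v) ha hb
  zero_mem' := OVal.Ge.zero (v := v)
  neg_mem' := fun {a} ha => OVal.Ge.neg (v := v) ha
  mem_or_inv_mem' := fun x => by
    by_cases hx : x = 0
    · left
      subst hx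
      exact OVal.Ge.zero (v := v)
    · rcases le_total 0 (v x) with h | h
      · left
        exact fun _ => h
      · right
        intro _
        rw [v.map_inv hx]
        linarith

theorem mem_ringOf {v : OVal ℝ K} {x : K} : x ∈ ringOf v ↔ v.Ge 0 x := Iff.rfl

theorem ringOf_val_lt {v : OVal ℝ K} {x : K} : (ringOf v).valuation x < 1 ↔ VPos v x := by
  by_cases hx : x = 0
  · subst hx
    rw [map_zero]
    exact ⟨fun _ => VPos.zero, fun _ => zero_lt_one⟩
  have h1 : (ringOf v).valuation x < 1 ↔ ¬ (x⁻¹ ∈ ringOf v) := by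
    rw [← (ringOf v).valuation_le_one_iff, map_inv₀, not_le]
    have h2 : (ringOf v).valuation x ≠ 0 := by simpa using hx
    rw [one_lt_inv₀ (zero_lt_iff.mpr h2)]
  rw [h1, mem_ringOf]
  unfold OVal.Ge VPos
  push Not
  rw [v.map_inv hx]
  constructor
  · rintro ⟨_, h⟩ _
    linarith
  · intro h
    exact ⟨inv_ne_zero hx, by linarith [h hx]⟩

theorem ringOf_val_le {v : OVal ℝ K} {x y : K} (hx : x ≠ 0)
    (h : (ringOf v).valuation x ≤ (ringOf v).valuation y) : y ≠ 0 ∧ v y ≤ v x := by
  have hy : y ≠ 0 := by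
    rintro rfl
    rw [map_zero, nonpos_iff_eq_zero, map_eq_zero] at h
    exact hx h
  refine ⟨hy, ?_⟩
  have h1 : x / y ∈ ringOf v := by
    rw [← (ringOf v).valuation_le_one_iff, map_div₀]
    exact div_le_one_of_le₀ h zero_le
  have h2 := h1 (div_ne_zero hx hy)
  rw [v.map_div hx hy] at h2
  linarith

end RingOf

section Centre

variable {k K N : Type u} [Field k] [Field K] [Field N] [Algebra k K] [Algebra K N] [Algebra k N]
  [IsScalarTower k K N]

omit [Algebra k N] [IsScalarTower k K N] in
open scoped Pointwise in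
/-- A real valuation of `N` over a given one of `F`, with the same centre as `A` on the integral
closure of `O`. -/
theorem exists_centreV (F : IntermediateField k K) [FiniteDimensional F N] [IsGalois F N]
    (O : Type u) [CommRing O] [IsDomain O] [IsIntegrallyClosed O] [Algebra O F]
    [IsFractionRing O F] [Algebra O N] [IsScalarTower O F N] (A : ValuationSubring N)
    (ω₀ : OVal ℝ F) (hA : ∀ a : O, algebraMap O N a ∈ A)
    (h0 : ∀ a : O, a ≠ 0 → 0 ≤ ω₀ (algebraMap O F a))
    (hvω : ∀ a : O, a ≠ 0 → (A.valuation (algebraMap O N a) < 1 ↔ 0 < ω₀ (algebraMap O F a))) :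
    ∃ ω : OVal ℝ N, (∀ g : F, g ≠ 0 → ω (algebraMap F N g) = ω₀ g) ∧
      ∀ c : N, IsIntegral O c → ω.Ge 0 c ∧ (A.valuation c < 1 ↔ VPos ω c) := by
  classical
  obtain ⟨w1, hw1⟩ := exists_extVal F N ω₀
  have hinj : ∀ a : O, a ≠ 0 → algebraMap O F a ≠ 0 := fun a ha h =>
    ha ((IsFractionRing.injective O F) (by rw [h, map_zero]))
  have hON : ∀ a : O, algebraMap O N a = algebraMap F N (algebraMap O F a) := fun a =>
    IsScalarTower.algebraMap_apply O F N a
  have hwN : ∀ a : O, w1.Ge 0 (algebraMap O N a) := by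
    intro a ha
    have h1 : a ≠ 0 := by rintro rfl; simp at ha
    rw [hON, hw1 _ (hinj a h1)]
    exact h0 a h1
  let C := integralClosure O N
  have hCA : ∀ c : C, (c : N) ∈ A := by
    intro c
    obtain ⟨p, hp, hpc⟩ := c.2
    have h1 : IsIntegral A (c : N) := by
      refine ⟨p.map ((algebraMap O N).codRestrict A.toSubring hA), hp.map _, ?_⟩
      rw [Polynomial.eval₂_map]
      exact hpc
    obtain ⟨a, ha⟩ := IsIntegrallyClosed.isIntegral_iff.1 h1
    rw [← ha]
    exact a.2
  let IA : Ideal C :=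
    { carrier := {c | A.valuation (c : N) < 1}
      zero_mem' := by
        change A.valuation (0 : N) < 1
        rw [map_zero]
        exact zero_lt_one
      add_mem' := fun {a b} ha hb => by
        change A.valuation ((a : N) + (b : N)) < 1
        exact Valuation.map_add_lt _ ha hb
      smul_mem' := fun a b hb => by
        change A.valuation ((a : N) * (b : N)) < 1
        rw [map_mul]
        exact Pool.Agent.ALL68.mul_lt_one_of_le_of_lt' ((A.valuation_le_one_iff _).2 (hCA a)) hb }
  have hIA : ∀ c : C, c ∈ IA ↔ A.valuation (c : N) < 1 := fun c => Iff.rfl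
  have hP1 : IA.IsPrime := by
    refine ⟨?_, ?_⟩
    · intro h
      have h1 : (1 : C) ∈ IA := by rw [h]; trivial
      have h2 : A.valuation (1 : N) < 1 := h1
      rw [map_one] at h2
      exact lt_irrefl _ h2
    · intro a b hab
      by_contra hcon
      push Not at hcon
      obtain ⟨ha, hb⟩ := hcon
      rw [hIA, not_lt] at ha hb
      have h1 : A.valuation ((a : N) * (b : N)) < 1 := hab
      rw [map_mul] at h1
      exact absurd (one_le_mul ha hb) (not_le.2 h1)
  have hP2 := cen_isPrime w1 hwN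
  have hfr : IsFractionRing C N := integralClosure.isFractionRing_of_finite_extension F N
  let _ : MulSemiringAction (N ≃ₐ[F] N) C := IsIntegralClosure.MulSemiringAction O F N C
  have hinv : Algebra.IsInvariant O C (N ≃ₐ[F] N) := Algebra.isInvariant_of_isGalois O F N C
  have hsmul : ∀ (σ : N ≃ₐ[F] N) (c : C), ((σ • c : C) : N) = σ (c : N) := by
    intro σ c
    exact algebraMap_galRestrict_apply O σ c
  have hcomm : SMulCommClass (N ≃ₐ[F] N) O C := by
    refine ⟨fun σ a c => ?_⟩
    apply Subtype.ext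
    rw [hsmul]
    change σ (a • (c : N)) = a • ((σ • c : C) : N)
    rw [hsmul, Algebra.smul_def, map_mul, Algebra.smul_def, hON, AlgEquiv.commutes]
  have hunder : (cen w1 hwN).under O = IA.under O := by
    ext a
    rw [Ideal.under_def, Ideal.under_def, Ideal.mem_comap, Ideal.mem_comap]
    change VPos w1 (algebraMap O N a) ↔ A.valuation (algebraMap O N a) < 1
    by_cases ha : a = 0
    · subst ha
      rw [map_zero, map_zero]
      exact ⟨fun _ => zero_lt_one, fun _ => VPos.zero⟩
    · have h1 : algebraMap O N a ≠ 0 := by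
        rw [hON]
        simpa using hinj a ha
      rw [hvω a ha]
      unfold VPos
      rw [hON, hw1 _ (hinj a ha)]
      constructor
      · intro h3
        exact h3 (by rw [← hON]; exact h1)
      · intro h3 _
        exact h3
  obtain ⟨τ, hτ⟩ := Algebra.IsInvariant.exists_smul_of_under_eq O C (N ≃ₐ[F] N)
    (cen w1 hwN) IA hunder
  let w2 : OVal ℝ N := rcomap (τ⁻¹ : N ≃ₐ[F] N).toAlgHom.toRingHom w1
  have hw2 : ∀ c : N, w2 c = w1 ((τ⁻¹ : N ≃ₐ[F] N) c) := fun c => rfl
  refine ⟨w2, ?_, ?_⟩
  · intro g hg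
    rw [hw2, AlgEquiv.commutes, hw1 g hg]
  · intro c hc
    have h3 : IsIntegral O ((τ⁻¹ : N ≃ₐ[F] N) c) :=
      hc.map ((τ⁻¹ : N ≃ₐ[F] N).toAlgHom.restrictScalars O)
    refine ⟨?_, ?_⟩
    · intro hc0
      rw [hw2]
      exact ge_of_isIntegral hwN h3 (by simpa using hc0)
    · let c' : C := ⟨c, hc⟩
      have h5 : c' ∈ IA ↔ τ⁻¹ • c' ∈ cen w1 hwN := by
        rw [hτ, Ideal.mem_pointwise_smul_iff_inv_smul_mem]
      have h7 : τ⁻¹ • c' ∈ cen w1 hwN ↔ VPos w1 ((τ⁻¹ : N ≃ₐ[F] N) c) := by
        change VPos w1 ((τ⁻¹ • c' : C) : N) ↔ _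
        rw [hsmul]
      rw [h7] at h5
      have h8 : VPos w2 c ↔ VPos w1 ((τ⁻¹ : N ≃ₐ[F] N) c) := by
        unfold VPos
        rw [hw2]
        have h9 : (τ⁻¹ : N ≃ₐ[F] N) c ≠ 0 ↔ c ≠ 0 := by simp
        rw [h9]
      rw [h8]
      exact h5

end Centre

end Pool.Agent.TGT
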