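import Pool.Agent.Lib.TGT.Defs

/-!
# (T4) the count: elements separating the embeddings (helper76)
-/

set_option autoImplicit false

namespace Pool.Agent.TGT

open Module Filter
open Pool.Agent.TG (Ov ZDim IsMin IsModel Bir)

universe u

section Theta

variable {k K N : Type u} [Field k] [Field K] [Field N] [Algebra k K]

/-- The elements `x` with `x * f ^ c ∈ P ^ c` for some `c`. -/
def chp (P : Submodule k K) (f : K) : Subalgebra k K where
  carrier := {x | ∃ c : ℕ, x * f ^ c ∈ P ^ c ∧ f ^ c ∈ P ^ c}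
  mul_mem' := by
    rintro x y ⟨c, hx, hfc⟩ ⟨d, hy, hfd⟩
    refine ⟨c + d, ?_, ?_⟩
    · have h1 : x * y * f ^ (c + d) = (x * f ^ c) * (y * f ^ d) := by rw [pow_add]; ring
      rw [h1, pow_add]
      exact Submodule.mul_mem_mul hx hy
    · rw [pow_add, pow_add]
      exact Submodule.mul_mem_mul hfc hfd
  add_mem' := by
    rintro x y ⟨c, hx, hfc⟩ ⟨d, hy, hfd⟩
    refine ⟨c + d, ?_, ?_⟩
    · have h1 : (x + y) * f ^ (c + d) = (x * f ^ c) * f ^ d + f ^ c * (y * f ^ d) := by
        rw [pow_add]; ring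
      rw [h1, pow_add]
      exact Submodule.add_mem _ (Submodule.mul_mem_mul hx hfd) (Submodule.mul_mem_mul hfc hy)
    · rw [pow_add, pow_add]
      exact Submodule.mul_mem_mul hfc hfd
  algebraMap_mem' := fun c => by
    refine ⟨0, ?_, ?_⟩
    · rw [pow_zero, pow_zero, mul_one]
      exact Submodule.mem_one.2 ⟨c, rfl⟩
    · rw [pow_zero, pow_zero]
      exact Submodule.mem_one.2 ⟨1, map_one _⟩

theorem div_mem_chp {P : Submodule k K} {f g : K} (hf : f ∈ P) (hf0 : f ≠ 0) (hg : g ∈ P) :
    g / f ∈ chp P f := by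
  refine ⟨1, ?_, ?_⟩
  · rw [pow_one, pow_one, div_mul_cancel₀ _ hf0]
    exact hg
  · rw [pow_one, pow_one]
    exact hf

theorem eq_of_eq_chp {P : Submodule k K} {f : K} (hf : f ∈ P) (hf0 : f ≠ 0) (hBir : Bir P)
    (τ τ' : K →+* N) (h : ∀ x ∈ chp P f, τ x = τ' x) : τ = τ' := by
  have h1 : (IntermediateField.adjoin k {x : K | ∃ f ∈ P, ∃ g ∈ P, x = g / f}).toSubfield ≤
      RingHom.eqLocusField τ τ' := by
    rw [IntermediateField.adjoin_toSubfield, Subfield.closure_le]
    rintro x (⟨c, rfl⟩ | ⟨a, ha, b, hb, rfl⟩)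
    · exact h _ ((chp P f).algebraMap_mem c)
    · have h2 : b / a = (b / f) / (a / f) := by
        by_cases ha0 : a = 0
        · rw [ha0, zero_div, div_zero, div_zero]
        · field_simp
      rw [h2]
      exact div_mem (h _ (div_mem_chp hf hf0 hb)) (h _ (div_mem_chp hf hf0 ha))
  apply RingHom.ext
  intro x
  refine h1 (?_ : x ∈ (IntermediateField.adjoin k {x : K | ∃ f ∈ P, ∃ g ∈ P, x = g / f}).toSubfield)
  have h3 : x ∈ IntermediateField.adjoin k {x : K | ∃ f ∈ P, ∃ g ∈ P, x = g / f} := by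
    have h4 : IntermediateField.adjoin k {x : K | ∃ f ∈ P, ∃ g ∈ P, x = g / f} = ⊤ := hBir
    rw [h4]
    exact IntermediateField.mem_top
  exact h3

/-- Elements which separate the embeddings. -/
theorem exists_theta {P : Submodule k K} {f : K} (hf : f ∈ P) (hf0 : f ≠ 0) (hBir : Bir P) {q : ℕ}
    (τ : Fin q → (K →+* N)) (hτ : Function.Injective τ) :
    ∃ (θ : Fin q → K) (c : ℕ), (∀ j, θ j * f ^ c ∈ P ^ c) ∧
      IsUnit (Matrix.of fun s j => τ s (θ j)) := by
  classical
  let B := chp P f
  let φ : Fin q → (B →* N) := fun s => ((τ s : K →+* N) : K →* N).comp (B.subtype : B →* K)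
  have hφ : ∀ s (b : B), φ s b = τ s (b : K) := fun _ _ => rfl
  have hφinj : Function.Injective φ := by
    intro s s' hss
    apply hτ
    refine eq_of_eq_chp hf hf0 hBir _ _ fun x hx => ?_
    exact DFunLike.congr_fun hss (⟨x, hx⟩ : B)
  have hli : LinearIndependent N (fun s => (φ s : B → N)) :=
    (linearIndependent_monoidHom B N).comp φ hφinj
  let w : B → (Fin q → N) := fun b s => τ s (b : K)
  have hspan : Submodule.span N (Set.range w) = ⊤ := by
    by_contra hne
    obtain ⟨ψ, hψ0, hψ⟩ := Submodule.exists_le_ker_of_lt_top _ (lt_top_iff_ne_top.2 hne)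
    apply hψ0
    have h1 : ∀ v : Fin q → N, ψ v = ∑ s, v s * ψ (Pi.single s 1) := by
      intro v
      conv_lhs => rw [← Finset.univ_sum_single v]
      rw [map_sum]
      refine Finset.sum_congr rfl fun s _ => ?_
      have h2 : (Pi.single s (v s) : Fin q → N) = v s • Pi.single s (1 : N) := by
        rw [← Pi.single_smul, smul_eq_mul, mul_one]
      rw [h2, map_smul, smul_eq_mul]
    have h3 := Fintype.linearIndependent_iff.1 hli (fun s => ψ (Pi.single s 1)) (by
      funext b
      rw [Finset.sum_apply]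
      have h4 : ψ (w b) = 0 := hψ (Submodule.subset_span ⟨b, rfl⟩)
      rw [h1] at h4
      change ∑ s, ψ (Pi.single s 1) * τ s (b : K) = 0
      rw [← h4]
      exact Finset.sum_congr rfl fun s _ => mul_comm _ _)
    apply LinearMap.ext
    intro v
    rw [h1 v]
    simp [h3]
  obtain ⟨b, hb, hbs, hbl⟩ := exists_linearIndependent N (Set.range w)
  rw [hspan] at hbs
  have hbas : Basis b N (Fin q → N) := Basis.mk hbl (by
    rw [Subtype.range_coe, hbs])
  have : Finite b := (Module.Finite.finite_basis hbas)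
  let _ : Fintype b := Fintype.ofFinite b
  have hcard : Fintype.card (Fin q) = Fintype.card b := by
    rw [← Module.finrank_eq_card_basis hbas, Module.finrank_fintype_fun_eq_card]
  let e : Fin q ≃ b := Fintype.equivOfCardEq hcard
  choose β hβ using fun j : Fin q => hb (e j).2
  choose c hc hfc using fun j : Fin q => (β j).2
  have hfpow : ∀ m : ℕ, f ^ m ∈ P ^ m := fun m => Submodule.pow_mem_pow _ hf m
  refine ⟨fun j => (β j : K), ∑ j, c j, fun j => ?_, ?_⟩
  · have h1 : ∑ i, c i = c j + ∑ i ∈ Finset.univ.erase j, c i := by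
      rw [Finset.add_sum_erase _ _ (Finset.mem_univ j)]
    rw [h1, pow_add, pow_add, ← mul_assoc]
    exact Submodule.mul_mem_mul (hc j) (hfpow _)
  · rw [← Matrix.linearIndependent_cols_iff_isUnit]
    have h1 : (Matrix.of fun s j => τ s (β j : K)).col = (fun j => w (β j)) := by
      funext j s
      rfl
    rw [h1]
    have h2 : (fun j => w (β j)) = (fun j => ((e j : b) : Fin q → N)) := funext hβ
    rw [h2]
    exact hbl.comp e e.injective

end Theta

end Pool.Agent.TGT
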