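import Pool.Agent.Lib.TG.WLz

/-!
# (T) Everywhere tame normalisation: definitions and statements

See note 2927 (store `T_h73.md`). `K / k` is a finitely generated field of transcendence degree
`n`, `k` algebraically closed.
-/

set_option autoImplicit false

namespace Pool.Agent.TGT

open Module Filter
open Pool.Agent.TG (Ov ZDim IsMin IsModel Bir)
open Pool.Agent.ALL68 (mul_lt_one_of_le_of_lt')

universe u

section Defs

variable {k K : Type u} [Field k] [Field K] [Algebra k K]

/-- The elements of `P` whose value is not minimal: the hyperplane of the elements of `P` vanishing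
at the centre of `V` (if `V` is zero-dimensional). -/
def low {V : ValuationSubring K} (hV : Ov k V) (P : Submodule k K) : Submodule k K where
  carrier := {x | x ∈ P ∧ ∀ f, IsMin V P f → V.valuation (x / f) < 1}
  add_mem' := by
    rintro x y ⟨hx, h1⟩ ⟨hy, h2⟩
    refine ⟨P.add_mem hx hy, fun f hf => ?_⟩
    rw [add_div]
    exact Valuation.map_add_lt _ (h1 f hf) (h2 f hf)
  zero_mem' := ⟨P.zero_mem, fun f _ => by rw [zero_div, map_zero]; exact zero_lt_one⟩
  smul_mem' := by
    rintro c x ⟨hx, h1⟩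
    refine ⟨P.smul_mem c hx, fun f hf => ?_⟩
    rw [Algebra.smul_def, mul_div_assoc, map_mul]
    exact mul_lt_one_of_le_of_lt' ((V.valuation_le_one_iff _).2 (hV c)) (h1 f hf)

/-- `Reach P Q c`: `Q` arises from `P` by `c` projections from closed points. -/
inductive Reach (P : Submodule k K) : Submodule k K → ℕ → Prop
  | refl : Reach P P 0
  | step {Q : Submodule k K} {c : ℕ} (h : Reach P Q c) (V : ValuationSubring K) (hV : ZDim k V)
      (hQ : Q ≠ ⊥) : Reach P (low hV.ov Q) (c + 1)

/-- The valuation ring `W` is centred at the centre of `V` on `P` (`f` is minimal for `V`). -/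
def Cen {V : ValuationSubring K} (hV : Ov k V) (P : Submodule k K) (f : K)
    (W : ValuationSubring K) : Prop := Ov k W ∧ ∀ g ∈ low hV P, W.valuation (g / f) < 1

end Defs

section Stmts

/-- (T1) numerical choice: `W = V ^ (m + 1)`, `P` reachable from it in `c` steps, `c` not too
large, and `P` extremal. -/
def ExtStmt (k K : Type u) [Field k] [Field K] [Algebra k K] (n : ℕ) : Prop :=
  ∀ (V : Submodule k K), FiniteDimensional k V → 1 ≤ V →
    (∃ c₁ c₂ : ℝ, 0 < c₁ ∧ ∀ᶠ s : ℕ in atTop, c₁ * (s : ℝ) ^ n ≤ finrank k (V ^ s : Submodule k K) ∧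
      (finrank k (V ^ s : Submodule k K) : ℝ) ≤ c₂ * (s : ℝ) ^ n) →
    ∀ M j₀ : ℕ, 0 < M → ∃ (m c : ℕ) (P : Submodule k K), Reach (V ^ (m + 1)) P c ∧
      c + j₀ < finrank k (V ^ m : Submodule k K) ∧
      ∀ (j : ℕ) (P' : Submodule k K), 0 < j → Reach P P' j →
        ∃ᶠ t : ℕ in atTop, M * finrank k (P ^ t : Submodule k K) <
          M * finrank k (P' ^ t : Submodule k K) + (M + 1) * j * t ^ n

/-- (T2) the rank one trick. -/
def RankStmt (k K : Type u) [Field k] [Field K] [Algebra k K] : Prop :=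
  ∀ (V : Submodule k K) (m c : ℕ) (P : Submodule k K), FiniteDimensional k V →
    Reach (V ^ (m + 1)) P c → c < finrank k (V ^ m : Submodule k K) →
    ∃ s : K, s ≠ 0 ∧ ∀ x ∈ V, s * x ∈ P

/-- (T3) general position at all points at once. `e` is a basis of `P`, `a` are the coordinates of
the `n + 1` sections `f i = ∑ s, a (i, s) • e s`. -/
def GPStmt (k K : Type u) [Field k] [Field K] [Algebra k K] (n : ℕ) : Prop :=
  Algebra.trdeg k K = n → 0 < n → ∀ (P : Submodule k K) (ι : Type) [Fintype ι] (e : Basis ι k P),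
    P ≠ ⊥ →
    ∃ Δ : MvPolynomial (Fin (n + 1) × ι) k, Δ ≠ 0 ∧ ∀ a : Fin (n + 1) × ι → k,
      MvPolynomial.eval a Δ ≠ 0 → ∀ f : Fin (n + 1) → K, (∀ i, f i = ∑ s, a (i, s) • (e s : K)) →
      (∀ V : ValuationSubring K, Ov k V → ∃ i, IsMin V P (f i)) ∧
      ∀ (V : ValuationSubring K) (hV : ZDim k V) (i₀ : Fin (n + 1)), IsMin V P (f i₀) →
        ∃ (j : ℕ) (P' : Submodule k K) (u : Fin (n + 1) → K), 0 < j ∧ j ≤ n + 1 ∧ Reach P P' j ∧
          P' ≤ low hV.ov P ∧ u i₀ = 0 ∧ (∀ i, u i ∈ P') ∧ (∀ i, ∃ c : k, u i = f i - c • f i₀) ∧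
          ∀ W : ValuationSubring K, Cen hV.ov P (f i₀) W →
            ∀ g ∈ P', ∃ i, W.valuation g ≤ W.valuation (u i)

/-- (T4) the count. `N / F` is a finite Galois extension containing `K`, `A` a zero-dimensional
valuation ring of `N`, `σ s` automorphisms which stabilise the centre of `A` on the integral closure
of `k[f i / f i₀]` and are different on `K`. -/
def CountStmt (k K N : Type u) [Field k] [Field K] [Field N] [Algebra k K] [Algebra K N]
    [Algebra k N] [IsScalarTower k K N] (n : ℕ) : Prop :=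
  ∀ (P P' : Submodule k K), FiniteDimensional k P → Bir P → ∀ (f u : Fin (n + 1) → K)
    (i₀ : Fin (n + 1)) (F : IntermediateField k K),
    F = IntermediateField.adjoin k (Set.range fun i => f i / f i₀) → FiniteDimensional F N →
    IsGalois F N → Algebra.trdeg k K = n →
    ∀ (A : ValuationSubring N) (_ : ZDim k A) (hV : ZDim k (A.comap (algebraMap K N))),
      IsMin (A.comap (algebraMap K N)) P (f i₀) → (∀ i, f i ∈ P) →
      (∀ V : ValuationSubring K, Ov k V → ∃ i, IsMin V P (f i)) →
      P' ≤ low hV.ov P → u i₀ = 0 → (∀ i, u i ∈ P') → (∀ i, ∃ c : k, u i = f i - c • f i₀) →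
      (∀ W : ValuationSubring K, Cen hV.ov P (f i₀) W →
        ∀ g ∈ P', ∃ i, W.valuation g ≤ W.valuation (u i)) →
      ∀ (q : ℕ) (σ : Fin q → (N ≃ₐ[F] N)),
        (∀ s, ∀ b : N, IsIntegral (Algebra.adjoin k (Set.range fun i => f i / f i₀)) b →
          (A.valuation b < 1 ↔ A.valuation (σ s b) < 1)) →
        (∀ s s', s ≠ s' → ∃ x : K, σ s (algebraMap K N x) ≠ σ s' (algebraMap K N x)) →
        ∃ c : ℕ, ∀ t : ℕ, c < t →
          finrank k (P' ^ t : Submodule k K) + q * (t - c - 1 + n).choose n ≤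
            finrank k (P ^ t : Submodule k K)

end Stmts

end Pool.Agent.TGT
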