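import Pool.Agent.Lib.TGT.Both

/-!
# (T) The inertia group in elementary terms
-/

set_option autoImplicit false

namespace Pool.Agent.TGT

open Pointwise

universe u

section

variable {F N : Type u} [Field F] [Field N] [Algebra F N]

/-- The inertia group of the valuation ring `A` of `N` over `F`: the automorphisms `σ` such that
`σ a - a` lies in the maximal ideal of `A` for all `a ∈ A`. -/
def inertia (F : Type u) {N : Type u} [Field F] [Field N] [Algebra F N] (A : ValuationSubring N) :
    Set (N ≃ₐ[F] N) := {σ | ∀ a ∈ A, σ a = a ∨ (σ a - a)⁻¹ ∉ A}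

theorem mem_inertia {A : ValuationSubring N} {σ : N ≃ₐ[F] N} :
    σ ∈ inertia F A ↔ ∀ a ∈ A, A.valuation (σ a - a) < 1 := by
  unfold inertia
  simp only [Set.mem_ofPred_eq]
  refine forall₂_congr fun a _ => ?_
  rw [vlt_iff, sub_eq_zero]

theorem smul_le {A : ValuationSubring N} {σ : N ≃ₐ[F] N} (h : σ ∈ inertia F A) : σ • A ≤ A := by
  intro x hx
  obtain ⟨a, ha, rfl⟩ := ValuationSubring.mem_smul_pointwise_iff_exists _ _ _ |>.1 hx
  have h1 := (A.valuation_le_one_iff _).1 (mem_inertia.1 h a ha).le
  have h2 := A.add_mem _ _ h1 ha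
  rw [sub_add_cancel] at h2
  exact h2

theorem smul_eq [FiniteDimensional F N] {A : ValuationSubring N} {σ : N ≃ₐ[F] N}
    (h : σ ∈ inertia F A) : σ • A = A := by
  have h1 : ∀ j : ℕ, σ ^ j • A ≤ A := by
    intro j
    induction j with
    | zero => rw [pow_zero, one_smul]
    | succ j ih =>
      rw [pow_succ', mul_smul]
      refine le_trans ?_ (smul_le h)
      rw [ValuationSubring.pointwise_smul_le_pointwise_smul_iff]
      exact ih
  refine le_antisymm (smul_le h) ?_
  have h2 : σ⁻¹ • A ≤ A := by
    have h3 : σ⁻¹ = σ ^ (orderOf σ - 1) := by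
      rw [inv_eq_iff_mul_eq_one, ← pow_succ', Nat.sub_add_cancel (orderOf_pos σ), pow_orderOf_eq_one]
    rw [h3]
    exact h1 _
  have h3 := (ValuationSubring.pointwise_smul_le_pointwise_smul_iff (g := σ)).2 h2
  rwa [smul_inv_smul] at h3

theorem mem_inertia_iff [FiniteDimensional F N] {A : ValuationSubring N} {σ : N ≃ₐ[F] N} :
    σ ∈ inertia F A ↔ ∃ τ : A.inertiaSubgroup F,
      ((τ : A.decompositionSubgroup F) : N ≃ₐ[F] N) = σ := by
  constructor
  · intro h
    have hd : σ ∈ A.decompositionSubgroup F := smul_eq h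
    refine ⟨⟨⟨σ, hd⟩, ?_⟩, rfl⟩
    unfold ValuationSubring.inertiaSubgroup
    rw [MonoidHom.mem_ker]
    ext x
    obtain ⟨a, rfl⟩ := IsLocalRing.residue_surjective x
    change (⟨σ, hd⟩ : A.decompositionSubgroup F) • IsLocalRing.residue A a = IsLocalRing.residue A a
    rw [← IsLocalRing.ResidueField.residue_smul, ← sub_eq_zero, ← map_sub,
      IsLocalRing.residue_eq_zero_iff]
    exact (A.valuation_lt_one_iff _).2 (mem_inertia.1 h a a.2)
  · rintro ⟨τ, rfl⟩
    exact mem_inertia.2 fun a ha => inertia_sub A τ ha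

theorem ncard_inertia [FiniteDimensional F N] (A : ValuationSubring N) :
    (inertia F A).ncard = Nat.card (A.inertiaSubgroup F) := by
  have h1 : inertia F A = Set.range fun τ : A.inertiaSubgroup F =>
      ((τ : A.decompositionSubgroup F) : N ≃ₐ[F] N) := by
    ext σ
    rw [mem_inertia_iff]
    rfl
  rw [h1, ← Nat.card_coe_set_eq]
  refine Nat.card_range_of_injective ?_
  exact Subtype.val_injective.comp Subtype.val_injective

end

/-- The restrictions of the elements of the inertia group to `K`. -/
def restr (F K : Type u) {N : Type u} [Field F] [Field K] [Field N] [Algebra F N] [Algebra K N]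
    (A : ValuationSubring N) : Set (K → N) :=
  {g | ∃ σ ∈ inertia F A, ∀ y, g y = σ (algebraMap K N y)}

theorem ncard_restr {F K N : Type u} [Field F] [Field K] [Field N] [Algebra F N] [Algebra K N]
    [FiniteDimensional F N] (A : ValuationSubring N) {b : ℕ}
    (h : ∀ (q : ℕ) (σ : Fin q → A.inertiaSubgroup F),
      (∀ s s', s ≠ s' → ∃ y : K,
        ((σ s : A.decompositionSubgroup F) : N ≃ₐ[F] N) (algebraMap K N y) ≠
        ((σ s' : A.decompositionSubgroup F) : N ≃ₐ[F] N) (algebraMap K N y)) → q ≤ b) :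
    (restr F K A).ncard ≤ b := by
  classical
  by_cases hfin : (restr F K A).Finite
  · have e : Fin (restr F K A).ncard ≃ restr F K A := by
      have : Finite (restr F K A) := hfin
      exact (Finite.equivFinOfCardEq (Nat.card_coe_set_eq _)).symm
    choose τ hτ1 hτ2 using fun s => (e s).2
    choose ρ hρ using fun s => mem_inertia_iff.1 (hτ1 s)
    refine h _ ρ fun s s' hss => ?_
    have h1 : (e s : K → N) ≠ e s' := fun h => hss (e.injective (Subtype.ext h))
    obtain ⟨y, hy⟩ := Function.ne_iff.1 h1
    refine ⟨y, ?_⟩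
    rw [hρ, hρ, ← hτ2, ← hτ2]
    exact hy
  · rw [Set.not_finite.1 hfin |>.ncard]
    exact Nat.zero_le _

/-- For all normal closures `N` of `K / F` and all valuation rings `A` of `N` which contain `k`. -/
def InertiaBounded {k K : Type u} [Field k] [Field K] [Algebra k K] (F : IntermediateField k K)
    (b : ℕ) : Prop :=
  ∀ (N : Type u) [Field N] [Algebra K N] [Algebra k N] [IsScalarTower k K N],
    IsNormalClosure F K N → ∀ A : ValuationSubring N, (∀ c : k, algebraMap k N c ∈ A) →
      (restr F K A).ncard ≤ b ∧ ∀ p : ℕ, p.Prime → b < p → (inertia F A).ncard.Coprime p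

theorem elem {k K : Type u} [Field k] [IsAlgClosed k] [Field K] [Algebra k K] {n : ℕ}
    (h : LocStmt k K n) :
    ∃ x : Fin n → K, AlgebraicIndependent k x ∧
      Algebra.IsSeparable (IntermediateField.adjoin k (Set.range x)) K ∧
      FiniteDimensional (IntermediateField.adjoin k (Set.range x)) K ∧
      InertiaBounded (IntermediateField.adjoin k (Set.range x)) (n + 1).factorial := by
  obtain ⟨x, hx, hsep, hfd, hN⟩ := both h
  refine ⟨x, hx, hsep, hfd, ?_⟩
  intro N _ _ _ _ hNc A hA
  have hfN : FiniteDimensional (IntermediateField.adjoin k (Set.range x)) N := nc_finite (K := K)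
  obtain ⟨h1, h2⟩ := hN N hNc A hA
  refine ⟨ncard_restr A h1, fun p hp hb => ?_⟩
  rw [ncard_inertia]
  exact h2 p hp hb

end Pool.Agent.TGT
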