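import Pool.Agent.Lib.TGT.Low
import Pool.Agent.Lib.TG15n.Num

/-!
# (T1) The extremal linear system: `theorem ext : 0 < n → ExtStmt k K n`

`exists_start'`: the choice of `m` for any ratio `q / (q + 1)`.
-/

set_option autoImplicit false

namespace Pool.Agent.TGT

open Module Filter
open Pool.Agent.TG (Ov ZDim IsMin IsModel Bir)
open Pool.Agent.TG15n (exists_limsup_bounds eventually_pow)

universe u

theorem exists_delta' (q : ℕ) : ∃ δ : ℝ, 0 < δ ∧ δ < 1 ∧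
    (q : ℝ) * ((1 + δ) * (1 + δ)) < ((q : ℝ) + 1) * (1 - δ) := by
  have hn : (0 : ℝ) ≤ q := Nat.cast_nonneg q
  set N : ℝ := (q : ℝ) + 1 with hN
  have hN1 : 1 ≤ N := by rw [hN]; linarith
  have h5 : (q : ℝ) = N - 1 := by rw [hN]; ring
  refine ⟨1 / (4 * N), by positivity, ?_, ?_⟩
  · rw [div_lt_one (by positivity)]
    linarith
  · rw [h5]
    have hd : 0 < 1 / (4 * N) := by positivity
    have hdN : 1 / (4 * N) * N = 1 / 4 := by
      field_simp
    set d := 1 / (4 * N) with hdd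
    have hd1 : d ≤ 1 / 4 := by
      rw [hdd]
      apply one_div_le_one_div_of_le (by norm_num)
      linarith
    nlinarith [mul_pos hd hd, mul_nonneg hd.le (sub_nonneg.2 hd1)]

/-- If `c₁ s^n ≤ a s ≤ c₂ s^n` for large `s`, then there are arbitrarily large `m` with
`q a ((m + 1) t) < (q + 1) a m t^n` for all large `t`. -/
theorem exists_start' (q n : ℕ) (a : ℕ → ℕ) {c₁ c₂ : ℝ} (h1 : 0 < c₁)
    (ha : ∀ᶠ s : ℕ in atTop, c₁ * (s : ℝ) ^ n ≤ a s ∧ (a s : ℝ) ≤ c₂ * (s : ℝ) ^ n) (m₀ : ℕ) :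
    ∃ m : ℕ, m₀ ≤ m ∧ ∀ᶠ t in atTop, q * a ((m + 1) * t) < (q + 1) * a m * t ^ n := by
  obtain ⟨δ, hδ, hδ1, hδ2⟩ := exists_delta' q
  obtain ⟨L, hL, hup, hlow⟩ := exists_limsup_bounds (fun s : ℕ => (a s : ℝ) / (s : ℝ) ^ n) h1
    (c₂ := c₂) (by
      filter_upwards [ha, eventually_gt_atTop 0] with s hs hs0
      have hs' : (0 : ℝ) < (s : ℝ) ^ n := by positivity
      exact ⟨(le_div_iff₀ hs').2 hs.1, (div_le_iff₀ hs').2 hs.2⟩) hδ
  obtain ⟨m, ⟨⟨hm1, hm2⟩, hm0⟩, hmm⟩ := ((hlow.and_eventually (eventually_pow n hδ)).and_eventually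
    (eventually_gt_atTop 0)).and_eventually (eventually_ge_atTop m₀) |>.exists
  refine ⟨m, hmm, ?_⟩
  have hm' : (0 : ℝ) < m := Nat.cast_pos.2 hm0
  have hmn : (0 : ℝ) < (m : ℝ) ^ n := by positivity
  have ht : Tendsto (fun t : ℕ => (m + 1) * t) atTop atTop :=
    tendsto_id.const_mul_atTop' (Nat.succ_pos m)
  filter_upwards [ht.eventually hup, eventually_gt_atTop 0] with t ht1 ht0
  have ht' : (0 : ℝ) < (t : ℝ) ^ n := by positivity
  have hmt : (0 : ℝ) < (((m + 1) * t : ℕ) : ℝ) ^ n := by positivity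
  have h3 : (a ((m + 1) * t) : ℝ) < L * (1 + δ) * (((m + 1) * t : ℕ) : ℝ) ^ n := by
    exact (div_lt_iff₀ hmt).1 ht1
  have h4 : L * (1 - δ) * (m : ℝ) ^ n < a m := by
    exact (lt_div_iff₀ hmn).1 hm1
  have h5 : (((m + 1) * t : ℕ) : ℝ) ^ n = ((m : ℝ) + 1) ^ n * (t : ℝ) ^ n := by
    push_cast
    rw [mul_pow]
  rw [h5] at h3
  have hc : (q : ℝ) * a ((m + 1) * t) < ((q + 1 : ℕ) : ℝ) * a m * (t : ℝ) ^ n := by
    calc (q : ℝ) * a ((m + 1) * t)
        ≤ (q : ℝ) * (L * (1 + δ) * (((m : ℝ) + 1) ^ n * (t : ℝ) ^ n)) :=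
          mul_le_mul_of_nonneg_left h3.le (Nat.cast_nonneg _)
      _ ≤ (q : ℝ) * (L * (1 + δ) * (((1 + δ) * (m : ℝ) ^ n) * (t : ℝ) ^ n)) := by
          gcongr
      _ = ((q : ℝ) * ((1 + δ) * (1 + δ))) * (L * (m : ℝ) ^ n * (t : ℝ) ^ n) := by
          ring
      _ ≤ (((q : ℝ) + 1) * (1 - δ)) * (L * (m : ℝ) ^ n * (t : ℝ) ^ n) :=
          mul_le_mul_of_nonneg_right hδ2.le (by positivity)
      _ = ((q + 1 : ℕ) : ℝ) * (L * (1 - δ) * (m : ℝ) ^ n) * (t : ℝ) ^ n := by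
          push_cast
          ring
      _ < ((q + 1 : ℕ) : ℝ) * a m * (t : ℝ) ^ n := by
          have h6 : (0 : ℝ) < ((q + 1 : ℕ) : ℝ) := by positivity
          exact mul_lt_mul_of_pos_right (mul_lt_mul_of_pos_left h4 h6) ht'
  exact_mod_cast hc

section

variable {k K : Type u} [Field k] [Field K] [Algebra k K]

/-- (T1). -/
theorem ext {n : ℕ} (hn : 0 < n) : ExtStmt k K n := by
  classical
  intro V hV hV1 hc M j₀ hM
  obtain ⟨c₁, c₂, hc1, ha⟩ := hc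
  -- `a m` is large for large `m`
  obtain ⟨m₀, hm₀⟩ : ∃ m₀ : ℕ, ∀ m, m₀ ≤ m → 2 * (M + 1) * j₀ < finrank k (V ^ m : Submodule k K) := by
    have h1 : Tendsto (fun s : ℕ => c₁ * (s : ℝ) ^ n) atTop atTop :=
      ((tendsto_pow_atTop hn.ne').comp tendsto_natCast_atTop_atTop).const_mul_atTop hc1
    have h2 := (h1.eventually_gt_atTop ((2 * (M + 1) * j₀ : ℕ) : ℝ)).and ha
    obtain ⟨m₀, hm₀⟩ := eventually_atTop.1 h2
    refine ⟨m₀, fun m hm => ?_⟩
    obtain ⟨h3, h4, -⟩ := hm₀ m hm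
    exact_mod_cast h3.trans_le h4
  obtain ⟨m, hm, hstart⟩ := exists_start' (2 * M) n
    (fun s => finrank k (V ^ s : Submodule k K)) hc1 ha m₀
  have ham := hm₀ m hm
  set a : ℕ := finrank k (V ^ m : Submodule k K) with hadef
  -- the property
  set Pr : ℕ → Prop := fun c => ∃ P : Submodule k K, Reach (V ^ (m + 1)) P c ∧
    ∃ᶠ t : ℕ in atTop, M * finrank k (P ^ t : Submodule k K) + (M + 1) * c * t ^ n ≤
      M * finrank k (V ^ ((m + 1) * t) : Submodule k K) with hPr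
  have h0 : Pr 0 := by
    refine ⟨V ^ (m + 1), Reach.refl, (Eventually.of_forall fun t => ?_).frequently⟩
    rw [mul_zero, zero_mul, add_zero, ← pow_mul]
  have hbd : ∀ c, Pr c → c + j₀ < a := by
    rintro c ⟨P, hP, hfr⟩
    obtain ⟨t, ⟨ht1, ht2⟩, ht0⟩ := ((hfr.and_eventually hstart).and_eventually
      (eventually_gt_atTop 0)).exists
    have htn : 0 < t ^ n := pow_pos ht0 n
    have h1 : 2 * (M + 1) * c * t ^ n < (2 * M + 1) * a * t ^ n := by
      calc 2 * (M + 1) * c * t ^ n = 2 * ((M + 1) * c * t ^ n) := by ring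
        _ ≤ 2 * (M * finrank k (V ^ ((m + 1) * t) : Submodule k K)) :=
            Nat.mul_le_mul_left 2 (le_trans (Nat.le_add_left _ _) ht1)
        _ = 2 * M * finrank k (V ^ ((m + 1) * t) : Submodule k K) := by ring
        _ < (2 * M + 1) * a * t ^ n := ht2
    have h2 : 2 * (M + 1) * c < (2 * M + 1) * a := Nat.lt_of_mul_lt_mul_right h1
    have h3 : 2 * (M + 1) * (c + j₀) < 2 * (M + 1) * a := by
      calc 2 * (M + 1) * (c + j₀) = 2 * (M + 1) * c + 2 * (M + 1) * j₀ := by ring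
        _ < (2 * M + 1) * a + a := Nat.add_lt_add h2 ham
        _ = 2 * (M + 1) * a := by ring
    exact Nat.lt_of_mul_lt_mul_left h3
  -- the maximal `c`
  have hspec : Pr (Nat.findGreatest Pr a) := Nat.findGreatest_spec (Nat.zero_le a) h0
  set c := Nat.findGreatest Pr a with hcdef
  obtain ⟨P, hP, hfr⟩ := hspec
  refine ⟨m, c, P, hP, hbd c ⟨P, hP, hfr⟩, fun j P' hj hP' => ?_⟩
  have hnot : ¬ Pr (c + j) := by
    intro h
    have h1 := hbd _ h
    exact Nat.findGreatest_is_greatest (P := Pr) (n := a) (k := c + j) (by omega) (by omega) h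
  have hnf : ∀ᶠ t : ℕ in atTop, ¬ (M * finrank k (P' ^ t : Submodule k K) +
      (M + 1) * (c + j) * t ^ n ≤ M * finrank k (V ^ ((m + 1) * t) : Submodule k K)) := by
    rw [← not_frequently]
    exact fun h => hnot ⟨P', hP.trans hP', h⟩
  refine (hfr.and_eventually hnf).mono ?_
  rintro t ⟨h1, h2⟩
  have h3 : (M + 1) * (c + j) * t ^ n = (M + 1) * c * t ^ n + (M + 1) * j * t ^ n := by ring
  rw [h3] at h2
  omega

end

end Pool.Agent.TGT
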