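import Pool.Agent.Lib.TGT.Defs

/-!
# (T) statements of the last steps
-/

set_option autoImplicit false

namespace Pool.Agent.TGT

open Module Filter
open Pool.Agent.TG (Ov ZDim IsMin IsModel Bir)

universe u

section

/-- (T6) generic sections give a separable extension. -/
def SepStmt (k K : Type u) [Field k] [Field K] [Algebra k K] (n : ℕ) : Prop :=
  (⊤ : IntermediateField k K).FG → Algebra.trdeg k K = n →
  ∀ (P : Submodule k K) (ι : Type) [Fintype ι] (e : Basis ι k P), Bir P →
    ∃ Δ : MvPolynomial (Fin (n + 1) × ι) k, Δ ≠ 0 ∧ ∀ a : Fin (n + 1) × ι → k,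
      MvPolynomial.eval a Δ ≠ 0 → ∀ f : Fin (n + 1) → K, (∀ i, f i = ∑ s, a (i, s) • (e s : K)) →
      ∀ i₀, Algebra.IsSeparable (IntermediateField.adjoin k (Set.range fun i => f i / f i₀)) K

/-- The automorphism `σ` stabilises the centre of `A` on the integral closure of `R` in `N`. -/
def Stab {k N : Type u} [Field k] [Field N] [Algebra k N] (A : ValuationSubring N)
    (R : Subalgebra k N) (σ : N ≃+* N) : Prop :=
  ∀ b : N, IsIntegral R b → (A.valuation b < 1 ↔ A.valuation (σ b) < 1)

/-- (T') all local degrees of the normalisation of `P^n` in `K` are at most `(n + 1)!`. The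
homogeneous coordinates are `f 0, .., f n`, the centre of `A` lies in the chart `f i₀ ≠ 0`. -/
def LocStmt (k K : Type u) [Field k] [Field K] [Algebra k K] (n : ℕ) : Prop :=
  ∃ f : Fin (n + 1) → K, (∀ i, f i ≠ 0) ∧
    AlgebraicIndependent k (fun i : Fin n => f i.succ / f 0) ∧
    Algebra.IsSeparable (IntermediateField.adjoin k (Set.range fun i => f i / f 0)) K ∧
    FiniteDimensional (IntermediateField.adjoin k (Set.range fun i => f i / f 0)) K ∧
    ∀ (N : Type u) [Field N] [Algebra K N] [Algebra k N] [IsScalarTower k K N],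
      FiniteDimensional (IntermediateField.adjoin k (Set.range fun i => f i / f 0)) N →
      IsGalois (IntermediateField.adjoin k (Set.range fun i => f i / f 0)) N →
      ∀ (A : ValuationSubring N), ZDim k A → ∀ i₀, (∀ i, algebraMap K N (f i / f i₀) ∈ A) →
      ∀ (q : ℕ) (σ : Fin q →
        (N ≃ₐ[IntermediateField.adjoin k (Set.range fun i => f i / f 0)] N)),
        (∀ s, Stab A (Algebra.adjoin k (Set.range fun i => algebraMap K N (f i / f i₀)))
          (σ s : N ≃+* N)) →
        (∀ s s', s ≠ s' → ∃ x : K, σ s (algebraMap K N x) ≠ σ s' (algebraMap K N x)) →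
        q ≤ (n + 1).factorial

/-- (T7) the final theorem for `p > (n + 1)!`. -/
def FinStmt (k K : Type u) [Field k] [Field K] [Algebra k K] (n p : ℕ) : Prop :=
  ∃ x : Fin n → K, AlgebraicIndependent k x ∧
    Algebra.IsSeparable (IntermediateField.adjoin k (Set.range x)) K ∧
    FiniteDimensional (IntermediateField.adjoin k (Set.range x)) K ∧
    ∀ (N : Type u) [Field N] [Algebra K N] [Algebra k N] [IsScalarTower k K N],
      IsNormalClosure (IntermediateField.adjoin k (Set.range x)) K N →
      ∀ A : ValuationSubring N, Ov k A →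
        (Nat.card (A.inertiaSubgroup (IntermediateField.adjoin k (Set.range x)))).Coprime p

end

end Pool.Agent.TGT
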