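import Pool.Agent.Lib.TGT.Core

/-!
# (T3) general position: the greedy chain
-/

set_option autoImplicit false

namespace Pool.Agent.TGT

open Module
open Pool.Agent.TG (Ov ZDim IsMin IsModel Bir)

universe u

section

variable {k K : Type u} [Field k] [Field K] [Algebra k K] {V W : ValuationSubring K}
  {P : Submodule k K} {f₀ : K}

theorem val_lt_iff_div {x y : K} (hy : y ≠ 0) :
    W.valuation x < W.valuation y ↔ W.valuation (x / y) < 1 := by
  rw [map_div₀]
  have h : W.valuation y ≠ 0 := (Valuation.ne_zero_iff _).2 hy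
  exact (div_lt_one₀ (zero_lt_iff.2 h)).symm

theorem val_lt_of_le {x y : K} (hle : V ≤ W) (h : W.valuation x < W.valuation y) :
    V.valuation x < V.valuation y := by
  have hy : y ≠ 0 := by
    rintro rfl
    rw [map_zero] at h
    exact absurd h (not_lt.2 zero_le)
  rw [val_lt_iff_div hy] at h ⊢
  exact LU2.val_lt_one_of_le hle h

/-- The property that the sections `u` have minimal value on `R` at the centre of `V`. -/
def Good {V : ValuationSubring K} (hV : Ov k V) (P : Submodule k K) (f₀ : K) {m : ℕ}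
    (u : Fin m → K) (R : Submodule k K) : Prop :=
  ∀ W : ValuationSubring K, Cen hV P f₀ W → ∀ g ∈ R, ∃ i, W.valuation g ≤ W.valuation (u i)

theorem cen_self (hV : Ov k V) (hf : IsMin V P f₀) : Cen hV P f₀ V :=
  ⟨hV, fun _ hg => hg.2 f₀ hf⟩

theorem cen_val {hV : ZDim k V} (hf : IsMin V P f₀) (hW : Cen hV.ov P f₀ W) {x y : K}
    (hx : x ∈ low hV.ov P) (hy : y ∈ P) (hy' : y ∉ low hV.ov P) :
    W.valuation x < W.valuation y := by
  obtain ⟨c, -, hc⟩ := exists_res hV hf hy
  have hc0 : c ≠ 0 := by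
    rintro rfl
    rw [zero_smul, sub_zero] at hc
    exact hy' hc
  have h1 : W.valuation x < W.valuation f₀ := (val_lt_iff_div hf.ne).2 (hW.2 x hx)
  have h2 : W.valuation (y - c • f₀) < W.valuation f₀ := (val_lt_iff_div hf.ne).2 (hW.2 _ hc)
  have h3 : W.valuation (c • f₀) = W.valuation f₀ := by
    rw [Algebra.smul_def, map_mul, val_const hW.1 hc0, one_mul]
  have e : y = (y - c • f₀) + c • f₀ := by abel
  rw [e, Valuation.map_add_eq_of_lt_right W.valuation (by rw [h3]; exact h2), h3]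
  exact h1

theorem exists_nx [IsAlgClosed k] {hV : ZDim k V} (hf : IsMin V P f₀) {m : ℕ} (u : Fin m → K)
    (R : Submodule k K) : ∃ W : ValuationSubring K, ZDim k W ∧ Cen hV.ov P f₀ W ∧
      (R = P → W = V) ∧ (R ≠ P → ¬ Good hV.ov P f₀ u R →
        ∃ g ∈ R, ∀ i, W.valuation (u i) < W.valuation g) := by
  by_cases hR : R = P
  · exact ⟨V, hV, cen_self hV.ov hf, fun _ => rfl, fun h => absurd hR h⟩
  by_cases hg : Good hV.ov P f₀ u R
  · exact ⟨V, hV, cen_self hV.ov hf, fun h => absurd h hR, fun _ h => absurd hg h⟩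
  · unfold Good at hg
    push Not at hg
    obtain ⟨W, hW, g, hgR, hgu⟩ := hg
    obtain ⟨W', hle, hW'⟩ := TG.exists_zdim_le hW.1
    exact ⟨W', hW', ⟨hW'.ov, fun x hx => LU2.val_lt_one_of_le hle (hW.2 x hx)⟩,
      fun h => absurd h hR, fun _ _ => ⟨g, hgR, fun i => val_lt_of_le hle (hgu i)⟩⟩

/-- The greedy chain. -/
theorem greedy [IsAlgClosed k] (n : ℕ) (hV : ZDim k V) (hP : P ≠ ⊥) (f : Fin (n + 1) → K)
    (hfP : ∀ i, f i ∈ P) (i₀ : Fin (n + 1)) (hmin : IsMin V P (f i₀))
    (hbad : ¬ BadChain k n P f i₀) :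
    ∃ (j : ℕ) (P' : Submodule k K) (u : Fin (n + 1) → K), 0 < j ∧ j ≤ n + 1 ∧ Reach P P' j ∧
      P' ≤ low hV.ov P ∧ u i₀ = 0 ∧ (∀ i, u i ∈ P') ∧ (∀ i, ∃ c : k, u i = f i - c • f i₀) ∧
      ∀ W : ValuationSubring K, Cen hV.ov P (f i₀) W →
        ∀ g ∈ P', ∃ i, W.valuation g ≤ W.valuation (u i) := by
  classical
  have hres : ∀ i, ∃ c : k, f i - c • f i₀ ∈ low hV.ov P ∧ (i = i₀ → f i - c • f i₀ = 0) := by
    intro i
    by_cases hi : i = i₀
    · subst hi
      refine ⟨1, ?_, fun _ => by rw [one_smul, sub_self]⟩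
      rw [one_smul, sub_self]
      exact Submodule.zero_mem _
    · obtain ⟨c, -, hc⟩ := exists_res hV hmin (hfP i)
      exact ⟨c, hc, fun h => absurd h hi⟩
  choose c hc hc0 using hres
  set u : Fin (n + 1) → K := fun i => f i - c i • f i₀ with hu
  choose nx hnx hcen hnxP hnxu using fun R => exists_nx (hV := hV) hmin u R
  let Q : ℕ → Submodule k K := fun j => Nat.rec P (fun _ R => low (hnx R).ov R) j
  have hQ0 : Q 0 = P := rfl
  have hQs : ∀ j, Q (j + 1) = low (hnx (Q j)).ov (Q j) := fun j => rfl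
  have hlow : ∀ {W₁ W₂ : ValuationSubring K} (h₁ : Ov k W₁) (h₂ : Ov k W₂) (R : Submodule k K),
      W₁ = W₂ → low h₁ R = low h₂ R := by
    rintro W₁ W₂ h₁ h₂ R rfl
    rfl
  have hQ1 : Q 1 = low hV.ov P := by
    exact hlow (hnx P).ov hV.ov P (hnxP P rfl)
  have hanti : Antitone Q := antitone_nat_of_succ_le fun j => by rw [hQs]; exact low_le _ _
  have hne : ∀ j, 1 ≤ j → Q j ≠ P := by
    intro j hj h
    have h1 : f i₀ ∈ Q j := by rw [h]; exact hmin.mem
    have h2 := hanti hj h1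
    rw [hQ1] at h2
    exact not_mem_low hV.ov hmin h2
  have hu1 : ∀ i, u i ∈ Q 1 := fun i => by rw [hQ1]; exact hc i
  have hstep : ∀ j, 1 ≤ j → ¬ Good hV.ov P (f i₀) u (Q j) → (∀ i, u i ∈ Q j) →
      ∀ i, u i ∈ Q (j + 1) := by
    intro j hj hg huj i
    obtain ⟨g, hgR, hgu⟩ := hnxu (Q j) (hne j hj) hg
    rw [hQs]
    refine ⟨huj i, fun F hF => ?_⟩
    have h1 : (nx (Q j)).valuation g ≤ (nx (Q j)).valuation F := by
      have h2 := (ValuationSubring.valuation_le_one_iff _ _).2 (hF.div g hgR)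
      rw [map_div₀] at h2
      have h3 : (nx (Q j)).valuation F ≠ 0 := (Valuation.ne_zero_iff _).2 hF.ne
      exact (div_le_one₀ (zero_lt_iff.2 h3)).1 h2
    exact (val_lt_iff_div hF.ne).1 ((hgu i).trans_le h1)
  have hgbot : Good hV.ov P (f i₀) u ⊥ := by
    intro W _ g hg
    rw [Submodule.mem_bot] at hg
    refine ⟨i₀, ?_⟩
    rw [hg, map_zero]
    exact zero_le
  by_cases hex : ∃ j, 1 ≤ j ∧ j ≤ n + 1 ∧ Good hV.ov P (f i₀) u (Q j)
  · -- the least one
    obtain ⟨hj1, hjn, hjg⟩ := Nat.find_spec hex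
    set j := Nat.find hex with hj
    have hlt : ∀ i, 1 ≤ i → i < j → ¬ Good hV.ov P (f i₀) u (Q i) := by
      intro i hi hij hg
      exact Nat.find_min hex hij ⟨hi, by omega, hg⟩
    have huj : ∀ i, 1 ≤ i → i ≤ j → ∀ s, u s ∈ Q i := by
      intro i hi
      induction i, hi using Nat.le_induction with
      | base => intro _; exact hu1
      | succ i hi ih => intro hij; exact hstep i hi (hlt i hi (by omega)) (ih (by omega))
    have hreach : ∀ i, i ≤ j → Reach P (Q i) i := by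
      intro i
      induction i with
      | zero => intro _; exact Reach.refl
      | succ i ih =>
        intro hij
        rw [hQs]
        refine Reach.step (ih (by omega)) _ (hnx _) ?_
        rcases Nat.eq_zero_or_pos i with h | h
        · rw [h, hQ0]; exact hP
        · intro hb
          apply hlt i h (by omega)
          rw [hb]
          exact hgbot
    refine ⟨j, Q j, u, by omega, hjn, hreach j le_rfl, ?_, hc0 i₀ rfl, huj j hj1 le_rfl,
      fun i => ⟨c i, rfl⟩, hjg⟩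
    rw [← hQ1]
    exact hanti hj1
  · exfalso
    push Not at hex
    apply hbad
    have huj : ∀ i, 1 ≤ i → i ≤ n + 2 → ∀ s, u s ∈ Q i := by
      intro i hi
      induction i, hi using Nat.le_induction with
      | base => intro _; exact hu1
      | succ i hi ih => intro hij; exact hstep i hi (hex i hi (by omega)) (ih (by omega))
    refine ⟨fun j => nx (Q j), fun j => hnx (Q j), Q, hQ0, hQs, ?_, ?_, ?_, ?_⟩
    · intro hb
      apply hex (n + 1) (by omega) le_rfl
      rw [hb]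
      exact hgbot
    · intro j _ x hx y hy hy'
      rw [hQ1] at hx hy'
      exact cen_val (hV := hV) hmin (hcen (Q j)) hx hy hy'
    · rw [hQ1]
      exact not_mem_low hV.ov hmin
    · intro i
      exact ⟨c i, huj (n + 2) (by omega) le_rfl i⟩

/-- (T3) from the ultrapower statement. -/
theorem gp [IsAlgClosed k] {n : ℕ} (hU : UltraStmt k K n) : GPStmt k K n := by
  classical
  intro hn hn0 P ι _ e hP
  have hcore := core k K n hn hn0 P ι e hP
  obtain ⟨hU1, hU2⟩ := hU P ι e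
  -- the polynomials
  have h1 : ∀ i₀ : Fin (n + 1), ∃ Δ : MvPolynomial (Fin (n + 1) × ι) k, Δ ≠ 0 ∧
      ∀ a : Fin (n + 1) × ι → k, MvPolynomial.eval a Δ ≠ 0 →
        ¬ BadChain k n P (fun i => ∑ s, a (i, s) • (e s : K)) i₀ := by
    intro i₀
    by_contra hcon
    push Not at hcon
    obtain ⟨κ, L, _, _, _, _, _, _, φ, a, hli, ha, hb⟩ := hU1 i₀ hcon
    exact (hcore κ L φ hli a ha).1 i₀ hb
  have h2 : ∃ Δ : MvPolynomial (Fin (n + 1) × ι) k, Δ ≠ 0 ∧
      ∀ a : Fin (n + 1) × ι → k, MvPolynomial.eval a Δ ≠ 0 →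
        ¬ BadBase k n P (fun i => ∑ s, a (i, s) • (e s : K)) := by
    by_contra hcon
    push Not at hcon
    obtain ⟨κ, L, _, _, _, _, _, _, φ, a, hli, ha, hb⟩ := hU2 hcon
    exact (hcore κ L φ hli a ha).2 hb
  choose Δ hΔ hΔ' using h1
  obtain ⟨Δb, hΔb, hΔb'⟩ := h2
  refine ⟨Δb * ∏ i, Δ i, mul_ne_zero hΔb (Finset.prod_ne_zero_iff.2 fun i _ => hΔ i), ?_⟩
  intro a ha f hf
  rw [map_mul, map_prod] at ha
  have ha1 := left_ne_zero_of_mul ha
  have ha2 := Finset.prod_ne_zero_iff.1 (right_ne_zero_of_mul ha)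
  have hf' : f = fun i => ∑ s, a (i, s) • (e s : K) := funext hf
  have hfP : ∀ i, f i ∈ P := by
    intro i
    rw [hf]
    exact Submodule.sum_mem _ fun s _ => Submodule.smul_mem _ _ (e s).2
  have hmod : IsModel P := by
    refine ⟨?_, hP⟩
    have : Module.Finite k P := Module.Finite.of_basis e
    exact (Submodule.fg_top P).1 Module.Finite.fg_top
  constructor
  · intro V hV
    obtain ⟨W, hle, hW⟩ := TG.exists_zdim_le hV
    have h3 := hΔb' a ha1
    rw [← hf'] at h3
    have h4 : ∃ i, f i ∉ low hW.ov P := by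
      by_contra hcon
      push Not at hcon
      exact h3 ⟨W, hW, hcon⟩
    obtain ⟨i, hi⟩ := h4
    obtain ⟨g, hg⟩ := TG.exists_isMin hW.ov hmod
    exact ⟨i, (isMin_of_not_mem hW.ov hg (hfP i) hi).of_le hle⟩
  · intro V hV i₀ hmin
    refine greedy n hV hP f hfP i₀ hmin ?_
    rw [hf']
    exact hΔ' i₀ a (ha2 i₀ (Finset.mem_univ _))

end

end Pool.Agent.TGT
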