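import Pool.Agent.Lib.TGT.Defs

/-!
# (T3) general position: definitions and statements of the two halves

`Core` is the count of transcendence degrees in a field `L ⊇ κ ⊇ k`, `Ultra` produces `κ`, `L` as
ultrapowers of `k`, `K`.
-/

set_option autoImplicit false

namespace Pool.Agent.TGT

open Module Filter
open Pool.Agent.TG (Ov ZDim IsMin IsModel Bir)

universe u

section

/-- A chain `P = Q 0 > Q 1 > .. > Q (n + 2)` of successive projections from closed points over the
centre of `A 0`, such that the sections `f i - c i • f i₀` lie in `Q (n + 2)`. -/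
def BadChain (k : Type u) {K : Type u} [Field k] [Field K] [Algebra k K] (n : ℕ)
    (P : Submodule k K) (f : Fin (n + 1) → K) (i₀ : Fin (n + 1)) : Prop :=
  ∃ (A : ℕ → ValuationSubring K) (hA : ∀ j, ZDim k (A j)) (Q : ℕ → Submodule k K),
    Q 0 = P ∧ (∀ j, Q (j + 1) = low (hA j).ov (Q j)) ∧ Q (n + 1) ≠ ⊥ ∧
    (∀ j, 1 ≤ j → ∀ x ∈ Q 1, ∀ y ∈ Q 0, y ∉ Q 1 → (A j).valuation x < (A j).valuation y) ∧
    f i₀ ∉ Q 1 ∧ ∀ i, ∃ c : k, f i - c • f i₀ ∈ Q (n + 2)

/-- No minimal element among the `f i`: base points. -/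
def BadBase (k : Type u) {K : Type u} [Field k] [Field K] [Algebra k K] (n : ℕ)
    (P : Submodule k K) (f : Fin (n + 1) → K) : Prop :=
  ∃ (A : ValuationSubring K) (hA : ZDim k A), ∀ i, f i ∈ low hA.ov P

/-- The core. -/
def CoreStmt (k K : Type u) [Field k] [Field K] [Algebra k K] (n : ℕ) : Prop :=
  Algebra.trdeg k K = n → 0 < n → ∀ (P : Submodule k K) (ι : Type) [Fintype ι] (e : Basis ι k P),
    P ≠ ⊥ →
    ∀ (κ L : Type u) [Field κ] [Field L] [Algebra k κ] [Algebra κ L] [Algebra k L]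
      [IsScalarTower k κ L] (φ : K →ₐ[k] L), LinearIndependent κ (fun s => φ (e s : K)) →
      ∀ a : Fin (n + 1) × ι → κ, AlgebraicIndependent k a →
        (∀ i₀, ¬ BadChain κ n (Submodule.span κ (Set.range fun s => φ (e s : K)))
          (fun i => ∑ s, a (i, s) • φ (e s : K)) i₀) ∧
        ¬ BadBase κ n (Submodule.span κ (Set.range fun s => φ (e s : K)))
          (fun i => ∑ s, a (i, s) • φ (e s : K))

/-- The ultrapower: a Zariski dense set of bad tuples gives a bad tuple with algebraically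
independent coordinates. -/
def UltraStmt (k K : Type u) [Field k] [Field K] [Algebra k K] (n : ℕ) : Prop :=
  ∀ (P : Submodule k K) (ι : Type) [Fintype ι] (e : Basis ι k P),
    (∀ i₀, (∀ Δ : MvPolynomial (Fin (n + 1) × ι) k, Δ ≠ 0 → ∃ a : Fin (n + 1) × ι → k,
        MvPolynomial.eval a Δ ≠ 0 ∧ BadChain k n P (fun i => ∑ s, a (i, s) • (e s : K)) i₀) →
      ∃ (κ L : Type u) (_ : Field κ) (_ : Field L) (_ : Algebra k κ) (_ : Algebra κ L)
        (_ : Algebra k L) (_ : IsScalarTower k κ L) (φ : K →ₐ[k] L) (a : Fin (n + 1) × ι → κ),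
        LinearIndependent κ (fun s => φ (e s : K)) ∧ AlgebraicIndependent k a ∧
        BadChain κ n (Submodule.span κ (Set.range fun s => φ (e s : K)))
          (fun i => ∑ s, a (i, s) • φ (e s : K)) i₀) ∧
    ((∀ Δ : MvPolynomial (Fin (n + 1) × ι) k, Δ ≠ 0 → ∃ a : Fin (n + 1) × ι → k,
        MvPolynomial.eval a Δ ≠ 0 ∧ BadBase k n P (fun i => ∑ s, a (i, s) • (e s : K))) →
      ∃ (κ L : Type u) (_ : Field κ) (_ : Field L) (_ : Algebra k κ) (_ : Algebra κ L)
        (_ : Algebra k L) (_ : IsScalarTower k κ L) (φ : K →ₐ[k] L) (a : Fin (n + 1) × ι → κ),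
        LinearIndependent κ (fun s => φ (e s : K)) ∧ AlgebraicIndependent k a ∧
        BadBase κ n (Submodule.span κ (Set.range fun s => φ (e s : K)))
          (fun i => ∑ s, a (i, s) • φ (e s : K)))

end

end Pool.Agent.TGT
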