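import Pool.Agent.Lib.TG_h62.Num

/-!
# (T), row NUM: the choice of `m`
-/

set_option autoImplicit false

namespace Pool.Agent.TGT

open Filter Topology

/-- A good exponent, under bounds which hold eventually. -/
theorem exists_good_ev (n : ℕ) (a : ℕ → ℕ) {c₁ c₂ : ℝ} (h1 : 0 < c₁)
    (ha : ∀ᶠ s : ℕ in atTop, c₁ * (s : ℝ) ^ n ≤ a s ∧ (a s : ℝ) ≤ c₂ * (s : ℝ) ^ n)
    {ε : ℝ} (hε : 0 < ε) (m₀ : ℕ) :
    ∃ m, m₀ ≤ m ∧ 1 ≤ m ∧ 1 ≤ a m ∧ ∀ N, m ≤ N →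
      (a N : ℝ) * (m : ℝ) ^ n ≤ (1 + ε) * a m * (N : ℝ) ^ n := by
  obtain ⟨s₀, hs₀⟩ := eventually_atTop.1 ha
  set s₁ := max s₀ 1 with hs₁
  have hpos : ∀ s, s₁ ≤ s → 1 ≤ a s := by
    intro s hs
    have h2 := (hs₀ s ((le_max_left _ _).trans hs)).1
    have h3 : (0 : ℝ) < s := by
      have := (le_max_right s₀ 1).trans hs
      exact_mod_cast this
    have h4 : (0 : ℝ) < a s := lt_of_lt_of_le (by positivity) h2
    exact_mod_cast h4
  let a' : ℕ → ℕ := fun s => if s < s₁ then 1 else a s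
  obtain ⟨C, hC⟩ := exists_nat_ge (max c₂ 1)
  have h2 : ∀ s, a' s ≤ C * (s + 1) ^ n := by
    intro s
    have hC1 : 1 ≤ C := by
      have := (le_max_right c₂ 1).trans hC
      exact_mod_cast this
    by_cases hs : s < s₁
    · simp only [a', if_pos hs]
      exact Nat.one_le_iff_ne_zero.2 (Nat.mul_ne_zero (by omega) (pow_ne_zero _ (Nat.succ_ne_zero s)))
    · simp only [a', if_neg hs]
      have h3 := (hs₀ s ((le_max_left _ _).trans (not_lt.1 hs))).2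
      have h4 : (a s : ℝ) ≤ C * ((s : ℝ) + 1) ^ n := by
        refine h3.trans ?_
        have h5 : c₂ ≤ C := (le_max_left _ _).trans hC
        have h6 : (s : ℝ) ^ n ≤ ((s : ℝ) + 1) ^ n :=
          pow_le_pow_left₀ (by positivity) (by linarith) n
        calc c₂ * (s : ℝ) ^ n ≤ C * (s : ℝ) ^ n := mul_le_mul_of_nonneg_right h5 (by positivity)
          _ ≤ _ := mul_le_mul_of_nonneg_left h6 (by positivity)
      exact_mod_cast h4
  have h3 : ∀ s, 1 ≤ a' s := by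
    intro s
    by_cases hs : s < s₁
    · simp only [a', if_pos hs]; exact le_rfl
    · simp only [a', if_neg hs]; exact hpos s (not_lt.1 hs)
  obtain ⟨m, hm1, hm2, hm3⟩ := TGh62.exists_good n C a' h2 h3 hε (max m₀ s₁)
  have hms : s₁ ≤ m := (le_max_right _ _).trans hm1
  refine ⟨m, (le_max_left _ _).trans hm1, hm2, hpos m hms, fun N hN => ?_⟩
  have h4 := hm3 N hN
  simp only [a', if_neg (not_lt.2 hms), if_neg (not_lt.2 (hms.trans hN))] at h4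
  exact h4

/-- For every ratio `q₁ < q₂` there is `m ≥ m₀` with `q₁ a((m+1) t) < q₂ a(m) t ^ n` for all large
`t`. -/
theorem exists_start (n : ℕ) (a : ℕ → ℕ) {c₁ c₂ : ℝ} (h1 : 0 < c₁)
    (ha : ∀ᶠ s : ℕ in atTop, c₁ * (s : ℝ) ^ n ≤ a s ∧ (a s : ℝ) ≤ c₂ * (s : ℝ) ^ n)
    {q₁ q₂ : ℕ} (hq : q₁ < q₂) (m₀ : ℕ) :
    ∃ m : ℕ, m₀ ≤ m ∧ 1 ≤ m ∧ ∀ t : ℕ, 1 ≤ t → q₁ * a ((m + 1) * t) < q₂ * a m * t ^ n := by
  set ε : ℝ := 1 / (3 * (q₁ + 1)) with hεdef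
  have hq1 : (0 : ℝ) < (q₁ : ℝ) + 1 := by positivity
  have hε : 0 < ε := by positivity
  have hε1 : ε ≤ 1 := by
    rw [hεdef, div_le_one (by positivity)]
    have : (0 : ℝ) ≤ q₁ := by positivity
    linarith
  have hεq : (q₁ : ℝ) * ((1 + ε) * (1 + ε)) < q₂ := by
    have h2 : (1 + ε) * (1 + ε) ≤ 1 + 3 * ε := by nlinarith
    have h3 : 3 * ε = 1 / ((q₁ : ℝ) + 1) := by
      rw [hεdef]
      field_simp
    have h4 : (q₁ : ℝ) * (1 + 1 / ((q₁ : ℝ) + 1)) < q₁ + 1 := by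
      have h5 : (q₁ : ℝ) * (1 / ((q₁ : ℝ) + 1)) < 1 := by
        rw [mul_one_div, div_lt_one hq1]
        linarith
      linarith
    have h5 : (q₁ : ℝ) + 1 ≤ q₂ := by exact_mod_cast hq
    calc (q₁ : ℝ) * ((1 + ε) * (1 + ε)) ≤ q₁ * (1 + 3 * ε) :=
          mul_le_mul_of_nonneg_left h2 (by positivity)
      _ < q₂ := by rw [h3]; linarith
  -- `(1 + 1/m) ^ n → 1`
  obtain ⟨m₁, hm₁⟩ : ∃ m₁ : ℕ, ∀ m : ℕ, m₁ ≤ m → (1 + 1 / (m : ℝ)) ^ n < 1 + ε := by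
    have h2 : Tendsto (fun m : ℕ => (1 + 1 / (m : ℝ)) ^ n) atTop (𝓝 ((1 + 0) ^ n)) := by
      refine Tendsto.pow (Tendsto.const_add _ ?_) n
      exact tendsto_const_div_atTop_nhds_zero_nat _
    rw [add_zero, one_pow] at h2
    exact eventually_atTop.1 (h2.eventually (gt_mem_nhds (by linarith)))
  obtain ⟨m, hm1, hm2, hm3, hm4⟩ := exists_good_ev n a h1 ha hε (max m₀ m₁)
  refine ⟨m, (le_max_left _ _).trans hm1, hm2, fun t ht => ?_⟩
  have hm0 : (0 : ℝ) < m := by exact_mod_cast hm2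
  have ht0 : (0 : ℝ) < t := by exact_mod_cast ht
  have ha0 : (0 : ℝ) < a m := by exact_mod_cast hm3
  have h2 := hm4 ((m + 1) * t) (by
    calc m ≤ m + 1 := Nat.le_succ m
      _ = (m + 1) * 1 := by ring
      _ ≤ (m + 1) * t := Nat.mul_le_mul le_rfl ht)
  have h3 : (((m + 1) * t : ℕ) : ℝ) = (1 + 1 / (m : ℝ)) * t * m := by
    push_cast
    field_simp
  rw [h3, mul_pow, ← mul_assoc] at h2
  have h4 := le_of_mul_le_mul_right h2 (by positivity)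
  rw [mul_pow] at h4
  have h5 := (hm₁ m ((le_max_right _ _).trans hm1)).le
  have h6 : (a ((m + 1) * t) : ℝ) ≤ (1 + ε) * (1 + ε) * (a m * (t : ℝ) ^ n) := by
    refine h4.trans ?_
    calc (1 + ε) * a m * ((1 + 1 / (m : ℝ)) ^ n * (t : ℝ) ^ n)
        = (1 + 1 / (m : ℝ)) ^ n * ((1 + ε) * (a m * (t : ℝ) ^ n)) := by ring
      _ ≤ (1 + ε) * ((1 + ε) * (a m * (t : ℝ) ^ n)) :=
          mul_le_mul_of_nonneg_right h5 (by positivity)
      _ = _ := by ring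
  have h7 : (q₁ : ℝ) * a ((m + 1) * t) < q₂ * (a m * (t : ℝ) ^ n) := by
    calc (q₁ : ℝ) * a ((m + 1) * t) ≤ q₁ * ((1 + ε) * (1 + ε) * (a m * (t : ℝ) ^ n)) :=
          mul_le_mul_of_nonneg_left h6 (by positivity)
      _ = (q₁ : ℝ) * ((1 + ε) * (1 + ε)) * (a m * (t : ℝ) ^ n) := by ring
      _ < q₂ * (a m * (t : ℝ) ^ n) := mul_lt_mul_of_pos_right hεq (by positivity)
  have h8 : (q₂ : ℝ) * (a m * (t : ℝ) ^ n) = ((q₂ * a m * t ^ n : ℕ) : ℝ) := by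
    push_cast
    ring
  rw [h8] at h7
  exact_mod_cast h7

end Pool.Agent.TGT
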