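import Pool.Agent.Lib.TGT.Defs

/-!
# (T2) The rank one trick: `theorem rank : RankStmt k K`
-/

set_option autoImplicit false

namespace Pool.Agent.TGT

open Module Filter
open Pool.Agent.TG (Ov ZDim IsMin IsModel Bir exists_isMin val_div_eq_one)

universe u

section

variable {k K : Type u} [Field k] [Field K] [Algebra k K]

/-- `{s ∈ W : s V ≤ P}`. -/
def trans (W V P : Submodule k K) : Submodule k K where
  carrier := {s | s ∈ W ∧ ∀ x ∈ V, s * x ∈ P}
  add_mem' := by
    rintro s t ⟨hs, h1⟩ ⟨ht, h2⟩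
    exact ⟨W.add_mem hs ht, fun x hx => by rw [add_mul]; exact P.add_mem (h1 x hx) (h2 x hx)⟩
  zero_mem' := ⟨W.zero_mem, fun x _ => by rw [zero_mul]; exact P.zero_mem⟩
  smul_mem' := by
    rintro c s ⟨hs, h1⟩
    exact ⟨W.smul_mem c hs, fun x hx => by rw [smul_mul_assoc]; exact P.smul_mem c (h1 x hx)⟩

theorem mem_trans {W V P : Submodule k K} {s : K} :
    s ∈ trans W V P ↔ s ∈ W ∧ ∀ x ∈ V, s * x ∈ P := Iff.rfl

/-- The rank one trick. -/
theorem exists_le_sup {W V Q : Submodule k K} (hQ : IsModel Q) {A : ValuationSubring K}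
    (hA : ZDim k A) : ∃ s : K, trans W V Q ≤ trans W V (low hA.ov Q) ⊔ Submodule.span k {s} := by
  obtain ⟨f, hf⟩ := exists_isMin hA.ov hQ
  have hf0 := hf.ne
  -- criterion for membership in `low`
  have hlow : ∀ x : K, x ∈ Q → A.valuation (x / f) < 1 → x ∈ low hA.ov Q := by
    intro x hx h1
    refine ⟨hx, fun g hg => ?_⟩
    have h2 := val_div_eq_one hf hg
    have h3 : x / g = x / f / (g / f) := by rw [div_div_div_cancel_right₀ hf0]
    rw [h3, map_div₀, h2, div_one]
    exact h1
  have hlow' : ∀ x : K, x ∈ low hA.ov Q → A.valuation (x / f) < 1 := fun x hx => hx.2 f hf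
  by_cases hex : ∃ s ∈ trans W V Q, ∃ t ∈ V, A.valuation (s * t / f) = 1
  · obtain ⟨s, hs, t₀, ht₀, hst⟩ := hex
    refine ⟨s, fun s' hs' => ?_⟩
    have hst0 : s * t₀ ≠ 0 := by
      intro h
      rw [h, zero_div, map_zero] at hst
      exact zero_ne_one hst
    -- the constant
    have hq : s' * t₀ / (s * t₀) ∈ A := by
      rw [← A.valuation_le_one_iff]
      have h1 : s' * t₀ / (s * t₀) = s' * t₀ / f / (s * t₀ / f) := by
        rw [div_div_div_cancel_right₀ hf0]
      rw [h1, map_div₀, hst, div_one, A.valuation_le_one_iff]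
      exact hf.div _ (hs'.2 t₀ ht₀)
    obtain ⟨c, hc⟩ := hA.res _ hq
    -- `s' - c s`
    set r : K := s' - c • s with hr
    have hrQ : r ∈ trans W V Q :=
      (trans W V Q).sub_mem hs' ((trans W V Q).smul_mem c hs)
    have hrt : A.valuation (r * t₀ / f) < 1 := by
      have h1 : r * t₀ / f = (s' * t₀ / (s * t₀) - algebraMap k K c) * (s * t₀ / f) := by
        rw [hr, Algebra.smul_def]
        have hs0 : s ≠ 0 := left_ne_zero_of_mul hst0
        have ht0 : t₀ ≠ 0 := right_ne_zero_of_mul hst0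
        field_simp
      rw [h1, map_mul, hst, mul_one]
      exact hc
    have hrl : r ∈ trans W V (low hA.ov Q) := by
      refine ⟨hrQ.1, fun t ht => hlow _ (hrQ.2 t ht) ?_⟩
      -- `(s t₀ / f) (r t / f) = (r t₀ / f) (s t / f)`
      have h1 : r * t / f * (s * t₀ / f) = r * t₀ / f * (s * t / f) := by ring
      have h2 : A.valuation (r * t / f) = A.valuation (r * t₀ / f * (s * t / f)) := by
        rw [← h1, map_mul, hst, mul_one]
      rw [h2, map_mul]
      have h3 : A.valuation (s * t / f) ≤ 1 := (A.valuation_le_one_iff _).2 (hf.div _ (hs.2 t ht))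
      calc A.valuation (r * t₀ / f) * A.valuation (s * t / f)
          ≤ A.valuation (r * t₀ / f) * 1 := by gcongr
        _ < 1 := by rw [mul_one]; exact hrt
    have h4 : s' = r + c • s := by rw [hr, sub_add_cancel]
    rw [h4]
    exact Submodule.add_mem_sup hrl (Submodule.smul_mem _ c (Submodule.mem_span_singleton_self s))
  · push Not at hex
    refine ⟨0, fun s hs => Submodule.mem_sup_left ⟨hs.1, fun t ht => hlow _ (hs.2 t ht) ?_⟩⟩
    exact lt_of_le_of_ne ((A.valuation_le_one_iff _).2 (hf.div _ (hs.2 t ht))) (hex s hs t ht)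

theorem finrank_trans_le {W V Q : Submodule k K} [FiniteDimensional k W] (hQ : IsModel Q)
    {A : ValuationSubring K} (hA : ZDim k A) :
    finrank k (trans W V Q) ≤ finrank k (trans W V (low hA.ov Q)) + 1 := by
  obtain ⟨s, hs⟩ := exists_le_sup (W := W) (V := V) hQ hA
  have hfin : FiniteDimensional k (trans W V (low hA.ov Q)) :=
    Submodule.finiteDimensional_of_le (S₂ := W) fun x hx => hx.1
  calc finrank k (trans W V Q)
      ≤ finrank k ((trans W V (low hA.ov Q) ⊔ Submodule.span k {s} : Submodule k K)) :=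
        Submodule.finrank_mono hs
    _ ≤ finrank k (trans W V (low hA.ov Q)) + finrank k (Submodule.span k {s}) :=
        Submodule.finrank_add_le_finrank_add_finrank _ _
    _ ≤ finrank k (trans W V (low hA.ov Q)) + 1 :=
        Nat.add_le_add_left ((finrank_span_le_card ({s} : Set K)).trans_eq (by simp)) _

theorem finrank_reach {W V P₀ P : Submodule k K} [FiniteDimensional k W]
    [FiniteDimensional k P₀] {c : ℕ} (h : Reach P₀ P c) :
    finrank k (trans W V P₀) ≤ finrank k (trans W V P) + c ∧ P ≤ P₀ := by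
  induction h with
  | refl => exact ⟨le_rfl, le_rfl⟩
  | @step Q c _ A hA hQ ih =>
    obtain ⟨ih1, ih2⟩ := ih
    have hfg : Q.FG := by
      have : FiniteDimensional k Q := Submodule.finiteDimensional_of_le ih2
      exact Module.Finite.iff_fg.1 this
    have h1 := finrank_trans_le (W := W) (V := V) (Q := Q) ⟨hfg, hQ⟩ hA
    exact ⟨by omega, fun x hx => ih2 hx.1⟩

/-- (T2). -/
theorem rank : RankStmt k K := by
  intro V m c P hV hP hc
  have hVfg : V.FG := Module.Finite.iff_fg.1 hV
  have hfin : ∀ j : ℕ, FiniteDimensional k (V ^ j : Submodule k K) := fun j =>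
    Module.Finite.iff_fg.2 (hVfg.pow j)
  have := hfin m
  have := hfin (m + 1)
  have h1 := (finrank_reach (W := V ^ m) (V := V) hP).1
  have h2 : trans (V ^ m) V (V ^ (m + 1)) = V ^ m := by
    refine le_antisymm (fun x hx => hx.1) fun x hx => ⟨hx, fun y hy => ?_⟩
    rw [pow_succ]
    exact Submodule.mul_mem_mul hx hy
  rw [h2] at h1
  have h3 : trans (V ^ m) V P ≠ ⊥ := by
    intro h
    rw [h, finrank_bot] at h1
    omega
  obtain ⟨s, hs, hs0⟩ := Submodule.exists_mem_ne_zero_of_ne_bot h3
  exact ⟨s, hs0, hs.2⟩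

end

end Pool.Agent.TGT
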