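import Pool.Agent.Lib.TG_h62.DV
import Pool.Agent.Lib.TGT.Num
import Pool.Agent.Lib.TGT.Rank

/-!
# (T), assembly: growth bounds, choice of `V`, birationality
-/

set_option autoImplicit false

namespace Pool.Agent.TGT

open Module Filter
open Pool.Agent.TG (Ov ZDim IsMin IsModel Bir)

universe u

section

variable {k K : Type u} [Field k] [Field K] [Algebra k K] {n : ℕ}

/-- The growth hypothesis of `ExtStmt`. -/
theorem growth_bounds [Infinite k] (V : Submodule k K) [FiniteDimensional k V] (h1 : 1 ≤ V)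
    (hV : IntermediateField.adjoin k (V : Set K) = ⊤) (hn : Algebra.trdeg k K = n) :
    ∃ c₁ c₂ : ℝ, 0 < c₁ ∧ ∀ᶠ s : ℕ in atTop,
      c₁ * (s : ℝ) ^ n ≤ finrank k (V ^ s : Submodule k K) ∧
      (finrank k (V ^ s : Submodule k K) : ℝ) ≤ c₂ * (s : ℝ) ^ n := by
  obtain ⟨d, c, hd, hup, hlo, -⟩ := TGh62.exists_dV V (Submodule.one_le.1 h1) hV hn
  have hfac : (0 : ℝ) < n.factorial := by exact_mod_cast Nat.factorial_pos n
  have hd0 : (0 : ℝ) < d := by exact_mod_cast hd
  refine ⟨d / n.factorial / 2 ^ n, d * 2 ^ n / n.factorial, by positivity, ?_⟩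
  filter_upwards [eventually_ge_atTop (2 * c + 1)] with s hs
  have hs0 : (0 : ℝ) < s := by
    have : 0 < s := by omega
    exact_mod_cast this
  constructor
  · have h2 : (d : ℝ) * ((s - c : ℕ) : ℝ) ^ n ≤
        n.factorial * (finrank k (V ^ s : Submodule k K) : ℝ) := by
      exact_mod_cast hlo s (by omega)
    have h3 : (s : ℝ) / 2 ≤ ((s - c : ℕ) : ℝ) := by
      rw [Nat.cast_sub (by omega)]
      have : (2 * c + 1 : ℝ) ≤ s := by exact_mod_cast hs
      linarith
    have h4 : ((s : ℝ) / 2) ^ n ≤ ((s - c : ℕ) : ℝ) ^ n := pow_le_pow_left₀ (by positivity) h3 n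
    rw [div_div, div_mul_eq_mul_div, div_le_iff₀ (by positivity)]
    calc (d : ℝ) * (s : ℝ) ^ n = d * ((s : ℝ) / 2) ^ n * 2 ^ n := by
          rw [div_pow]
          field_simp
      _ ≤ d * ((s - c : ℕ) : ℝ) ^ n * 2 ^ n :=
          mul_le_mul_of_nonneg_right (mul_le_mul_of_nonneg_left h4 hd0.le) (by positivity)
      _ ≤ (n.factorial * (finrank k (V ^ s : Submodule k K) : ℝ)) * 2 ^ n :=
          mul_le_mul_of_nonneg_right h2 (by positivity)
      _ = _ := by ring
  · have h2 : n.factorial * (finrank k (V ^ s : Submodule k K) : ℝ) ≤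
        (d : ℝ) * ((s + c : ℕ) : ℝ) ^ n := by
      exact_mod_cast hup s
    have h3 : ((s + c : ℕ) : ℝ) ≤ 2 * s := by
      push_cast
      have : (2 * c + 1 : ℝ) ≤ s := by exact_mod_cast hs
      have hc : (0 : ℝ) ≤ c := by positivity
      linarith
    have h4 : ((s + c : ℕ) : ℝ) ^ n ≤ (2 * s) ^ n := pow_le_pow_left₀ (by positivity) h3 n
    rw [div_mul_eq_mul_div, le_div_iff₀ hfac]
    calc (finrank k (V ^ s : Submodule k K) : ℝ) * n.factorial
        = n.factorial * (finrank k (V ^ s : Submodule k K) : ℝ) := by ring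
      _ ≤ (d : ℝ) * ((s + c : ℕ) : ℝ) ^ n := h2
      _ ≤ d * (2 * s) ^ n := mul_le_mul_of_nonneg_left h4 hd0.le
      _ = _ := by rw [mul_pow]; ring

theorem aN_mono' (V : Submodule k K) [FiniteDimensional k V] (h1 : 1 ≤ V) :
    Monotone fun s => finrank k (V ^ s : Submodule k K) :=
  TGh62.aN_mono V (Submodule.one_le.1 h1)

/-- A finite dimensional `V ∋ 1` which generates `K`. -/
theorem exists_space (h : (⊤ : IntermediateField k K).FG) :
    ∃ V : Submodule k K, FiniteDimensional k V ∧ 1 ≤ V ∧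
      IntermediateField.adjoin k (V : Set K) = ⊤ := by
  classical
  obtain ⟨S, hS⟩ := h
  refine ⟨Submodule.span k (insert 1 (S : Set K)),
    FiniteDimensional.span_of_finite k (S.finite_toSet.insert 1), ?_, ?_⟩
  · rw [Submodule.one_le]
    exact Submodule.subset_span (Set.mem_insert _ _)
  · rw [eq_top_iff, ← hS]
    exact IntermediateField.adjoin.mono _ _ _
      ((Set.subset_insert _ _).trans Submodule.subset_span)

theorem bir_of {V P : Submodule k K} (h1 : 1 ≤ V)
    (hV : IntermediateField.adjoin k (V : Set K) = ⊤) {s : K} (hs : s ≠ 0)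
    (h : ∀ x ∈ V, s * x ∈ P) : Bir P := by
  unfold Bir
  rw [eq_top_iff, ← hV]
  refine IntermediateField.adjoin.mono _ _ _ ?_
  intro x hx
  refine ⟨s, ?_, s * x, h x hx, by field_simp⟩
  have := h 1 (Submodule.one_le.1 h1)
  rwa [mul_one] at this

end

end Pool.Agent.TGT
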