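import Pool.Agent.Lib.TGT.FinDefs
import Pool.Agent.Lib.TGT.Low
import Pool.Agent.Lib.TGT.Growth

/-!
# (T) Assembly: the local degrees are at most `(n + 1)!`

`loc`: `LocStmt` from `ExtStmt` (T1), `RankStmt` (T2), `GPStmt` (T3), `CountStmt` (T4) and `SepStmt` (T6).
-/

set_option autoImplicit false

namespace Pool.Agent.TGT

open Module Filter
open Pool.Agent.TG (Ov ZDim IsMin IsModel Bir)

universe u

section Comap

variable {k K N : Type u} [Field k] [Field K] [Field N] [Algebra k K] [Algebra K N] [Algebra k N]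
  [IsScalarTower k K N] {A : ValuationSubring N}

theorem val_lt_one_iff' {L : Type u} [Field L] (V : ValuationSubring L) {x : L} :
    V.valuation x < 1 ↔ x = 0 ∨ x⁻¹ ∉ V := by
  by_cases hx : x = 0
  · simp [hx]
  · rw [← V.valuation_le_one_iff, map_inv₀, not_le]
    simp only [hx, false_or]
    rw [one_lt_inv₀]
    exact zero_lt_iff.2 ((map_ne_zero _).2 hx)

theorem comap_lt_one {x : K} : (A.comap (algebraMap K N)).valuation x < 1 ↔
    A.valuation (algebraMap K N x) < 1 := by
  rw [val_lt_one_iff', val_lt_one_iff', map_eq_zero, ValuationSubring.mem_comap, map_inv₀]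

theorem zdim_comap (hA : ZDim k A) : ZDim k (A.comap (algebraMap K N)) := by
  refine ⟨fun c => ?_, fun x hx => ?_⟩
  · rw [ValuationSubring.mem_comap, ← IsScalarTower.algebraMap_apply]
    exact hA.ov c
  · obtain ⟨c, hc⟩ := hA.res _ (ValuationSubring.mem_comap.1 hx)
    refine ⟨c, comap_lt_one.2 ?_⟩
    rw [map_sub, ← IsScalarTower.algebraMap_apply]
    exact hc

/-- Integrality over a subalgebra of `K` and over its image in `N`. -/
theorem isIntegral_map (R : Subalgebra k K) {b : N} (hb : IsIntegral R b) :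
    IsIntegral (R.map (IsScalarTower.toAlgHom k K N)) b := by
  have h1 : (algebraMap (R.map (IsScalarTower.toAlgHom k K N)) N).comp
      ((IsScalarTower.toAlgHom k K N).subalgebraMap R).toRingHom = algebraMap R N := by
    ext x
    rfl
  unfold IsIntegral at hb ⊢
  rw [← h1] at hb
  exact hb.of_comp

theorem map_adjoin_ratios {n : ℕ} (f : Fin (n + 1) → K) (i₀ : Fin (n + 1)) :
    (Algebra.adjoin k (Set.range fun i => f i / f i₀)).map (IsScalarTower.toAlgHom k K N) =
      Algebra.adjoin k (Set.range fun i => algebraMap K N (f i / f i₀)) := by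
  rw [AlgHom.map_adjoin, ← Set.range_comp]
  rfl

end Comap

section Adjoin

variable {k K : Type u} [Field k] [Field K] [Algebra k K] {n : ℕ}

theorem adjoin_ratio_le {ι : Type*} (f : ι → K) (i₀ i₁ : ι) (h0 : f i₀ ≠ 0) :
    IntermediateField.adjoin k (Set.range fun i => f i / f i₁) ≤
      IntermediateField.adjoin k (Set.range fun i => f i / f i₀) := by
  rw [IntermediateField.adjoin_le_iff]
  rintro _ ⟨i, rfl⟩
  have e : f i / f i₁ = (f i / f i₀) / (f i₁ / f i₀) := by
    rw [div_div_div_cancel_right₀ h0]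
  have h : ∀ i, f i / f i₀ ∈ IntermediateField.adjoin k (Set.range fun i => f i / f i₀) :=
    fun i => IntermediateField.subset_adjoin _ _ ⟨i, rfl⟩
  show f i / f i₁ ∈ _
  rw [e]
  exact div_mem (h i) (h i₁)

theorem adjoin_ratio_eq {ι : Type*} (f : ι → K) (hf : ∀ i, f i ≠ 0) (i₀ i₁ : ι) :
    IntermediateField.adjoin k (Set.range fun i => f i / f i₁) =
      IntermediateField.adjoin k (Set.range fun i => f i / f i₀) :=
  le_antisymm (adjoin_ratio_le f i₀ i₁ (hf _)) (adjoin_ratio_le f i₁ i₀ (hf _))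

/-- `K` is algebraic over `k(f i / f 0)`, hence the `f (i + 1) / f 0` are algebraically
independent. -/
theorem algInd_ratio (htr : Algebra.trdeg k K = n) (f : Fin (n + 1) → K) (hf : ∀ i, f i ≠ 0)
    [Algebra.IsAlgebraic (IntermediateField.adjoin k (Set.range fun i => f i / f 0)) K] :
    AlgebraicIndependent k (fun i : Fin n => f i.succ / f 0) := by
  have h1 : IntermediateField.adjoin k (Set.range fun i => f i / f 0) =
      IntermediateField.adjoin k (Set.range fun i : Fin n => f i.succ / f 0) := by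
    refine le_antisymm ?_ (IntermediateField.adjoin.mono _ _ _ ?_)
    · rw [IntermediateField.adjoin_le_iff]
      rintro _ ⟨i, rfl⟩
      refine Fin.cases ?_ (fun i => ?_) i
      · show f 0 / f 0 ∈ _
        rw [div_self (hf 0)]
        exact one_mem _
      · exact IntermediateField.subset_adjoin _ _ ⟨i, rfl⟩
    · rintro _ ⟨i, rfl⟩
      exact ⟨i.succ, rfl⟩
  have h2 : Algebra.IsAlgebraic (IntermediateField.adjoin k
      (Set.range fun i : Fin n => f i.succ / f 0)) K := by
    rw [← h1]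
    infer_instance
  have h3 := IntermediateField.isAlgebraic_adjoin_iff_top.1 h2
  refine (Algebra.IsAlgebraic.isTranscendenceBasis_of_lift_le_trdeg_of_finite k
    (fun i : Fin n => f i.succ / f 0) ?_).1
  rw [htr]
  simp

/-- A nonzero polynomial over an infinite field has a point where it does not vanish. -/
theorem exists_eval_ne {R : Type*} [CommRing R] [IsDomain R] [Infinite R] {σ : Type*}
    {p : MvPolynomial σ R} (hp : p ≠ 0) : ∃ a : σ → R, MvPolynomial.eval a p ≠ 0 := by
  by_contra h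
  push Not at h
  exact hp (MvPolynomial.funext fun a => by rw [h a, map_zero])

end Adjoin

section Numerics

/-- `q ≤ (n + 1)!` from the two inequalities for the dimensions. -/
theorem le_factorial {n : ℕ} (a b : ℕ → ℕ) (j q c : ℕ) (hj : j ≤ n + 1)
    (h1 : ∃ᶠ t : ℕ in atTop, 2 * (n + 1).factorial * a t <
      2 * (n + 1).factorial * b t + (2 * (n + 1).factorial + 1) * j * t ^ n)
    (h2 : ∀ t, c < t → b t + q * (t - c - 1 + n).choose n ≤ a t) :
    q ≤ (n + 1).factorial := by
  by_contra hq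
  push Not at hq
  set D := (n + 1).factorial with hD
  have hDpos : 0 < D := Nat.factorial_pos _
  -- eventually `(2 D + 1) t ^ n ≤ (2 D + 2) (t - c) ^ n`
  have h3 : ∀ᶠ t : ℕ in atTop, ((2 * D + 1 : ℕ) : ℝ) * (t : ℝ) ^ n ≤
      ((2 * D + 2 : ℕ) : ℝ) * ((t - c : ℕ) : ℝ) ^ n := by
    have hlim : Tendsto (fun t : ℕ => ((t - c : ℕ) : ℝ) / (t : ℝ)) atTop (nhds 1) := by
      have h4 : Tendsto (fun t : ℕ => 1 - (c : ℝ) / (t : ℝ)) atTop (nhds (1 - 0)) :=
        tendsto_const_nhds.sub (tendsto_const_div_atTop_nhds_zero_nat (c : ℝ))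
      rw [sub_zero] at h4
      refine h4.congr' ?_
      filter_upwards [eventually_gt_atTop c, eventually_gt_atTop 0] with t ht ht0
      rw [Nat.cast_sub ht.le, sub_div, div_self (by exact_mod_cast ht0.ne')]
    have h5 : Tendsto (fun t : ℕ => ((2 * D + 2 : ℕ) : ℝ) * (((t - c : ℕ) : ℝ) / (t : ℝ)) ^ n)
        atTop (nhds (((2 * D + 2 : ℕ) : ℝ) * 1 ^ n)) := (hlim.pow n).const_mul _
    rw [one_pow, mul_one] at h5
    have h6 : ((2 * D + 1 : ℕ) : ℝ) < ((2 * D + 2 : ℕ) : ℝ) := by
      exact_mod_cast Nat.lt_succ_self _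
    filter_upwards [h5.eventually_const_lt h6, eventually_gt_atTop 0] with t ht ht0
    have ht0' : (0 : ℝ) < (t : ℝ) ^ n := by positivity
    rw [div_pow, mul_div_assoc', lt_div_iff₀ ht0'] at ht
    exact ht.le
  obtain ⟨t, ht1, ht3, htc⟩ := (h1.and_eventually (h3.and (eventually_gt_atTop c))).exists
  have h4 := h2 t htc
  have h5 : (t - c) ^ n ≤ n.factorial * (t - c - 1 + n).choose n := by
    have h6 := Nat.pow_sub_le_descFactorial (t - c - 1 + n) n
    rw [Nat.descFactorial_eq_factorial_mul_choose] at h6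
    have h7 : t - c - 1 + n + 1 - n = t - c := by omega
    rwa [h7] at h6
  have h3' : (2 * D + 1) * t ^ n ≤ (2 * D + 2) * (t - c) ^ n := by exact_mod_cast ht3
  have hDn : D = (n + 1) * n.factorial := by rw [hD, Nat.factorial_succ]
  set X := (t - c - 1 + n).choose n with hX
  set Y := t ^ n with hY
  set Z := (t - c) ^ n with hZ
  -- `2 D q X < (2 D + 1) j Y ≤ (2 D + 1) (n + 1) Y`
  have h8 : 2 * D * (q * X) < (2 * D + 1) * j * Y := by
    have := Nat.mul_le_mul_left (2 * D) h4
    rw [mul_add] at this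
    omega
  have h9 : (2 * D + 1) * j * Y ≤ (2 * D + 1) * (n + 1) * Y := by gcongr
  have h10 : (2 * D + 1) * (n + 1) * Y ≤ (n + 1) * ((2 * D + 2) * Z) := by
    calc (2 * D + 1) * (n + 1) * Y = (n + 1) * ((2 * D + 1) * Y) := by ring
      _ ≤ _ := Nat.mul_le_mul_left _ h3'
  have h11 : (n + 1) * ((2 * D + 2) * Z) ≤ (2 * D + 2) * (D * X) := by
    calc (n + 1) * ((2 * D + 2) * Z) ≤ (n + 1) * ((2 * D + 2) * (n.factorial * X)) := by gcongr
      _ = (2 * D + 2) * (((n + 1) * n.factorial) * X) := by ring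
      _ = (2 * D + 2) * (D * X) := by rw [← hDn]
  have h12 : (2 * D + 2) * (D * X) ≤ 2 * D * (q * X) := by
    calc (2 * D + 2) * (D * X) = 2 * D * ((D + 1) * X) := by ring
      _ ≤ 2 * D * (q * X) := by gcongr; omega
  omega

end Numerics

section Main

variable {k K : Type u} [Field k] [Field K] [Algebra k K] {n : ℕ}

theorem loc [IsAlgClosed k] (hn : 0 < n) (hfg : (⊤ : IntermediateField k K).FG)
    (htr : Algebra.trdeg k K = n) (hE : ExtStmt k K n) (hR : RankStmt k K) (hG : GPStmt k K n)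
    (hS : SepStmt k K n)
    (hC : ∀ (N : Type u) [Field N] [Algebra K N] [Algebra k N] [IsScalarTower k K N],
      CountStmt k K N n) : LocStmt k K n := by
  classical
  have : Infinite k := IsAlgClosed.instInfinite
  obtain ⟨V, hVfin, hV1, hVtop⟩ := exists_space hfg
  obtain ⟨m, c, P, hP, hc, hext⟩ := hE V hVfin hV1 (growth_bounds V hV1 hVtop htr)
    (2 * (n + 1).factorial) (n + 1) (by positivity)
  obtain ⟨s, hs0, hs⟩ := hR V m c P hVfin hP (by omega)
  have hbir : Bir P := bir_of hV1 hVtop hs0 hs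
  have hsP : s ∈ P := by
    have := hs 1 (Submodule.one_le.1 hV1)
    rwa [mul_one] at this
  have hPne : P ≠ ⊥ := by
    intro h
    rw [h, Submodule.mem_bot] at hsP
    exact hs0 hsP
  have hPfin : FiniteDimensional k P := by
    have hVfg : V.FG := Module.Finite.iff_fg.1 hVfin
    have : FiniteDimensional k (V ^ (m + 1) : Submodule k K) :=
      Module.Finite.iff_fg.2 (hVfg.pow (m + 1))
    exact Submodule.finiteDimensional_of_le hP.le
  -- a basis of `P`
  let e := Module.finBasis k P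
  have hι : Nonempty (Fin (finrank k P)) := by
    by_contra h
    rw [not_nonempty_iff] at h
    have h1 : (⟨s, hsP⟩ : P) = 0 := by
      rw [← e.sum_repr ⟨s, hsP⟩]
      exact Finset.sum_of_isEmpty _
    exact hs0 (congrArg Subtype.val h1)
  obtain ⟨s₀⟩ := hι
  obtain ⟨Δ₁, hΔ₁, hG1⟩ := hG htr hn P _ e hPne
  obtain ⟨Δ₂, hΔ₂, hS1⟩ := hS hfg htr P _ e hbir
  have hΔ₃ : (∏ i : Fin (n + 1), MvPolynomial.X (R := k) (i, s₀)) ≠ 0 :=
    Finset.prod_ne_zero_iff.2 fun i _ => MvPolynomial.X_ne_zero _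
  obtain ⟨a, ha⟩ := exists_eval_ne (mul_ne_zero (mul_ne_zero hΔ₁ hΔ₂) hΔ₃)
  rw [map_mul, map_mul] at ha
  have ha12 := left_ne_zero_of_mul ha
  have ha1 := left_ne_zero_of_mul ha12
  have ha2 := right_ne_zero_of_mul ha12
  have ha3 := right_ne_zero_of_mul ha
  rw [map_prod] at ha3
  have ha3' : ∀ i, a (i, s₀) ≠ 0 := by
    intro i
    have := Finset.prod_ne_zero_iff.1 ha3 i (Finset.mem_univ _)
    rwa [MvPolynomial.eval_X] at this
  set f : Fin (n + 1) → K := fun i => ∑ t, a (i, t) • (e t : K) with hf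
  have hfP : ∀ i, f i ∈ P := fun i => P.sum_mem fun t _ => P.smul_mem _ (e t).2
  have hf0 : ∀ i, f i ≠ 0 := by
    intro i h
    have h1 : ∑ t, a (i, t) • e t = 0 := by
      apply Subtype.ext
      rw [Submodule.coe_sum]
      simpa using h
    exact ha3' i (Fintype.linearIndependent_iff.1 e.linearIndependent _ h1 s₀)
  obtain ⟨hbpf, hloc⟩ := hG1 a ha1 f fun i => rfl
  have hsep := hS1 a ha2 f (fun i => rfl) 0
  have halg : Algebra.IsAlgebraic (IntermediateField.adjoin k (Set.range fun i => f i / f 0)) K :=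
    inferInstance
  have hfd : FiniteDimensional (IntermediateField.adjoin k (Set.range fun i => f i / f 0)) K := by
    have h1 : Algebra.EssFiniteType k K := IntermediateField.fg_top_iff.1 hfg
    have h2 : Algebra.EssFiniteType
        (IntermediateField.adjoin k (Set.range fun i => f i / f 0)) K :=
      Algebra.EssFiniteType.of_comp k _ K
    exact Algebra.finite_of_essFiniteType_of_isAlgebraic
  refine ⟨f, hf0, algInd_ratio htr f hf0, hsep, hfd, ?_⟩
  intro N _ _ _ _ hN1 hN2 A hA i₀ hi₀ q σ hσ hσ'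
  -- the valuation ring of `K`
  have hV : ZDim k (A.comap (algebraMap K N)) := zdim_comap hA
  have hmin : IsMin (A.comap (algebraMap K N)) P (f i₀) := by
    obtain ⟨i, hi⟩ := hbpf _ hV.ov
    refine ⟨hfP i₀, hf0 i₀, fun g hg => ?_⟩
    have h1 : g / f i₀ = g / f i * (f i / f i₀) := by
      field_simp [hf0 i]
    rw [h1]
    exact mul_mem (hi.div g hg) (ValuationSubring.mem_comap.2 (hi₀ i))
  obtain ⟨j, P', u, hj0, hj1, hreach, hP'low, hu0, huP, huc, hcen⟩ := hloc _ hV i₀ hmin
  obtain ⟨c', hcount⟩ := hC N P P' hPfin hbir f u i₀ _ (adjoin_ratio_eq f hf0 i₀ 0) hN1 hN2 htr A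
    hA hV hmin hfP hbpf hP'low hu0 huP huc hcen q σ (fun t b hb => hσ t b (by
      rw [← map_adjoin_ratios f i₀]
      exact isIntegral_map _ hb)) hσ'
  exact le_factorial _ _ j q c' hj1 (hext j P' hj0 hreach) hcount

end Main

end Pool.Agent.TGT
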