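import Pool.Agent.Lib.TGT.UltraBase

/-!
# (T) the ultrapower half of general position
-/

set_option autoImplicit false

namespace Pool.Agent.TGT

open Module Filter
open Pool.Agent.TG (Ov ZDim IsMin IsModel Bir)

universe u

section

variable {k : Type u} [Field k] {σ : Type}

/-- The index set: finite sets of nonzero polynomials. -/
abbrev PolyIdx (σ : Type) (k : Type u) [Field k] : Type u :=
  Finset {q : MvPolynomial σ k // q ≠ 0}

/-- An ultrafilter which contains all cones. -/
noncomputable def ultraAt (σ : Type) (k : Type u) [Field k] : Ultrafilter (PolyIdx σ k) :=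
  Ultrafilter.of atTop

theorem exists_generic {p : (σ → k) → Prop}
    (h : ∀ Δ : MvPolynomial σ k, Δ ≠ 0 → ∃ a : σ → k, MvPolynomial.eval a Δ ≠ 0 ∧ p a) :
    ∃ a : PolyIdx σ k → σ → k, (∀ F, p (a F)) ∧
      AlgebraicIndependent k (fun s => up (ultraAt σ k) fun F => a F s) := by
  classical
  have h1 : ∀ F : PolyIdx σ k, (∏ q ∈ F, (q : MvPolynomial σ k)) ≠ 0 := fun F =>
    Finset.prod_ne_zero_iff.2 fun q _ => q.2
  choose a ha hp using fun F => h _ (h1 F)
  refine ⟨a, hp, ?_⟩
  rw [algebraicIndependent_iff]
  intro q hq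
  by_contra hq0
  rw [up_aeval, up_eq_zero] at hq
  have h2 : ∀ᶠ F in (ultraAt σ k : Filter (PolyIdx σ k)), ({⟨q, hq0⟩} : PolyIdx σ k) ≤ F :=
    (Ultrafilter.of_le atTop) (eventually_ge_atTop _)
  obtain ⟨F, hF1, hF2⟩ := (hq.and h2).exists
  have h3 := ha F
  rw [MvPolynomial.eval_prod, Finset.prod_ne_zero_iff] at h3
  exact h3 ⟨q, hq0⟩ (hF2 (Finset.mem_singleton_self _)) hF1

end

theorem ultra (k K : Type u) [Field k] [Field K] [Algebra k K] (n : ℕ) : UltraStmt k K n := by
  intro P ι _ e
  refine ⟨fun i₀ h => ?_, fun h => ?_⟩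
  · obtain ⟨a, hbad, hind⟩ := exists_generic h
    set U := ultraAt (Fin (n + 1) × ι) k with hU
    choose A hA Q hQ0 hQs hQn hQv hf₀ hf using hbad
    have hfs : ∀ i, (∑ s, (up U fun F => a F (i, s) : Up U k) • upHom U k K (e s : K)) =
        up U fun F => ∑ s, a F (i, s) • (e s : K) := fun i =>
      up_comb U (fun s F => a F (i, s)) fun s => (e s : K)
    refine ⟨Up U k, Up U K, inferInstance, inferInstance, inferInstance, inferInstance,
      inferInstance, inferInstance, upHom U k K, fun s => up U fun F => a F s,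
      linearIndependent_upHom U P e, hind, fun j => uvs U fun F => A F j,
      fun j => zdim_uvs U fun F => hA F j, fun j => usub U fun F => Q F j, ?_, ?_, ?_, ?_, ?_, ?_⟩
    · have h1 : (fun F => Q F 0) = fun _ => P := funext hQ0
      rw [← usub_const U P e, ← h1]
    · intro j
      have h1 : (fun F => Q F (j + 1)) = fun F => low (hA F j).ov (Q F j) :=
        funext fun F => hQs F j
      rw [low_usub U (fun F => (hA F j).ov), ← h1]
    · exact usub_ne_bot U hQn
    · intro j hj x hx y hy hy'
      obtain ⟨x, rfl⟩ := up_surj U x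
      obtain ⟨y, rfl⟩ := up_surj U y
      rw [mem_usub] at hx hy hy'
      rw [ev_not] at hy'
      rw [uvs_lt]
      exact (hx.and (hy.and hy')).mono fun F hF => hQv F j hj _ hF.1 _ hF.2.1 hF.2.2
    · change (∑ s, (up U fun F => a F (i₀, s) : Up U k) • upHom U k K (e s : K)) ∉
        usub U (fun F => Q F 1)
      rw [hfs, mem_usub, ev_not]
      exact Eventually.of_forall hf₀
    · intro i
      choose c hc using fun F => hf F i
      refine ⟨up U c, ?_⟩
      change (∑ s, (up U fun F => a F (i, s) : Up U k) • upHom U k K (e s : K)) -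
        (up U c : Up U k) • (∑ s, (up U fun F => a F (i₀, s) : Up U k) • upHom U k K (e s : K)) ∈
        usub U (fun F => Q F (n + 2))
      rw [hfs, hfs, up_smul, ← up_sub, mem_usub]
      exact Eventually.of_forall hc
  · obtain ⟨a, hbad, hind⟩ := exists_generic h
    set U := ultraAt (Fin (n + 1) × ι) k with hU
    choose A hA hf using hbad
    have hfs : ∀ i, (∑ s, (up U fun F => a F (i, s) : Up U k) • upHom U k K (e s : K)) =
        up U fun F => ∑ s, a F (i, s) • (e s : K) := fun i =>
      up_comb U (fun s F => a F (i, s)) fun s => (e s : K)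
    refine ⟨Up U k, Up U K, inferInstance, inferInstance, inferInstance, inferInstance,
      inferInstance, inferInstance, upHom U k K, fun s => up U fun F => a F s,
      linearIndependent_upHom U P e, hind, uvs U A, zdim_uvs U hA, ?_⟩
    intro i
    rw [← usub_const U P e, low_usub U (fun F => (hA F).ov)]
    change (∑ s, (up U fun F => a F (i, s) : Up U k) • upHom U k K (e s : K)) ∈
        usub U (fun F => low (hA F).ov P)
    rw [hfs, mem_usub]
    exact Eventually.of_forall fun F => hf F i

end Pool.Agent.TGT
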