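import Pool.Agent.Lib.TGT.Loc
import Pool.Agent.Lib.TGT.Ext
import Pool.Agent.Lib.TGT.Rank
import Pool.Agent.Lib.TGT.GP
import Pool.Agent.Lib.TGT.Ultra
import Pool.Agent.Lib.TGT.Count
import Pool.Agent.Lib.TGT.Sep

/-!
# (T) The local degrees are at most `(n + 1)!`
-/

set_option autoImplicit false

namespace Pool.Agent.TGT

universe u

/-- Every function field `K / k` of transcendence degree `n ≥ 1` over an algebraically closed field
has homogeneous coordinates `f 0, .., f n` such that all local degrees of the normalisation of `P^n`
in `K` are at most `(n + 1)!`. -/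
theorem locAll (k K : Type u) [Field k] [IsAlgClosed k] [Field K] [Algebra k K] {n : ℕ} (hn : 0 < n)
    (hfg : (⊤ : IntermediateField k K).FG) (htr : Algebra.trdeg k K = n) : LocStmt k K n :=
  loc hn hfg htr (ext hn) rank (gp (ultra k K n)) (sep n) fun N => count k K N n

end Pool.Agent.TGT
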