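import Pool.Agent.Lib.TGT.LocAll
import Pool.Agent.Lib.TGT.Fin

/-!
# (T) Everywhere tame normalisation for `p > (n + 1)!`
-/

set_option autoImplicit false

namespace Pool.Agent.TGT

universe u

/-- For a prime `p > (n + 1)!` every function field of transcendence degree `n ≥ 1` over an
algebraically closed field has a separating transcendence basis `x` such that all inertia groups
(for all valuation rings over `k`) of the Galois closure of `K / k(x)` have order prime to `p`. -/
theorem tame (k K : Type u) [Field k] [IsAlgClosed k] [Field K] [Algebra k K] {n : ℕ} (hn : 0 < n)
    (hfg : (⊤ : IntermediateField k K).FG) (htr : Algebra.trdeg k K = n) {p : ℕ} [Fact p.Prime]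
    (hp : (n + 1).factorial < p) : FinStmt k K n p :=
  fin (locAll k K hn hfg htr) hp

end Pool.Agent.TGT
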