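import Pool.Agent.Lib.TGT.GPDefs

/-!
# (T3) residues and transcendence degree

`κ ⊆ V ⊆ L` with residue field `κ`. If constants `T ⊆ κ` are residues of elements which are
algebraic over `k(Kc, X)`, `X ⊆ κ`, and `V` is not trivial there, then
`rk (X ∪ T) + 1 ≤ rk (Kc ∪ X)`.
-/

set_option autoImplicit false

namespace Pool.Agent.TGT

open Module
open Pool.Agent.TG (Ov ZDim IsMin IsModel Bir)
open Pool.Agent.ALL68 (mul_lt_one_of_le_of_lt')

universe u

section Cl

variable {k L : Type u} [Field k] [Field L] [Algebra k L]

/-- The matroid of algebraic independence. -/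
noncomputable abbrev Mt (k L : Type u) [Field k] [Field L] [Algebra k L] : Matroid L :=
  AlgebraicIndependent.matroid k L

theorem mem_cl {S : Set L} {x : L} :
    x ∈ (Mt k L).closure S ↔ IsAlgebraic (Algebra.adjoin k S) x := by
  rw [Mt, AlgebraicIndependent.matroid_closure_eq]
  exact Iff.rfl

/-- The closure as an intermediate field. -/
noncomputable def clF (k : Type u) {L : Type u} [Field k] [Field L] [Algebra k L] (S : Set L) :
    IntermediateField k L where
  carrier := (Mt k L).closure S
  mul_mem' := by
    intro a b ha hb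
    rw [mem_cl] at *
    exact ha.mul hb
  one_mem' := by rw [mem_cl]; exact isAlgebraic_one
  add_mem' := by
    intro a b ha hb
    rw [mem_cl] at *
    exact ha.add hb
  zero_mem' := by rw [mem_cl]; exact isAlgebraic_zero
  algebraMap_mem' := by
    intro c
    rw [mem_cl]
    exact isAlgebraic_algebraMap (⟨algebraMap k L c, Subalgebra.algebraMap_mem _ c⟩ :
      Algebra.adjoin k S)
  inv_mem' := by
    intro a ha
    rw [mem_cl] at *
    exact ha.inv

theorem mem_clF {S : Set L} {x : L} : x ∈ clF k S ↔ x ∈ (Mt k L).closure S := Iff.rfl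

theorem subset_clF (S : Set L) : S ⊆ clF k S :=
  (Mt k L).subset_closure S (Set.subset_univ _)

theorem clF_mono {S T : Set L} (h : S ⊆ clF k T) : clF k S ≤ clF k T := by
  intro x hx
  have h1 : (Mt k L).closure S ⊆ (Mt k L).closure T :=
    (Mt k L).closure_subset_closure_of_subset_closure h
  exact h1 hx

end Cl

section Res

variable {k κ L : Type u} [Field k] [Field κ] [Field L] [Algebra k κ] [Algebra κ L] [Algebra k L]
  [IsScalarTower k κ L] {V : ValuationSubring L}

theorem val_const (hV : Ov κ V) {c : κ} (hc : c ≠ 0) : V.valuation (algebraMap κ L c) = 1 := by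
  refine le_antisymm ((V.valuation_le_one_iff _).2 (hV c)) ?_
  have h := (V.valuation_le_one_iff _).2 (hV c⁻¹)
  rw [map_inv₀, map_inv₀] at h
  have h0 : V.valuation (algebraMap κ L c) ≠ 0 := by
    rw [Ne, map_eq_zero]
    exact (map_ne_zero _).2 hc
  exact (inv_le_one₀ (zero_lt_iff.2 h0)).1 h

theorem ov_k (hV : Ov κ V) (c : k) : V.valuation (algebraMap k L c) ≤ 1 := by
  rw [IsScalarTower.algebraMap_apply k κ L]
  exact (V.valuation_le_one_iff _).2 (hV _)

/-- Evaluating at residues. -/
theorem val_aeval (hV : Ov κ V) {ι : Type*} (y : ι → L) (c : ι → κ)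
    (hy : ∀ i, V.valuation (y i - algebraMap κ L (c i)) < 1) (p : MvPolynomial ι k) :
    V.valuation (MvPolynomial.aeval y p) ≤ 1 ∧
      V.valuation (MvPolynomial.aeval y p - algebraMap κ L (MvPolynomial.aeval c p)) < 1 := by
  have hy1 : ∀ i, V.valuation (y i) ≤ 1 := by
    intro i
    have e : y i = (y i - algebraMap κ L (c i)) + algebraMap κ L (c i) := by ring
    rw [e]
    exact (Valuation.map_add_le _ (hy i).le ((V.valuation_le_one_iff _).2 (hV _)))
  induction p using MvPolynomial.induction_on with
  | C a =>
    rw [MvPolynomial.algHom_C, MvPolynomial.algHom_C, ← IsScalarTower.algebraMap_apply, sub_self,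
      map_zero]
    exact ⟨ov_k hV a, zero_lt_one⟩
  | add p q hp hq =>
    have e1 : MvPolynomial.aeval y (p + q) = MvPolynomial.aeval y p + MvPolynomial.aeval y q :=
      map_add _ _ _
    have e2 : MvPolynomial.aeval c (p + q) = MvPolynomial.aeval c p + MvPolynomial.aeval c q :=
      map_add _ _ _
    rw [e1, e2, map_add (algebraMap κ L)]
    refine ⟨Valuation.map_add_le _ hp.1 hq.1, ?_⟩
    rw [add_sub_add_comm]
    exact Valuation.map_add_lt _ hp.2 hq.2
  | mul_X p i hp =>
    have e1 : MvPolynomial.aeval y (p * MvPolynomial.X i) = MvPolynomial.aeval y p * y i := by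
      rw [map_mul, MvPolynomial.aeval_X]
    have e2 : MvPolynomial.aeval c (p * MvPolynomial.X i) = MvPolynomial.aeval c p * c i := by
      rw [map_mul, MvPolynomial.aeval_X]
    rw [e1, e2, map_mul (algebraMap κ L)]
    refine ⟨?_, ?_⟩
    · rw [map_mul]
      exact mul_le_one' hp.1 (hy1 i)
    · have e : MvPolynomial.aeval y p * y i - algebraMap κ L (MvPolynomial.aeval c p) *
          algebraMap κ L (c i) = MvPolynomial.aeval y p * (y i - algebraMap κ L (c i)) +
          algebraMap κ L (c i) *
            (MvPolynomial.aeval y p - algebraMap κ L (MvPolynomial.aeval c p)) := by ring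
      rw [e]
      refine Valuation.map_add_lt _ ?_ ?_
      · rw [map_mul]
        exact mul_lt_one_of_le_of_lt' hp.1 (hy i)
      · rw [map_mul]
        exact mul_lt_one_of_le_of_lt' ((V.valuation_le_one_iff _).2 (hV _)) hp.2

theorem val_aeval_eq_one (hV : Ov κ V) {ι : Type*} (y : ι → L) (c : ι → κ)
    (hy : ∀ i, V.valuation (y i - algebraMap κ L (c i)) < 1) (hc : AlgebraicIndependent k c)
    {p : MvPolynomial ι k} (hp : p ≠ 0) : V.valuation (MvPolynomial.aeval y p) = 1 := by
  have h1 : MvPolynomial.aeval c p ≠ 0 := by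
    intro h
    exact hp ((injective_iff_map_eq_zero _).1 hc p h)
  have h2 := val_const hV h1
  have h3 := (val_aeval hV y c hy p).2
  have e : MvPolynomial.aeval y p = (MvPolynomial.aeval y p -
    algebraMap κ L (MvPolynomial.aeval c p)) + algebraMap κ L (MvPolynomial.aeval c p) := by ring
  rw [e, Valuation.map_add_eq_of_lt_right V.valuation (by rw [h2]; exact h3)]
  exact h2

theorem algInd_lift (hV : Ov κ V) {ι : Type*} (y : ι → L) (c : ι → κ)
    (hy : ∀ i, V.valuation (y i - algebraMap κ L (c i)) < 1) (hc : AlgebraicIndependent k c) :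
    AlgebraicIndependent k y := by
  refine (injective_iff_map_eq_zero _).2 fun p hp => ?_
  by_contra h
  have h1 := val_aeval_eq_one hV y c hy hc h
  rw [hp, map_zero] at h1
  exact zero_ne_one h1

/-- Coefficients of value one: the value of a polynomial at an element of the maximal ideal. -/
theorem aeval_ne_zero_of {R : Subalgebra k L} (hR : ∀ x ∈ R, x ≠ 0 → V.valuation x = 1) {z : L}
    (hz0 : z ≠ 0) (hz : V.valuation z < 1) : ∀ (d : ℕ) (q : Polynomial R), q.natDegree ≤ d → q ≠ 0 →
      Polynomial.aeval z q ≠ 0 := by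
  have hle : ∀ q : Polynomial R, V.valuation (Polynomial.aeval z q) ≤ 1 := by
    intro q
    induction q using Polynomial.induction_on' with
    | add p q hp hq => rw [map_add]; exact Valuation.map_add_le _ hp hq
    | monomial m a =>
      rw [Polynomial.aeval_monomial, map_mul, map_pow]
      refine mul_le_one' ?_ (pow_le_one₀ zero_le hz.le)
      by_cases h : (a : L) = 0
      · have h2 : algebraMap R L a = 0 := h
        rw [h2, map_zero]
        exact zero_le_one
      · exact (hR _ a.2 h).le
  intro d
  induction d with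
  | zero =>
    intro q hd hq
    rw [Nat.le_zero] at hd
    rw [Polynomial.eq_C_of_natDegree_eq_zero hd, Polynomial.aeval_C]
    intro h
    apply hq
    rw [Polynomial.eq_C_of_natDegree_eq_zero hd]
    have h2 : q.coeff 0 = 0 := Subtype.ext h
    rw [h2, Polynomial.C_0]
  | succ d ih =>
    intro q hd hq
    have e := Polynomial.divX_mul_X_add q
    have e2 : Polynomial.aeval z q = Polynomial.aeval z q.divX * z + (q.coeff 0 : L) := by
      conv_lhs => rw [← e]
      rw [map_add, map_mul, Polynomial.aeval_X, Polynomial.aeval_C]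
      rfl
    have hlt : V.valuation (Polynomial.aeval z q.divX * z) < 1 := by
      rw [map_mul]
      exact mul_lt_one_of_le_of_lt' (hle _) hz
    by_cases h0 : (q.coeff 0 : L) = 0
    · rw [e2, h0, add_zero]
      refine mul_ne_zero (ih _ ?_ ?_) hz0
      · rw [Polynomial.natDegree_divX_eq_natDegree_tsub_one]
        omega
      · intro h
        apply hq
        rw [← e, h, zero_mul, zero_add]
        have h2 : q.coeff 0 = 0 := Subtype.ext h0
        rw [h2, Polynomial.C_0]
    · intro h
      have h1 := hR _ (q.coeff 0).2 h0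
      have h2 : V.valuation (Polynomial.aeval z q) = 1 := by
        rw [e2, Valuation.map_add_eq_of_lt_right V.valuation (by rw [h1]; exact hlt)]
        exact h1
      rw [h, map_zero] at h2
      exact zero_ne_one h2

/-- The lifts together with an element of the maximal ideal. -/
theorem algInd_option (hV : Ov κ V) {ι : Type u} (y : ι → L) (c : ι → κ)
    (hy : ∀ i, V.valuation (y i - algebraMap κ L (c i)) < 1) (hc : AlgebraicIndependent k c)
    {z : L} (hz0 : z ≠ 0) (hz : V.valuation z < 1) :
    AlgebraicIndependent k (fun o : Option ι => o.elim z y) := by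
  rw [(algInd_lift hV y c hy hc).option_iff_transcendental]
  rw [Transcendental]
  rintro ⟨q, hq, hqz⟩
  refine aeval_ne_zero_of (V := V) (R := Algebra.adjoin k (Set.range y)) ?_ hz0 hz q.natDegree q
    le_rfl hq hqz
  intro x hx hx0
  rw [Algebra.adjoin_range_eq_range_aeval] at hx
  obtain ⟨p, rfl⟩ := hx
  refine val_aeval_eq_one hV y c hy hc ?_
  rintro rfl
  exact hx0 (map_zero _)

/-- Sets of constants. -/
theorem algInd_const {J : Set L} (hJ : (Mt k L).Indep J) (g : J → κ)
    (hg : ∀ j : J, algebraMap κ L (g j) = j) : AlgebraicIndependent k g := by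
  have h1 : AlgebraicIndependent k (fun j : J => (j : L)) := hJ
  have h2 : (fun j : J => (j : L)) = (IsScalarTower.toAlgHom k κ L) ∘ g := by
    funext j
    exact (hg j).symm
  rw [h2] at h1
  exact h1.of_comp (IsScalarTower.toAlgHom k κ L)

/-- **Residues.** -/
theorem res (hV : Ov κ V) {S X T : Set L} (hX : X ⊆ Set.range (algebraMap κ L))
    (hT : T ⊆ Set.range (algebraMap κ L)) (hXS : X ⊆ clF k S)
    (hlift : ∀ c ∈ T, ∃ x ∈ clF k S, V.valuation (x - c) < 1) :
    (Mt k L).eRk (X ∪ T) ≤ (Mt k L).eRk S ∧
      ∀ z ∈ clF k S, z ≠ 0 → V.valuation z < 1 → (Mt k L).eRk (X ∪ T) + 1 ≤ (Mt k L).eRk S := by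
  obtain ⟨J, hJ⟩ := (Mt k L).exists_isBasis (X ∪ T)
  have hJr : ∀ j : J, ∃ g : κ, algebraMap κ L g = j := fun j =>
    (Set.union_subset hX hT) (hJ.subset j.2)
  choose g hg using hJr
  have hJl : ∀ j : J, ∃ x ∈ clF k S, V.valuation (x - algebraMap κ L (g j)) < 1 := by
    intro j
    rw [hg]
    rcases hJ.subset j.2 with h | h
    · exact ⟨j, hXS h, by rw [sub_self, map_zero]; exact zero_lt_one⟩
    · exact hlift _ h
  choose y hyS hy using hJl
  have hgi := algInd_const hJ.indep g hg
  rw [← hJ.encard_eq_eRk, ← (Mt k L).eRk_closure_eq S]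
  constructor
  · have h1 := algInd_lift hV y g hy hgi
    have h2 : (Mt k L).Indep (Set.range y) := h1.coe_range
    have h3 : Set.range y ⊆ (Mt k L).closure S := by
      rintro _ ⟨j, rfl⟩
      exact hyS j
    have h4 := h2.encard_le_eRk_of_subset h3
    exact h1.injective.encard_range.trans h4
  · intro z hz hz0 hz1
    have h1 := algInd_option hV y g hy hgi hz0 hz1
    have h2 : (Mt k L).Indep (Set.range fun o : Option J => o.elim z y) := h1.coe_range
    have h6 : (Set.range fun o : Option J => o.elim z y) = insert z (Set.range y) := by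
      ext w
      constructor
      · rintro ⟨o, rfl⟩
        cases o with
        | none => exact Or.inl rfl
        | some j => exact Or.inr ⟨j, rfl⟩
      · rintro (rfl | ⟨j, rfl⟩)
        · exact ⟨none, rfl⟩
        · exact ⟨some j, rfl⟩
    have h7 : z ∉ Set.range y := by
      rintro ⟨j, hj⟩
      have := h1.injective (a₁ := some j) (a₂ := none) hj
      exact absurd this (by simp)
    rw [h6] at h2
    have h3 : insert z (Set.range y) ⊆ (Mt k L).closure S := by
      rintro _ (rfl | ⟨j, rfl⟩)
      · exact hz
      · exact hyS j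
    have h4 := h2.encard_le_eRk_of_subset h3
    rw [Set.encard_insert_of_notMem h7] at h4
    have h8 := (algInd_lift hV y g hy hgi).injective.encard_range
    exact (add_le_add_left h8 1).trans h4

end Res

end Pool.Agent.TGT
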