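import Pool.Agent.Lib.TGT.Defs
import Pool.Agent.Lib.ALL.GrowLow
import Pool.Agent.Lib.ALB.Growth

/-!
# (T) The start: a birational model `V ∋ 1` and the growth of its powers
-/

set_option autoImplicit false

namespace Pool.Agent.TGT

open Module Filter
open Pool.Agent.TG (Ov ZDim IsMin IsModel Bir)

universe u

section

variable {k K : Type u} [Field k] [Field K] [Algebra k K]

theorem growth_low' {n : ℕ} (hn : Algebra.trdeg k K = n) (V : Submodule k K) (hV : (1 : K) ∈ V)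
    [FiniteDimensional k V] (hVE : IntermediateField.adjoin k (V : Set K) = ⊤) :
    ∃ c : ℝ, 0 < c ∧ ∀ t : ℕ, c * (t : ℝ) ^ n ≤ finrank k ↥(V ^ t) := by
  have h1 : Algebra.IsAlgebraic (Algebra.adjoin k (V : Set K)) K := by
    constructor
    intro x
    rw [← IntermediateField.isAlgebraic_adjoin_iff, hVE]
    exact isAlgebraic_algebraMap (⟨x, IntermediateField.mem_top⟩ : (⊤ : IntermediateField k K))
  obtain ⟨S, hSV, hS⟩ := exists_isTranscendenceBasis_subset (R := k) (V : Set K)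
  have hcard : Cardinal.mk S = n := by rw [hS.cardinalMk_eq_trdeg, hn]
  have hfin : S.Finite := Cardinal.lt_aleph0_iff_set_finite.1 (by
    rw [hcard]; exact Cardinal.natCast_lt_aleph0)
  have : Finite S := hfin
  have hn : Nat.card S = n := by rw [Nat.card, hcard, Cardinal.toNat_natCast]
  let e : Fin n ≃ S := (Finite.equivFinOfCardEq hn).symm
  have hw : AlgebraicIndependent k fun i : Fin n => ((e i : S) : K) := hS.1.comp e e.injective
  have hwV : ∀ i, ((e i : S) : K) ∈ V := fun i => hSV (e i).2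
  refine ⟨1 / (n : ℝ) ^ n, ?_, fun t => ?_⟩
  · rcases Nat.eq_zero_or_pos n with h0 | h0
    · subst h0; simp
    · have : (0 : ℝ) < n := by exact_mod_cast h0
      positivity
  · have h2 := ALL.card_le_finrank_pow hV hw hwV (t / n) t (Nat.mul_div_le t n)
    have h3 : ((t / n : ℕ) + 1 : ℝ) ^ n ≤ finrank k ↥(V ^ t) := by exact_mod_cast h2
    refine le_trans ?_ h3
    have h4 : (1 / (n : ℝ) ^ n) * (t : ℝ) ^ n = ((t : ℝ) / n) ^ n := by
      rw [div_pow]; ring
    rw [h4]
    refine pow_le_pow_left₀ (by positivity) ?_ n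
    exact (Nat.lt_floor_add_one ((t : ℝ) / n)).le.trans (by rw [Nat.floor_div_eq_div])

theorem growth_up' {n : ℕ} (hn : Algebra.trdeg k K = n) (V : Submodule k K) (hV : 1 ≤ V)
    [FiniteDimensional k V] :
    ∃ c : ℝ, ∀ t : ℕ, 1 ≤ t → (finrank k ↥(V ^ t) : ℝ) ≤ c * (t : ℝ) ^ n := by
  obtain ⟨C, hC⟩ := ALB.growth n hn.le V
  refine ⟨C * 2 ^ n, fun t ht => ?_⟩
  have h1 := hC t
  rw [sup_eq_right.2 hV] at h1
  have h2 : (finrank k ↥(V ^ t) : ℝ) ≤ (C : ℝ) * ((t : ℝ) + 1) ^ n := by exact_mod_cast h1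
  refine h2.trans ?_
  have h3 : ((t : ℝ) + 1) ^ n ≤ (2 * (t : ℝ)) ^ n := by
    have h4 : (1 : ℝ) ≤ t := by exact_mod_cast ht
    exact pow_le_pow_left₀ (by positivity) (by linarith) n
  calc (C : ℝ) * ((t : ℝ) + 1) ^ n ≤ C * (2 * (t : ℝ)) ^ n :=
        mul_le_mul_of_nonneg_left h3 (Nat.cast_nonneg _)
    _ = C * 2 ^ n * (t : ℝ) ^ n := by rw [mul_pow]; ring

/-- A birational model with `1 ∈ V`, and the growth of its powers. -/
theorem exists_start_model {n : ℕ} (hfg : (⊤ : IntermediateField k K).FG)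
    (hn : Algebra.trdeg k K = n) :
    ∃ V : Submodule k K, FiniteDimensional k V ∧ 1 ≤ V ∧ Bir V ∧
      ∃ c₁ c₂ : ℝ, 0 < c₁ ∧ ∀ᶠ s : ℕ in atTop,
        c₁ * (s : ℝ) ^ n ≤ finrank k (V ^ s : Submodule k K) ∧
        (finrank k (V ^ s : Submodule k K) : ℝ) ≤ c₂ * (s : ℝ) ^ n := by
  classical
  obtain ⟨S, hS⟩ := hfg
  set V : Submodule k K := Submodule.span k ((insert 1 S : Finset K) : Set K) with hV
  have h1 : (1 : K) ∈ V := Submodule.subset_span (by simp)
  have hSV : ∀ x ∈ S, x ∈ V := fun x hx => Submodule.subset_span (by simp [hx])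
  have hfd : FiniteDimensional k V := FiniteDimensional.span_finset k _
  have h1V : (1 : Submodule k K) ≤ V := Submodule.one_le.2 h1
  have htop : IntermediateField.adjoin k (V : Set K) = ⊤ := by
    rw [eq_top_iff, ← hS, IntermediateField.adjoin_le_iff]
    exact fun x hx => IntermediateField.subset_adjoin _ _ (hSV x hx)
  obtain ⟨c₁, hc1, hlow⟩ := growth_low' hn V h1 htop
  obtain ⟨c₂, hup⟩ := growth_up' hn V h1V
  refine ⟨V, hfd, h1V, ?_, c₁, c₂, hc1, ?_⟩
  · unfold Bir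
    rw [eq_top_iff, ← hS, IntermediateField.adjoin_le_iff]
    intro x hx
    exact IntermediateField.subset_adjoin _ _ ⟨1, h1, x, hSV x hx, by rw [div_one]⟩
  · filter_upwards [eventually_ge_atTop 1] with s hs
    exact ⟨hlow s, hup s hs⟩

/-- If `s V ≤ P` and `V` is birational, so is `P`. -/
theorem bir_of_mul {V P : Submodule k K} (hV : Bir V) {s : K} (hs : s ≠ 0)
    (h : ∀ x ∈ V, s * x ∈ P) : Bir P := by
  unfold Bir at hV ⊢
  rw [eq_top_iff, ← hV, IntermediateField.adjoin_le_iff]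
  rintro _ ⟨f, hf, g, hg, rfl⟩
  exact IntermediateField.subset_adjoin _ _
    ⟨s * f, h f hf, s * g, h g hg, by rw [mul_div_mul_left _ _ hs]⟩

end

end Pool.Agent.TGT
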