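import Pool.Agent.Lib.TGT.GPDefs
import Mathlib.Order.Filter.FilterProduct

/-!
# (T) Ultrapowers of a field with internal subspaces and valuation rings
-/

set_option autoImplicit false

namespace Pool.Agent.TGT

open Module Filter
open Pool.Agent.TG (Ov ZDim IsMin IsModel Bir)

universe u

/-- The ultrapower. -/
def Up {I : Type u} (U : Ultrafilter I) (X : Type u) : Type u := (U : Filter I).Germ X

section Basic

variable {I : Type u} (U : Ultrafilter I) {X : Type u}

/-- The class of a function. -/
def up (x : I → X) : Up U X := (x : (U : Filter I).Germ X)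

noncomputable instance [Field X] : Field (Up U X) :=
  inferInstanceAs (Field ((U : Filter I).Germ X))

theorem up_eq {x y : I → X} : up U x = up U y ↔ ∀ᶠ i in U, x i = y i := Filter.Germ.coe_eq

theorem up_surj (z : Up U X) : ∃ x : I → X, up U x = z :=
  Filter.Germ.inductionOn z fun x => ⟨x, rfl⟩

/-- Los for negations. -/
theorem ev_not {p : I → Prop} : (¬ ∀ᶠ i in U, p i) ↔ ∀ᶠ i in U, ¬ p i :=
  Ultrafilter.eventually_not.symm

variable [Field X]

theorem up_add (x y : I → X) : up U (fun i => x i + y i) = up U x + up U y := rfl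

theorem up_mul (x y : I → X) : up U (fun i => x i * y i) = up U x * up U y := rfl

theorem up_sub (x y : I → X) : up U (fun i => x i - y i) = up U x - up U y := rfl

theorem up_neg (x : I → X) : up U (fun i => - x i) = - up U x := rfl

theorem up_inv (x : I → X) : up U (fun i => (x i)⁻¹) = (up U x)⁻¹ := rfl

theorem up_div (x y : I → X) : up U (fun i => x i / y i) = up U x / up U y := rfl

theorem up_zero : up U (fun _ => (0 : X)) = 0 := rfl

theorem up_one : up U (fun _ => (1 : X)) = 1 := rfl

theorem up_eq_zero {x : I → X} : up U x = 0 ↔ ∀ᶠ i in U, x i = 0 := by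
  rw [← up_zero, up_eq]

theorem up_sum {ι : Type} (s : Finset ι) (x : ι → I → X) :
    up U (fun i => ∑ t ∈ s, x t i) = ∑ t ∈ s, up U (x t) := by
  classical
  induction s using Finset.induction_on with
  | empty => simp only [Finset.sum_empty]; rfl
  | insert a s ha ih =>
    rw [Finset.sum_insert ha, ← ih, ← up_add]
    simp only [Finset.sum_insert ha]

end Basic

section Alg

variable {I : Type u} (U : Ultrafilter I) {k K : Type u} [Field k] [Field K] [Algebra k K]

/-- The map of ultrapowers. -/
noncomputable def upMap : Up U k →+* Up U K where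
  toFun := Filter.Germ.map (algebraMap k K)
  map_one' := by
    rw [← up_one, ← up_one]
    exact (up_eq U).2 (Eventually.of_forall fun _ => map_one _)
  map_mul' := by
    intro x y
    obtain ⟨x, rfl⟩ := up_surj U x
    obtain ⟨y, rfl⟩ := up_surj U y
    exact (up_eq U (x := fun i => algebraMap k K (x i * y i))
      (y := fun i => algebraMap k K (x i) * algebraMap k K (y i))).2
      (Eventually.of_forall fun _ => map_mul _ _ _)
  map_zero' := by
    rw [← up_zero, ← up_zero]
    exact (up_eq U).2 (Eventually.of_forall fun _ => map_zero _)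
  map_add' := by
    intro x y
    obtain ⟨x, rfl⟩ := up_surj U x
    obtain ⟨y, rfl⟩ := up_surj U y
    exact (up_eq U (x := fun i => algebraMap k K (x i + y i))
      (y := fun i => algebraMap k K (x i) + algebraMap k K (y i))).2
      (Eventually.of_forall fun _ => map_add _ _ _)

/-- Constants. -/
noncomputable def upConst (X : Type u) [Field X] : X →+* Up U X where
  toFun := fun x => up U fun _ => x
  map_one' := rfl
  map_mul' := fun _ _ => rfl
  map_zero' := rfl
  map_add' := fun _ _ => rfl

noncomputable instance : Algebra (Up U k) (Up U K) := (upMap U).toAlgebra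

/-- The ultrapower of `K` as an algebra over the constants `k`. -/
noncomputable instance : Algebra k (Up U K) := ((upConst U K).comp (algebraMap k K)).toAlgebra

instance : IsScalarTower k (Up U k) (Up U K) := IsScalarTower.of_algebraMap_eq fun _ => rfl

theorem up_algebraMap (c : I → k) :
    algebraMap (Up U k) (Up U K) (up U c) = up U fun i => algebraMap k K (c i) := rfl

theorem up_smul (c : I → k) (x : I → K) :
    (up U c : Up U k) • (up U x : Up U K) = up U fun i => c i • x i := by
  rw [Algebra.smul_def, up_algebraMap, ← up_mul]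
  simp only [Algebra.smul_def]

/-! ### Internal subspaces -/

/-- The internal subspace. -/
def usub (P : I → Submodule k K) : Submodule (Up U k) (Up U K) where
  carrier := {z | ∃ x, up U x = z ∧ ∀ᶠ i in U, x i ∈ P i}
  add_mem' := by
    rintro _ _ ⟨x, rfl, hx⟩ ⟨y, rfl, hy⟩
    exact ⟨_, up_add U x y, (hx.and hy).mono fun i h => (P i).add_mem h.1 h.2⟩
  zero_mem' := ⟨_, up_zero U, Eventually.of_forall fun i => (P i).zero_mem⟩
  smul_mem' := by
    rintro c _ ⟨x, rfl, hx⟩
    obtain ⟨c, rfl⟩ := up_surj U c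
    exact ⟨_, (up_smul U c x).symm, hx.mono fun i h => (P i).smul_mem _ h⟩

theorem mem_usub {P : I → Submodule k K} {x : I → K} :
    up U x ∈ usub U P ↔ ∀ᶠ i in U, x i ∈ P i := by
  constructor
  · rintro ⟨y, hy, h⟩
    rw [up_eq] at hy
    exact (hy.and h).mono fun i h => h.1 ▸ h.2
  · exact fun h => ⟨x, rfl, h⟩

/-! ### Internal valuation rings -/

/-- The internal valuation ring. -/
def uvs (A : I → ValuationSubring K) : ValuationSubring (Up U K) where
  carrier := {z | ∃ x, up U x = z ∧ ∀ᶠ i in U, x i ∈ A i}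
  mul_mem' := by
    rintro _ _ ⟨x, rfl, hx⟩ ⟨y, rfl, hy⟩
    exact ⟨_, up_mul U x y, (hx.and hy).mono fun i h => (A i).mul_mem _ _ h.1 h.2⟩
  one_mem' := ⟨_, up_one U, Eventually.of_forall fun i => (A i).one_mem⟩
  add_mem' := by
    rintro _ _ ⟨x, rfl, hx⟩ ⟨y, rfl, hy⟩
    exact ⟨_, up_add U x y, (hx.and hy).mono fun i h => (A i).add_mem _ _ h.1 h.2⟩
  zero_mem' := ⟨_, up_zero U, Eventually.of_forall fun i => (A i).zero_mem⟩
  neg_mem' := by
    rintro _ ⟨x, rfl, hx⟩
    exact ⟨_, up_neg U x, hx.mono fun i h => (A i).neg_mem _ h⟩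
  mem_or_inv_mem' := by
    intro z
    obtain ⟨x, rfl⟩ := up_surj U z
    by_cases h : ∀ᶠ i in U, x i ∈ A i
    · exact Or.inl ⟨x, rfl, h⟩
    · rw [ev_not] at h
      exact Or.inr ⟨_, up_inv U x, h.mono fun i hi => ((A i).mem_or_inv_mem (x i)).resolve_left hi⟩

theorem mem_uvs {A : I → ValuationSubring K} {x : I → K} :
    up U x ∈ uvs U A ↔ ∀ᶠ i in U, x i ∈ A i := by
  constructor
  · rintro ⟨y, hy, h⟩
    rw [up_eq] at hy
    exact (hy.and h).mono fun i h => h.1 ▸ h.2
  · exact fun h => ⟨x, rfl, h⟩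

theorem val_le_val_iff' {E : Type*} [Field E] (V : ValuationSubring E) (x y : E) :
    V.valuation x ≤ V.valuation y ↔ (y = 0 → x = 0) ∧ x / y ∈ V := by
  by_cases hy : y = 0
  · subst hy
    simp only [map_zero, nonpos_iff_eq_zero, map_eq_zero, div_zero, forall_const]
    exact ⟨fun h => ⟨h, V.zero_mem⟩, fun h => h.1⟩
  · have h1 : 0 < V.valuation y := zero_lt_iff.2 ((Valuation.ne_zero_iff _).2 hy)
    rw [← V.valuation_le_one_iff, map_div₀, div_le_one₀ h1]
    exact ⟨fun h => ⟨fun h' => absurd h' hy, h⟩, fun h => h.2⟩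

theorem uvs_le {A : I → ValuationSubring K} {x y : I → K} :
    (uvs U A).valuation (up U x) ≤ (uvs U A).valuation (up U y) ↔
      ∀ᶠ i in U, (A i).valuation (x i) ≤ (A i).valuation (y i) := by
  have h0 : (up U y = 0 → up U x = 0) ↔ ∀ᶠ i in U, (y i = 0 → x i = 0) := by
    rw [up_eq_zero, up_eq_zero]
    exact Ultrafilter.eventually_imp.symm
  rw [val_le_val_iff', h0, ← up_div, mem_uvs, ← eventually_and]
  simp only [val_le_val_iff']

theorem uvs_lt {A : I → ValuationSubring K} {x y : I → K} :
    (uvs U A).valuation (up U x) < (uvs U A).valuation (up U y) ↔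
      ∀ᶠ i in U, (A i).valuation (x i) < (A i).valuation (y i) := by
  rw [← not_le, uvs_le, ev_not]
  simp only [not_le]

theorem uvs_lt_one {A : I → ValuationSubring K} {x : I → K} :
    (uvs U A).valuation (up U x) < 1 ↔ ∀ᶠ i in U, (A i).valuation (x i) < 1 := by
  have h := uvs_lt U (A := A) (x := x) (y := fun _ => 1)
  simpa only [up_one, map_one] using h

theorem zdim_uvs {A : I → ValuationSubring K} (hA : ∀ i, ZDim k (A i)) :
    ZDim (Up U k) (uvs U A) := by
  refine ⟨fun c => ?_, fun x hx => ?_⟩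
  · obtain ⟨c, rfl⟩ := up_surj U c
    rw [up_algebraMap, mem_uvs]
    exact Eventually.of_forall fun i => (hA i).ov (c i)
  · obtain ⟨x, rfl⟩ := up_surj U x
    rw [mem_uvs] at hx
    have h1 : ∀ i, ∃ c : k, x i ∈ A i → (A i).valuation (x i - algebraMap k K c) < 1 := by
      intro i
      by_cases h : x i ∈ A i
      · obtain ⟨c, hc⟩ := (hA i).res _ h
        exact ⟨c, fun _ => hc⟩
      · exact ⟨0, fun h' => absurd h' h⟩
    choose c hc using h1
    refine ⟨up U c, ?_⟩
    rw [up_algebraMap, ← up_sub, uvs_lt_one]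
    exact hx.mono fun i hi => hc i hi

theorem isMin_up {A : I → ValuationSubring K} {P : I → Submodule k K} {f : I → K} :
    IsMin (uvs U A) (usub U P) (up U f) ↔ ∀ᶠ i in U, IsMin (A i) (P i) (f i) := by
  constructor
  · rintro ⟨h1, h2, h3⟩
    rw [mem_usub] at h1
    rw [Ne, up_eq_zero, ev_not] at h2
    by_contra h
    rw [ev_not] at h
    have h4 : ∀ i, ∃ g : K, (f i ∈ P i ∧ f i ≠ 0 ∧ ¬ IsMin (A i) (P i) (f i)) →
        g ∈ P i ∧ g / f i ∉ A i := by
      intro i
      by_cases h5 : f i ∈ P i ∧ f i ≠ 0 ∧ ¬ IsMin (A i) (P i) (f i)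
      · have h6 : ¬ ∀ g ∈ P i, g / f i ∈ A i := fun h' => h5.2.2 ⟨h5.1, h5.2.1, h'⟩
        push Not at h6
        obtain ⟨g, hg, hg'⟩ := h6
        exact ⟨g, fun _ => ⟨hg, hg'⟩⟩
      · exact ⟨0, fun h' => absurd h' h5⟩
    choose g hg using h4
    have h5 : ∀ᶠ i in U, g i ∈ P i ∧ g i / f i ∉ A i :=
      (h1.and (h2.and h)).mono fun i hi => hg i hi
    have h6 := h3 (up U g) ((mem_usub U).2 (h5.mono fun i hi => hi.1))
    rw [← up_div, mem_uvs] at h6
    obtain ⟨i, hi⟩ := (h6.and h5).exists
    exact hi.2.2 hi.1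
  · intro h
    refine ⟨(mem_usub U).2 (h.mono fun i hi => hi.mem), ?_, ?_⟩
    · rw [Ne, up_eq_zero, ev_not]
      exact h.mono fun i hi => hi.ne
    · intro g hg
      obtain ⟨g, rfl⟩ := up_surj U g
      rw [mem_usub] at hg
      rw [← up_div, mem_uvs]
      exact (h.and hg).mono fun i hi => hi.1.div _ hi.2

theorem low_usub {A : I → ValuationSubring K} (hA : ∀ i, Ov k (A i))
    (hU : Ov (Up U k) (uvs U A)) (P : I → Submodule k K) :
    low hU (usub U P) = usub U fun i => low (hA i) (P i) := by
  ext z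
  obtain ⟨x, rfl⟩ := up_surj U z
  rw [mem_usub]
  constructor
  · rintro ⟨h1, h2⟩
    rw [mem_usub] at h1
    by_contra h
    rw [ev_not] at h
    have h4 : ∀ i, ∃ f : K, (x i ∈ P i ∧ x i ∉ low (hA i) (P i)) →
        IsMin (A i) (P i) f ∧ ¬ (A i).valuation (x i / f) < 1 := by
      intro i
      by_cases h5 : x i ∈ P i ∧ x i ∉ low (hA i) (P i)
      · have h6 : ¬ ∀ f, IsMin (A i) (P i) f → (A i).valuation (x i / f) < 1 :=
          fun h' => h5.2 ⟨h5.1, h'⟩
        push Not at h6
        obtain ⟨g, hg, hg'⟩ := h6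
        exact ⟨g, fun _ => ⟨hg, not_lt.2 hg'⟩⟩
      · exact ⟨0, fun h' => absurd h' h5⟩
    choose f hf using h4
    have h5 : ∀ᶠ i in U, IsMin (A i) (P i) (f i) ∧ ¬ (A i).valuation (x i / f i) < 1 :=
      (h1.and h).mono fun i hi => hf i hi
    have h6 := h2 (up U f) ((isMin_up U).2 (h5.mono fun i hi => hi.1))
    rw [← up_div, uvs_lt_one] at h6
    obtain ⟨i, hi⟩ := (h6.and h5).exists
    exact hi.2.2 hi.1
  · intro h
    refine ⟨(mem_usub U).2 (h.mono fun i hi => hi.1), fun f hf => ?_⟩
    obtain ⟨f, rfl⟩ := up_surj U f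
    rw [isMin_up] at hf
    rw [← up_div, uvs_lt_one]
    exact (h.and hf).mono fun i hi => hi.1.2 _ hi.2

theorem usub_ne_bot {P : I → Submodule k K} (hP : ∀ i, P i ≠ ⊥) : usub U P ≠ ⊥ := by
  intro h
  choose x hx hx0 using fun i => Submodule.exists_mem_ne_zero_of_ne_bot (hP i)
  have h1 : up U x ∈ usub U P := (mem_usub U).2 (Eventually.of_forall hx)
  rw [h, Submodule.mem_bot, up_eq_zero] at h1
  obtain ⟨i, hi⟩ := h1.exists
  exact hx0 i hi

/-- The constants of `K`, as a `k`-algebra homomorphism. -/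
noncomputable def upHom (k K : Type u) [Field k] [Field K] [Algebra k K] : K →ₐ[k] Up U K :=
  { upConst U K with commutes' := fun _ => rfl }

theorem upHom_apply (x : K) : upHom U k K x = up U fun _ => x := rfl

theorem up_comb {ι : Type} [Fintype ι] (c : ι → I → k) (e : ι → K) :
    ∑ s, (up U (c s) : Up U k) • upHom U k K (e s) = up U fun i => ∑ s, c s i • e s := by
  rw [up_sum]
  exact Finset.sum_congr rfl fun s _ => by rw [upHom_apply, up_smul]

theorem up_aeval {σ : Type} (a : σ → I → k) (q : MvPolynomial σ k) :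
    MvPolynomial.aeval (fun s => up U (a s)) q = up U fun i => MvPolynomial.eval (fun s => a s i) q := by
  induction q using MvPolynomial.induction_on with
  | C c =>
    rw [MvPolynomial.aeval_C]
    simp only [MvPolynomial.eval_C]
    rfl
  | add p q hp hq =>
    rw [map_add, hp, hq, ← up_add]
    simp only [map_add]
  | mul_X p s hp =>
    rw [map_mul, hp, MvPolynomial.aeval_X, ← up_mul]
    simp only [map_mul, MvPolynomial.eval_X]

theorem usub_const {ι : Type} [Fintype ι] (P : Submodule k K) (e : Basis ι k P) :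
    usub U (fun _ => P) =
      Submodule.span (Up U k) (Set.range fun s => upHom U k K (e s : K)) := by
  refine le_antisymm ?_ ?_
  · rintro _ ⟨x, rfl, hx⟩
    have h1 : ∀ i, ∃ c : ι → k, x i ∈ P → x i = ∑ s, c s • (e s : K) := by
      intro i
      by_cases h : x i ∈ P
      · refine ⟨e.repr ⟨x i, h⟩, fun _ => ?_⟩
        have h2 := congrArg (Subtype.val : P → K) (e.sum_repr ⟨x i, h⟩)
        simp only [AddSubmonoidClass.coe_finsetSum, SetLike.val_smul] at h2
        exact h2.symm
      · exact ⟨0, fun h' => absurd h' h⟩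
    choose c hc using h1
    have h2 : up U x = up U fun i => ∑ s, c i s • (e s : K) :=
      (up_eq U).2 (hx.mono fun i hi => hc i hi)
    rw [h2, ← up_comb U (fun s i => c i s)]
    exact Submodule.sum_mem _ fun s _ => Submodule.smul_mem _ _ (Submodule.subset_span ⟨s, rfl⟩)
  · rw [Submodule.span_le]
    rintro _ ⟨s, rfl⟩
    exact (mem_usub U (P := fun _ => P)).2 (Eventually.of_forall fun _ => (e s).2)

theorem linearIndependent_upHom {ι : Type} [Fintype ι] (P : Submodule k K) (e : Basis ι k P) :
    LinearIndependent (Up U k) (fun s => upHom U k K (e s : K)) := by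
  rw [Fintype.linearIndependent_iff]
  intro g hg s
  choose c hc using fun s => up_surj U (g s)
  have h1 : (∑ s, (up U (c s) : Up U k) • upHom U k K (e s : K)) = 0 := by
    rw [← hg]
    exact Finset.sum_congr rfl fun s _ => by rw [hc s]
  rw [up_comb, up_eq_zero] at h1
  rw [← hc s, up_eq_zero]
  have hl : LinearIndependent k (fun s => (e s : K)) :=
    e.linearIndependent.map' P.subtype P.ker_subtype
  rw [Fintype.linearIndependent_iff] at hl
  exact h1.mono fun i hi => hl (fun s => c s i) hi s

end Alg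

end Pool.Agent.TGT
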